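import Pool.Agent.Helper76.OV.G6
import Pool.Agent.Helper22.OV.Main

/-!
# OV: the statement `OctGen` and exponent 5/8 for all ovals with support function of class C⁵
-/

open MeasureTheory Real Set Filter Topology

set_option autoImplicit false

namespace Pool.Agent.Helper76.OV

open Pool.Agent.Helper22.AE
open Pool.Agent.Helper92.GC
open Pool.Agent.Helper22.AC (cntc)

theorem oct_all : Pool.Agent.Helper22.OV.OctGen := by
  intro ε c₁ B hε hε1 hc hB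
  obtain ⟨C, hC, h⟩ := oct_gen hε hε1 hc hB
  refine ⟨C, hC, fun φ W hφ R₀ R K h1 h2 h3 h4 h5 i hi c => ?_⟩
  have hn : Cn c₁ B φ := ⟨hφ.smooth, hφ.lo, hφ.d2, hφ.d3, hφ.d4⟩
  have hw : Cw B W := ⟨hφ.wb, hφ.wl⟩
  exact h φ W hn hw R₀ R K h1 h2 h3 h4 h5 i hi c

theorem main_ovals {H : ℝ → ℝ} (hH : IsSupp H) (h5 : ContDiff ℝ 5 H) {ε : ℝ} (hε : 0 < ε) :
    ∃ C : ℝ, ∀ R : ℝ, 1 ≤ R → ∀ c : ℝ × ℝ, |cntc H c R - area H * R ^ 2| ≤ C * R ^ (5 / 8 + ε) :=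
  Pool.Agent.Helper22.OV.main_of_oct hH h5 oct_all hε

end Pool.Agent.Helper76.OV
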