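import Pool.Agent.Helper76.OV.Defs

/-!
# OV-C1: the complement and the coordinates

PROOFS. `ex_cq`: Bezout (`h : IsCoprime n.1 n.2`) gives `n₀` with `dd n n₀ = n.1 n₀.2 - n.2 n₀.1 = 1`; `n' = n₀ - m n` has `dd n n' = 1` and `n'.1/n.1 = n₀.1/n.1 - m`;
take `m = round (n₀.1/n.1 - kap φ n)` (`abs_sub_round`).
`cq_spec`, `bq_le`: `dif_pos`, `choose_spec`.
`lq_dd`: bilinearity. `lq_inj`, `lq_surj`: the integer matrix with columns `n, n'` has determinant one (`p = (dd k n', dd n k)`), as `lc_inj`, `lc_surj` in GC.G1.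
`lq_fst`: `(lq φ n p).1 = p.1 n.1 + p.2 n'.1 = n.1 (p.1 + b0 p.2)`.
`lq_sl`: `k = lq φ n p`: `k.2/k.1 - n.2/n.1 = (dd n k)/(n.1 k.1) = p.2/(n.1 · n.1 u) = t/n.1²`.
`kap_le`: `|f3| ≤ B`, `f2 ≥ c₁ > 0` at `sl n ∈ [0, 1]`.
`sl_range`: `0 ≤ n.2 ≤ n.1`, `1 ≤ n.1` (also for `n.1 = 0` by the convention `x/0 = 0`).
-/

open MeasureTheory Real Set Filter Topology

set_option autoImplicit false

namespace Pool.Agent.Helper76.OV

open Pool.Agent.Helper22.AE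
open Pool.Agent.Helper92.GC

theorem ex_cq (φ : ℝ → ℝ) {n : ℤ × ℤ} (h : IsCoprime n.1 n.2) (h1 : 1 ≤ n.1) :
    ∃ n' : ℤ × ℤ, dd n n' = 1 ∧ |(n'.1 : ℝ) / (n.1 : ℝ) - kap φ n| ≤ 1 / 2 := by
  obtain ⟨a, b, hab⟩ := h
  have hn : (n.1 : ℝ) ≠ 0 := by
    have : (0 : ℤ) < n.1 := by omega
    exact_mod_cast this.ne'
  set m : ℤ := round (((-b : ℤ) : ℝ) / (n.1 : ℝ) - kap φ n) with hm
  refine ⟨(-b - m * n.1, a - m * n.2), ?_, ?_⟩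
  · unfold dd
    simp only
    linear_combination hab
  · have h2 := abs_sub_round (((-b : ℤ) : ℝ) / (n.1 : ℝ) - kap φ n)
    rw [← hm] at h2
    have h3 : (((-b - m * n.1, a - m * n.2) : ℤ × ℤ).1 : ℝ) / (n.1 : ℝ) - kap φ n =
        ((-b : ℤ) : ℝ) / (n.1 : ℝ) - kap φ n - m := by
      simp only
      push_cast
      field_simp
      ring
    rw [h3]
    exact h2

private theorem cq_both46 (φ : ℝ → ℝ) {n : ℤ × ℤ} (h : IsCoprime n.1 n.2) (h1 : 1 ≤ n.1) :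
    dd n (cq φ n) = 1 ∧ |((cq φ n).1 : ℝ) / (n.1 : ℝ) - kap φ n| ≤ 1 / 2 := by
  classical
  unfold cq
  rw [dif_pos (ex_cq φ h h1)]
  exact (ex_cq φ h h1).choose_spec

theorem cq_spec (φ : ℝ → ℝ) {n : ℤ × ℤ} (h : IsCoprime n.1 n.2) (h1 : 1 ≤ n.1) : dd n (cq φ n) = 1 :=
  (cq_both46 φ h h1).1

theorem bq_le (φ : ℝ → ℝ) {n : ℤ × ℤ} (h : IsCoprime n.1 n.2) (h1 : 1 ≤ n.1) : |bq φ n| ≤ 1 / 2 :=
  (cq_both46 φ h h1).2

theorem lq_dd (φ : ℝ → ℝ) {n : ℤ × ℤ} (h : IsCoprime n.1 n.2) (h1 : 1 ≤ n.1) (p : ℤ × ℤ) : dd n (lq φ n p) = p.2 := by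
  have h2 := cq_spec φ h h1
  unfold dd at h2 ⊢
  unfold lq
  simp only
  linear_combination p.2 * h2

theorem lq_inj (φ : ℝ → ℝ) {n : ℤ × ℤ} (h : IsCoprime n.1 n.2) (h1 : 1 ≤ n.1) : Function.Injective (lq φ n) := by
  intro p p' hp
  have h2 := lq_dd φ h h1 p
  have h3 := lq_dd φ h h1 p'
  rw [hp, h3] at h2
  have h4 := congrArg Prod.fst hp
  unfold lq at h4
  simp only at h4
  rw [h2] at h4
  have h5 : p.1 * n.1 = p'.1 * n.1 := by linarith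
  have h6 := mul_right_cancel₀ (by omega : n.1 ≠ 0) h5
  exact Prod.ext h6 h2.symm

theorem lq_surj (φ : ℝ → ℝ) {n : ℤ × ℤ} (h : IsCoprime n.1 n.2) (h1 : 1 ≤ n.1) : Function.Surjective (lq φ n) := by
  intro k
  have h2 := cq_spec φ h h1
  unfold dd at h2
  refine ⟨(k.1 * (cq φ n).2 - k.2 * (cq φ n).1, n.1 * k.2 - n.2 * k.1), ?_⟩
  unfold lq
  refine Prod.ext ?_ ?_
  · simp only
    linear_combination k.1 * h2
  · simp only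
    linear_combination k.2 * h2

theorem lq_fst (φ : ℝ → ℝ) {n : ℤ × ℤ} (h1 : 1 ≤ n.1) (p : ℤ × ℤ) :
    ((lq φ n p).1 : ℝ) = (n.1 : ℝ) * uu (b0 φ n) p := by
  have hn : (n.1 : ℝ) ≠ 0 := by
    have : (0 : ℤ) < n.1 := by omega
    exact_mod_cast this.ne'
  unfold lq uu b0
  push_cast
  field_simp

theorem lq_sl (φ : ℝ → ℝ) {n : ℤ × ℤ} (h : IsCoprime n.1 n.2) (h1 : 1 ≤ n.1) {p : ℤ × ℤ} (hu : 0 < uu (b0 φ n) p) :
    sl (lq φ n p) = sl n + tt (b0 φ n) p / (n.1 : ℝ) ^ 2 := by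
  have hn : (0 : ℝ) < (n.1 : ℝ) := by
    have : (0 : ℤ) < n.1 := by omega
    exact_mod_cast this
  have h2 : (n.1 : ℝ) * ((lq φ n p).2 : ℝ) - (n.2 : ℝ) * ((lq φ n p).1 : ℝ) = p.2 := by
    have := lq_dd φ h h1 p
    unfold dd at this
    exact_mod_cast this
  have h3 := lq_fst φ h1 p
  unfold sl tt
  rw [h3] at h2 ⊢
  set u := uu (b0 φ n) p
  have h4 : ((lq φ n p).2 : ℝ) = (p.2 + (n.2 : ℝ) * ((n.1 : ℝ) * u)) / n.1 := by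
    rw [eq_div_iff hn.ne']
    linarith
  rw [h4]
  field_simp
  ring

theorem sl_range {n : ℤ × ℤ} (h2 : 0 ≤ n.2) (h3 : n.2 ≤ n.1) : 0 ≤ sl n ∧ sl n ≤ 1 := by
  have h2' : (0 : ℝ) ≤ (n.2 : ℝ) := by exact_mod_cast h2
  have h3' : (n.2 : ℝ) ≤ (n.1 : ℝ) := by exact_mod_cast h3
  exact ⟨div_nonneg h2' (h2'.trans h3'), div_le_one_of_le₀ h3' (h2'.trans h3')⟩

theorem kap_le {c₁ B : ℝ} (hc : 0 < c₁) {φ : ℝ → ℝ} (hφ : Cn c₁ B φ) {n : ℤ × ℤ} (h1 : 1 ≤ n.1) (h2 : 0 ≤ n.2)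
    (h3 : n.2 ≤ n.1) : |kap φ n| ≤ B / (3 * c₁ * (n.1 : ℝ) ^ 2) := by
  have hn : (0 : ℝ) < (n.1 : ℝ) := by
    have : (0 : ℤ) < n.1 := by omega
    exact_mod_cast this
  obtain ⟨h4, h5⟩ := sl_range h2 h3
  have h6 : |sl n| ≤ 2 := by
    rw [abs_of_nonneg h4]
    linarith
  have h7 := hφ.lo _ h6
  have h8 := hφ.h3 _ h6
  have h9 : 0 < f2 φ (sl n) := by linarith
  unfold kap
  rw [abs_div, abs_of_pos (show 0 < 3 * f2 φ (sl n) * (n.1 : ℝ) ^ 2 by positivity)]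
  refine div_le_div₀ ((abs_nonneg _).trans h8) h8 (by positivity) ?_
  exact mul_le_mul_of_nonneg_right (by linarith) (by positivity)

end Pool.Agent.Helper76.OV
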