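import Pool.Agent.Helper76.OV.S3
import Pool.Agent.Helper76.OV.C1
import Pool.Agent.Helper92.GC.S4

/-!
# OV-S4: perfect spacing of the points (Rq(n), bq(n))

PROOF. (Compare GC.S4; copy what is private.) For `w = (n, m) ∈ W` let `n' = cq φ n`, `m' = cq φ m` (`cq_spec`: `dd n n' = 1`, `dd m m' = 1`) and
`a = m.1 n'.2 - m'.1 n.2`, `b = -m.1 n'.1 + m'.1 n.1`, `c = m.2 n'.2 - m'.2 n.2`, `d = -m.2 n'.1 + m'.2 n.1` (as in `umat`): `a d - b c = 1`, `a n.1 + b n.2 = m.1`, `c n.1 + d n.2 = m.2`,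
and the inverse: `d m.1 - b m.2 = n.1`. We have `b = n.1 m.1 (b0 φ m - b0 φ n)`, and
`b0 φ m - b0 φ n = (bq φ m - bq φ n) + (kap φ m - kap φ n)`, `|bq φ m - bq φ n| ≤ 1/P`, `|kap φ m| n.1 m.1 ≤ B/(3 c₁) n.1/m.1 ≤ 2 B/(3 c₁)` (`kap_le`, `n.1 ≤ P ≤ 2 m.1`), the same for
`n`. So `|b| ≤ P + 2 B/c₁`. As `P/2 < n.1, m.1 ≤ P`, `0 ≤ n.2 ≤ n.1`, `0 ≤ m.2 ≤ m.1`: `|a| ≤ 2 + |b|`, `|d| ≤ 2 + |b|`, `|c| ≤ 4 + |b|` (`c n.1 = m.2 - d n.2`). So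
`a² + b² + c² + d² ≤ 4 (4 + |b|)²`. The pair is determined by `(n, U)` (`m = U n`). Let `b₀ = 264 B/c₁ ≥ 0`.
Pairs with `c₁ |b| ≤ 264 B`: `sl_count` with `F = 2 (4 + b₀) ≥ 1` gives at most `C F²` matrices `U`, each with at most `3 P²` vectors `n` (`good_card`).
Pairs with `c₁ |b| > 264 B` (so `b ≠ 0`, `|b| ≥ 1`): by `window` (with `C₁` replaced by `max C₁ 0`) each `U` has at most `1 + 64 C₁ P/(c₁ |b|)` vectors `n`. Group by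
`i = Nat.log 2 |b|`: `2^i ≤ |b| < 2^(i+1)`, `2^i ≤ P + 2B/c₁ ≤ (1 + 2B/c₁) P =: M P`; by `sl_count` with `F = 2 (4 + 2^(i+1)) ≤ 12 · 2^i` there are at most `144 C 4^i` matrices, each with at most
`1 + 64 C₁ P/(c₁ 2^i)` vectors; the sum over `i ≤ I`, `2^I ≤ M P`, is at most `144 C (2 · 4^I + (64 C₁ P/c₁) 2 · 2^I) ≤ 288 C (M² + 64 C₁ M/c₁) P²`.
-/

open MeasureTheory Real Set Filter Topology

set_option autoImplicit false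

namespace Pool.Agent.Helper76.OV

open Pool.Agent.Helper22.AE
open Pool.Agent.Helper92.GC

private lemma bnd56 {c₁ B : ℝ} (hc : 0 < c₁) (hB : 1 ≤ B) {φ : ℝ → ℝ} (hφ : Cn c₁ B φ) {P : ℝ} (hP : 1 ≤ P)
    {n m : ℤ × ℤ} (hn : Good P n) (hm : Good P m) (h : |bq φ n - bq φ m| ≤ 1 / P) :
    (n.1 : ℝ) * m.1 * |b0 φ m - b0 φ n| ≤ P + 2 * B / c₁ := by
  have hn0 : (0 : ℝ) < n.1 := by linarith [hn.lo]
  have hm0 : (0 : ℝ) < m.1 := by linarith [hm.lo]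
  have hn1 : 1 ≤ n.1 := by
    have : 0 < n.1 := by exact_mod_cast hn0
    omega
  have hm1 : 1 ≤ m.1 := by
    have : 0 < m.1 := by exact_mod_cast hm0
    omega
  have k1 := kap_le hc hφ hn1 hn.nonneg hn.le
  have k2 := kap_le hc hφ hm1 hm.nonneg hm.le
  have e : b0 φ m - b0 φ n = -(bq φ n - bq φ m) + (kap φ m + -kap φ n) := by
    unfold bq
    ring
  have h1 : |b0 φ m - b0 φ n| ≤ 1 / P + (B / (3 * c₁ * (m.1 : ℝ) ^ 2) + B / (3 * c₁ * (n.1 : ℝ) ^ 2)) := by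
    rw [e]
    refine (abs_add_le _ _).trans (add_le_add ?_ ((abs_add_le _ _).trans (add_le_add k2 ?_)))
    · rwa [abs_neg]
    · rwa [abs_neg]
  have h2 : (n.1 : ℝ) * m.1 * (1 / P) ≤ P := by
    have h3 : (n.1 : ℝ) * m.1 ≤ P * P := mul_le_mul hn.hi hm.hi hm0.le (by linarith)
    rw [mul_one_div, div_le_iff₀ (by linarith)]
    exact h3
  have h4 : ∀ x y : ℝ, 0 < x → 0 < y → y ≤ 2 * x → x * y * (B / (3 * c₁ * x ^ 2)) ≤ B / c₁ := by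
    intro x y hx hy hxy
    have e1 : x * y * (B / (3 * c₁ * x ^ 2)) = (y / (3 * x)) * (B / c₁) := by
      field_simp
    rw [e1]
    have h5 : y / (3 * x) ≤ 1 := by
      rw [div_le_one (by positivity)]
      linarith
    exact mul_le_of_le_one_left (by positivity) h5
  have h6 : (n.1 : ℝ) * m.1 * (B / (3 * c₁ * (n.1 : ℝ) ^ 2)) ≤ B / c₁ :=
    h4 _ _ hn0 hm0 (by linarith [hn.lo, hm.hi])
  have h7 : (n.1 : ℝ) * m.1 * (B / (3 * c₁ * (m.1 : ℝ) ^ 2)) ≤ B / c₁ := by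
    have := h4 _ _ hm0 hn0 (by linarith [hm.lo, hn.hi])
    rwa [mul_comm (m.1 : ℝ) (n.1 : ℝ)] at this
  calc (n.1 : ℝ) * m.1 * |b0 φ m - b0 φ n|
      ≤ (n.1 : ℝ) * m.1 * (1 / P + (B / (3 * c₁ * (m.1 : ℝ) ^ 2) + B / (3 * c₁ * (n.1 : ℝ) ^ 2))) :=
        mul_le_mul_of_nonneg_left h1 (by positivity)
    _ = (n.1 : ℝ) * m.1 * (1 / P) + ((n.1 : ℝ) * m.1 * (B / (3 * c₁ * (m.1 : ℝ) ^ 2)) +
        (n.1 : ℝ) * m.1 * (B / (3 * c₁ * (n.1 : ℝ) ^ 2))) := by ring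
    _ ≤ P + (B / c₁ + B / c₁) := by linarith
    _ = P + 2 * B / c₁ := by ring

private lemma sq56 {b x : ℝ} (h : |x| ≤ 4 + |b|) : x ^ 2 ≤ (4 + |b|) ^ 2 := by
  rw [← sq_abs]
  exact pow_le_pow_left₀ (abs_nonneg _) h 2

private lemma mat56 {c₁ B : ℝ} (hc : 0 < c₁) (hB : 1 ≤ B) {φ : ℝ → ℝ} (hφ : Cn c₁ B φ) {P : ℝ} (hP : 1 ≤ P)
    {n m : ℤ × ℤ} (hn : Good P n) (hm : Good P m) (h : |bq φ n - bq φ m| ≤ 1 / P) :
    ∃ u : ℤ × ℤ × ℤ × ℤ, u.1 * u.2.2.2 - u.2.1 * u.2.2.1 = 1 ∧ u.1 * n.1 + u.2.1 * n.2 = m.1 ∧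
      u.2.2.1 * n.1 + u.2.2.2 * n.2 = m.2 ∧ |(u.2.1 : ℝ)| ≤ P + 2 * B / c₁ ∧
      ((u.1 ^ 2 + u.2.1 ^ 2 + u.2.2.1 ^ 2 + u.2.2.2 ^ 2 : ℤ) : ℝ) ≤ (2 * (4 + |(u.2.1 : ℝ)|)) ^ 2 := by
  have hn0 : (0 : ℝ) < n.1 := by linarith [hn.lo]
  have hm0 : (0 : ℝ) < m.1 := by linarith [hm.lo]
  have hn1 : 1 ≤ n.1 := by
    have : 0 < n.1 := by exact_mod_cast hn0
    omega
  have hm1 : 1 ≤ m.1 := by
    have : 0 < m.1 := by exact_mod_cast hm0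
    omega
  have s1 := cq_spec φ hn.cop hn1
  have s2 := cq_spec φ hm.cop hm1
  have hbd := bnd56 hc hB hφ hP hn hm h
  unfold dd at s1 s2
  obtain ⟨p, hp⟩ : ∃ p, p = cq φ n := ⟨_, rfl⟩
  obtain ⟨q, hq⟩ : ∃ q, q = cq φ m := ⟨_, rfl⟩
  rw [← hp] at s1
  rw [← hq] at s2
  have hbb : ((-(m.1 * p.1) + q.1 * n.1 : ℤ) : ℝ) = (n.1 : ℝ) * m.1 * (b0 φ m - b0 φ n) := by
    unfold b0
    rw [← hp, ← hq]
    push_cast
    field_simp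
    ring
  obtain ⟨a, ha⟩ : ∃ a : ℤ, a = m.1 * p.2 - q.1 * n.2 := ⟨_, rfl⟩
  obtain ⟨b, hb⟩ : ∃ b : ℤ, b = -(m.1 * p.1) + q.1 * n.1 := ⟨_, rfl⟩
  obtain ⟨c, hcc⟩ : ∃ c : ℤ, c = m.2 * p.2 - q.2 * n.2 := ⟨_, rfl⟩
  obtain ⟨d, hd⟩ : ∃ d : ℤ, d = -(m.2 * p.1) + q.2 * n.1 := ⟨_, rfl⟩
  have e1 : a * d - b * c = 1 := by
    have : a * d - b * c = (n.1 * p.2 - n.2 * p.1) * (m.1 * q.2 - m.2 * q.1) := by
      rw [ha, hb, hcc, hd]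
      ring
    rw [this, s1, s2]
    norm_num
  have e2 : a * n.1 + b * n.2 = m.1 := by
    have : a * n.1 + b * n.2 = m.1 * (n.1 * p.2 - n.2 * p.1) := by
      rw [ha, hb]
      ring
    rw [this, s1, mul_one]
  have e3 : c * n.1 + d * n.2 = m.2 := by
    have : c * n.1 + d * n.2 = m.2 * (n.1 * p.2 - n.2 * p.1) := by
      rw [hcc, hd]
      ring
    rw [this, s1, mul_one]
  have e4 : d * m.1 - b * m.2 = n.1 := by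
    have : d * m.1 - b * m.2 = n.1 * (m.1 * q.2 - m.2 * q.1) := by
      rw [hb, hd]
      ring
    rw [this, s2, mul_one]
  have r2 : (a : ℝ) * n.1 + b * n.2 = m.1 := by exact_mod_cast e2
  have r3 : (c : ℝ) * n.1 + d * n.2 = m.2 := by exact_mod_cast e3
  have r4 : (d : ℝ) * m.1 - b * m.2 = n.1 := by exact_mod_cast e4
  have n2 : (0 : ℝ) ≤ n.2 := by exact_mod_cast hn.nonneg
  have n3 : (n.2 : ℝ) ≤ n.1 := by exact_mod_cast hn.le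
  have m2 : (0 : ℝ) ≤ m.2 := by exact_mod_cast hm.nonneg
  have m3 : (m.2 : ℝ) ≤ m.1 := by exact_mod_cast hm.le
  have x1 : (m.1 : ℝ) ≤ 2 * n.1 := by linarith [hn.lo, hm.hi]
  have x2 : (n.1 : ℝ) ≤ 2 * m.1 := by linarith [hm.lo, hn.hi]
  have hb0 : 0 ≤ |(b : ℝ)| := abs_nonneg _
  have ba : |(a : ℝ)| ≤ 2 + |(b : ℝ)| := by
    have f1 : |(a : ℝ)| * n.1 ≤ (2 + |(b : ℝ)|) * n.1 := by
      calc |(a : ℝ)| * n.1 = |(a : ℝ) * n.1| := by rw [abs_mul, abs_of_pos hn0]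
        _ = |(m.1 : ℝ) + -(b * n.2)| := by
          congr 1
          linarith
        _ ≤ |(m.1 : ℝ)| + |-((b : ℝ) * n.2)| := abs_add_le _ _
        _ = (m.1 : ℝ) + |(b : ℝ)| * n.2 := by rw [abs_neg, abs_mul, abs_of_pos hm0, abs_of_nonneg n2]
        _ ≤ 2 * n.1 + |(b : ℝ)| * n.1 := add_le_add x1 (mul_le_mul_of_nonneg_left n3 hb0)
        _ = (2 + |(b : ℝ)|) * n.1 := by ring
    exact le_of_mul_le_mul_right f1 hn0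
  have bd : |(d : ℝ)| ≤ 2 + |(b : ℝ)| := by
    have f1 : |(d : ℝ)| * m.1 ≤ (2 + |(b : ℝ)|) * m.1 := by
      calc |(d : ℝ)| * m.1 = |(d : ℝ) * m.1| := by rw [abs_mul, abs_of_pos hm0]
        _ = |(n.1 : ℝ) + b * m.2| := by
          congr 1
          linarith
        _ ≤ |(n.1 : ℝ)| + |(b : ℝ) * m.2| := abs_add_le _ _
        _ = (n.1 : ℝ) + |(b : ℝ)| * m.2 := by rw [abs_mul, abs_of_pos hn0, abs_of_nonneg m2]
        _ ≤ 2 * m.1 + |(b : ℝ)| * m.1 := add_le_add x2 (mul_le_mul_of_nonneg_left m3 hb0)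
        _ = (2 + |(b : ℝ)|) * m.1 := by ring
    exact le_of_mul_le_mul_right f1 hm0
  have bc : |(c : ℝ)| ≤ 4 + |(b : ℝ)| := by
    have f1 : |(c : ℝ)| * n.1 ≤ (4 + |(b : ℝ)|) * n.1 := by
      calc |(c : ℝ)| * n.1 = |(c : ℝ) * n.1| := by rw [abs_mul, abs_of_pos hn0]
        _ = |(m.2 : ℝ) + -(d * n.2)| := by
          congr 1
          linarith
        _ ≤ |(m.2 : ℝ)| + |-((d : ℝ) * n.2)| := abs_add_le _ _
        _ = (m.2 : ℝ) + |(d : ℝ)| * n.2 := by rw [abs_neg, abs_mul, abs_of_nonneg m2, abs_of_nonneg n2]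
        _ ≤ 2 * n.1 + (2 + |(b : ℝ)|) * n.1 :=
          add_le_add (m3.trans x1) (mul_le_mul bd n3 n2 (by positivity))
        _ = (4 + |(b : ℝ)|) * n.1 := by ring
    exact le_of_mul_le_mul_right f1 hn0
  refine ⟨(a, b, c, d), e1, e2, e3, ?_, ?_⟩
  · show |(b : ℝ)| ≤ P + 2 * B / c₁
    rw [← hb] at hbb
    rw [hbb, abs_mul, abs_of_pos (mul_pos hn0 hm0)]
    exact hbd
  · show ((a ^ 2 + b ^ 2 + c ^ 2 + d ^ 2 : ℤ) : ℝ) ≤ (2 * (4 + |(b : ℝ)|)) ^ 2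
    push_cast
    have g1 := sq56 (b := (b : ℝ)) (x := (a : ℝ)) (by linarith)
    have g2 := sq56 (b := (b : ℝ)) (x := (b : ℝ)) (by linarith)
    have g3 := sq56 (b := (b : ℝ)) (x := (c : ℝ)) bc
    have g4 := sq56 (b := (b : ℝ)) (x := (d : ℝ)) (by linarith)
    have g5 : (2 * (4 + |(b : ℝ)|)) ^ 2 = 4 * (4 + |(b : ℝ)|) ^ 2 := by ring
    rw [g5]
    linarith

private lemma shell56 {Cs : ℝ} (hsl : ∀ F : ℝ, 1 ≤ F → ∀ W : Finset (ℤ × ℤ × ℤ × ℤ),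
    (∀ w ∈ W, w.1 * w.2.2.2 - w.2.1 * w.2.2.1 = 1 ∧
      ((w.1 ^ 2 + w.2.1 ^ 2 + w.2.2.1 ^ 2 + w.2.2.2 ^ 2 : ℤ) : ℝ) ≤ F ^ 2) → (W.card : ℝ) ≤ Cs * F ^ 2)
    (x : ℝ) (hx : 0 ≤ x) (V : Finset (ℤ × ℤ × ℤ × ℤ)) (hV : ∀ u ∈ V, u.1 * u.2.2.2 - u.2.1 * u.2.2.1 = 1 ∧
      ((u.1 ^ 2 + u.2.1 ^ 2 + u.2.2.1 ^ 2 + u.2.2.2 ^ 2 : ℤ) : ℝ) ≤ (2 * (4 + |(u.2.1 : ℝ)|)) ^ 2 ∧
      |(u.2.1 : ℝ)| ≤ x) : (V.card : ℝ) ≤ Cs * (2 * (4 + x)) ^ 2 := by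
  refine hsl (2 * (4 + x)) (by linarith) V (fun u hu => ?_)
  obtain ⟨h1, h2, h3⟩ := hV u hu
  refine ⟨h1, h2.trans ?_⟩
  have h4 : 0 ≤ |(u.2.1 : ℝ)| := abs_nonneg _
  exact pow_le_pow_left₀ (by positivity) (by linarith) 2

private lemma dy56 {Cs P M E : ℝ} (hCs : 0 < Cs) (hP : 1 ≤ P) (hM : 1 ≤ M) (hE : 0 ≤ E)
    (hsl : ∀ F : ℝ, 1 ≤ F → ∀ W : Finset (ℤ × ℤ × ℤ × ℤ),
    (∀ w ∈ W, w.1 * w.2.2.2 - w.2.1 * w.2.2.1 = 1 ∧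
      ((w.1 ^ 2 + w.2.1 ^ 2 + w.2.2.1 ^ 2 + w.2.2.2 ^ 2 : ℤ) : ℝ) ≤ F ^ 2) → (W.card : ℝ) ≤ Cs * F ^ 2)
    (A : Finset (ℤ × ℤ × ℤ × ℤ)) (hA : ∀ u ∈ A, u.1 * u.2.2.2 - u.2.1 * u.2.2.1 = 1 ∧
      ((u.1 ^ 2 + u.2.1 ^ 2 + u.2.2.1 ^ 2 + u.2.2.2 ^ 2 : ℤ) : ℝ) ≤ (2 * (4 + |(u.2.1 : ℝ)|)) ^ 2 ∧
      u.2.1 ≠ 0 ∧ |(u.2.1 : ℝ)| ≤ M * P) :
    ∑ u ∈ A, (1 + E * P / |(u.2.1 : ℝ)|) ≤ 288 * Cs * (M ^ 2 + E * M) * P ^ 2 := by
  classical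
  have hP0 : 0 < P := by linarith
  have hMP : 1 ≤ M * P := by nlinarith
  obtain ⟨I, hI⟩ : ∃ I : ℕ, I = Nat.log 2 ⌊M * P⌋₊ := ⟨_, rfl⟩
  have hfl : ⌊M * P⌋₊ ≠ 0 := by
    have h1 : 1 ≤ ⌊M * P⌋₊ := Nat.le_floor (by push_cast; exact hMP)
    omega
  have h2I : (2 : ℝ) ^ I ≤ M * P := by
    have h1 : 2 ^ I ≤ ⌊M * P⌋₊ := hI ▸ Nat.pow_log_le_self 2 hfl
    have h2 : ((2 ^ I : ℕ) : ℝ) ≤ (⌊M * P⌋₊ : ℝ) := by exact_mod_cast h1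
    have h3 := Nat.floor_le (by positivity : 0 ≤ M * P)
    push_cast at h2
    linarith
  have h4I : (4 : ℝ) ^ I ≤ (M * P) ^ 2 := by
    have h1 : (4 : ℝ) ^ I = ((2 : ℝ) ^ I) ^ 2 := by
      rw [← pow_mul, mul_comm, pow_mul]
      norm_num
    rw [h1]
    exact pow_le_pow_left₀ (by positivity) h2I 2
  have hna : ∀ u : ℤ × ℤ × ℤ × ℤ, ((u.2.1.natAbs : ℕ) : ℝ) = |(u.2.1 : ℝ)| := by
    intro u
    rw [Nat.cast_natAbs]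
    push_cast
    rfl
  have hmaps : ∀ u ∈ A, Nat.log 2 u.2.1.natAbs ∈ Finset.range (I + 1) := by
    intro u hu
    obtain ⟨-, -, -, h3⟩ := hA u hu
    rw [Finset.mem_range, Nat.lt_succ_iff, hI]
    apply Nat.log_mono_right
    apply Nat.le_floor
    rw [hna]
    exact h3
  rw [← Finset.sum_fiberwise_of_maps_to hmaps]
  have hterm : ∀ i ∈ Finset.range (I + 1),
      ∑ u ∈ A.filter (fun u => Nat.log 2 u.2.1.natAbs = i), (1 + E * P / |(u.2.1 : ℝ)|) ≤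
        144 * Cs * (4 ^ i + E * P * 2 ^ i) := by
    intro i _
    have hmem : ∀ u ∈ A.filter (fun u => Nat.log 2 u.2.1.natAbs = i),
        (2 : ℝ) ^ i ≤ |(u.2.1 : ℝ)| ∧ |(u.2.1 : ℝ)| ≤ 2 ^ (i + 1) := by
      intro u hu
      obtain ⟨huA, hui⟩ := Finset.mem_filter.1 hu
      obtain ⟨-, -, h2, -⟩ := hA u huA
      have h6 : u.2.1.natAbs ≠ 0 := Int.natAbs_ne_zero.2 h2
      have h7 := Nat.pow_log_le_self 2 h6
      have h8 := Nat.lt_pow_succ_log_self (by norm_num : 1 < 2) u.2.1.natAbs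
      rw [hui] at h7 h8
      rw [← hna]
      constructor
      · exact_mod_cast h7
      · exact_mod_cast h8.le
    have h2p : (0 : ℝ) < 2 ^ i := by positivity
    have h1i : (1 : ℝ) ≤ 2 ^ i := one_le_pow₀ (by norm_num)
    have h22 : (4 : ℝ) ^ i = 2 ^ i * 2 ^ i := by
      rw [← mul_pow]
      norm_num
    have hcard : ((A.filter (fun u => Nat.log 2 u.2.1.natAbs = i)).card : ℝ) ≤
        Cs * (2 * (4 + 2 ^ (i + 1))) ^ 2 :=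
      shell56 hsl _ (by positivity) _ (fun u hu => ⟨(hA u (Finset.mem_filter.1 hu).1).1,
        (hA u (Finset.mem_filter.1 hu).1).2.1, (hmem u hu).2⟩)
    have hc2 : (2 * (4 + (2 : ℝ) ^ (i + 1))) ^ 2 ≤ 144 * 4 ^ i := by
      have h9 : 2 * (4 + (2 : ℝ) ^ (i + 1)) ≤ 12 * 2 ^ i := by
        rw [pow_succ]
        linarith
      calc (2 * (4 + (2 : ℝ) ^ (i + 1))) ^ 2 ≤ (12 * 2 ^ i) ^ 2 := pow_le_pow_left₀ (by positivity) h9 2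
        _ = 144 * 4 ^ i := by
          rw [h22]
          ring
    calc ∑ u ∈ A.filter (fun u => Nat.log 2 u.2.1.natAbs = i), (1 + E * P / |(u.2.1 : ℝ)|)
        ≤ ∑ u ∈ A.filter (fun u => Nat.log 2 u.2.1.natAbs = i), (1 + E * P / 2 ^ i) := by
          refine Finset.sum_le_sum fun u hu => ?_
          have h10 : E * P / |(u.2.1 : ℝ)| ≤ E * P / 2 ^ i :=
            div_le_div_of_nonneg_left (by positivity) h2p (hmem u hu).1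
          linarith
      _ = ((A.filter (fun u => Nat.log 2 u.2.1.natAbs = i)).card : ℝ) * (1 + E * P / 2 ^ i) := by
          rw [Finset.sum_const, nsmul_eq_mul]
      _ ≤ (Cs * (2 * (4 + 2 ^ (i + 1))) ^ 2) * (1 + E * P / 2 ^ i) :=
          mul_le_mul_of_nonneg_right hcard (by positivity)
      _ ≤ (Cs * (144 * 4 ^ i)) * (1 + E * P / 2 ^ i) :=
          mul_le_mul_of_nonneg_right (mul_le_mul_of_nonneg_left hc2 hCs.le) (by positivity)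
      _ = 144 * Cs * (4 ^ i + E * P * 2 ^ i) := by
          rw [h22]
          field_simp
  refine (Finset.sum_le_sum hterm).trans ?_
  rw [← Finset.mul_sum, Finset.sum_add_distrib, ← Finset.mul_sum]
  have hg4 : ∑ i ∈ Finset.range (I + 1), (4 : ℝ) ^ i ≤ 2 * 4 ^ I := by
    rw [geom_sum_eq (by norm_num), pow_succ, div_le_iff₀ (by norm_num)]
    have : (1 : ℝ) ≤ 4 ^ I := one_le_pow₀ (by norm_num)
    linarith
  have hg2 : ∑ i ∈ Finset.range (I + 1), (2 : ℝ) ^ i ≤ 2 * 2 ^ I := by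
    rw [geom_sum_eq (by norm_num), pow_succ, div_le_iff₀ (by norm_num)]
    linarith
  have hg4' : ∑ i ∈ Finset.range (I + 1), (4 : ℝ) ^ i ≤ 2 * (M * P) ^ 2 := by linarith
  have hEP : 0 ≤ E * P := by positivity
  have hg2' : E * P * ∑ i ∈ Finset.range (I + 1), (2 : ℝ) ^ i ≤ E * P * (2 * (M * P)) :=
    mul_le_mul_of_nonneg_left (hg2.trans (by linarith)) hEP
  calc 144 * Cs * (∑ i ∈ Finset.range (I + 1), (4 : ℝ) ^ i + E * P * ∑ i ∈ Finset.range (I + 1), (2 : ℝ) ^ i)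
      ≤ 144 * Cs * (2 * (M * P) ^ 2 + E * P * (2 * (M * P))) :=
        mul_le_mul_of_nonneg_left (add_le_add hg4' hg2') (by positivity)
    _ = 288 * Cs * (M ^ 2 + E * M) * P ^ 2 := by ring

theorem spacing {c₁ B : ℝ} (hc : 0 < c₁) (hB : 1 ≤ B) (C₁ : ℝ) : ∃ C₂ : ℝ, 0 < C₂ ∧ ∀ φ : ℝ → ℝ, Cn c₁ B φ → ∀ P : ℝ, 1 ≤ P →
    ∀ W : Finset ((ℤ × ℤ) × (ℤ × ℤ)),
      (∀ w ∈ W, Good P w.1 ∧ Good P w.2 ∧ |Rq φ 1 w.1 - Rq φ 1 w.2| ≤ C₁ / P ^ 4 ∧ |bq φ w.1 - bq φ w.2| ≤ 1 / P) →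
        (W.card : ℝ) ≤ C₂ * P ^ 2 := by
  classical
  obtain ⟨Cs, hCs, hsl⟩ := sl_count
  obtain ⟨K, hK⟩ : ∃ K : ℝ, K = max C₁ 0 := ⟨_, rfl⟩
  have hK0 : 0 ≤ K := hK ▸ le_max_right _ _
  have hK1 : C₁ ≤ K := hK ▸ le_max_left _ _
  obtain ⟨M, hM⟩ : ∃ M : ℝ, M = 1 + 2 * B / c₁ := ⟨_, rfl⟩
  have hB0 : 0 < B := by linarith
  have hM1 : 1 ≤ M := by
    rw [hM]
    have : 0 ≤ 2 * B / c₁ := by positivity
    linarith
  obtain ⟨E, hE⟩ : ∃ E : ℝ, E = 64 * K / c₁ := ⟨_, rfl⟩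
  have hE0 : 0 ≤ E := by
    rw [hE]
    positivity
  obtain ⟨b₀, hb₀⟩ : ∃ b₀ : ℝ, b₀ = 264 * B / c₁ := ⟨_, rfl⟩
  have hb0 : 0 ≤ b₀ := by
    rw [hb₀]
    positivity
  refine ⟨Cs * (2 * (4 + b₀)) ^ 2 * 3 + 288 * Cs * (M ^ 2 + E * M), by positivity, fun φ hφ P hP W hW => ?_⟩
  have hP0 : 0 < P := by linarith
  have hex : ∀ w ∈ W, ∃ u : ℤ × ℤ × ℤ × ℤ, u.1 * u.2.2.2 - u.2.1 * u.2.2.1 = 1 ∧
      u.1 * w.1.1 + u.2.1 * w.1.2 = w.2.1 ∧ u.2.2.1 * w.1.1 + u.2.2.2 * w.1.2 = w.2.2 ∧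
        |(u.2.1 : ℝ)| ≤ P + 2 * B / c₁ ∧
        ((u.1 ^ 2 + u.2.1 ^ 2 + u.2.2.1 ^ 2 + u.2.2.2 ^ 2 : ℤ) : ℝ) ≤ (2 * (4 + |(u.2.1 : ℝ)|)) ^ 2 := by
    intro w hw
    obtain ⟨hg1, hg2, -, hb⟩ := hW w hw
    exact mat56 hc hB hφ hP hg1 hg2 hb
  choose! U hU using hex
  have hdn : ∀ u ∈ W.image U, u.1 * u.2.2.2 - u.2.1 * u.2.2.1 = 1 ∧
      ((u.1 ^ 2 + u.2.1 ^ 2 + u.2.2.1 ^ 2 + u.2.2.2 ^ 2 : ℤ) : ℝ) ≤ (2 * (4 + |(u.2.1 : ℝ)|)) ^ 2 ∧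
      |(u.2.1 : ℝ)| ≤ M * P := by
    intro u hu
    obtain ⟨w, hw, rfl⟩ := Finset.mem_image.1 hu
    obtain ⟨h1, -, -, h4, h5⟩ := hU w hw
    refine ⟨h1, h5, h4.trans ?_⟩
    rw [hM]
    have h6 : 2 * B / c₁ * 1 ≤ 2 * B / c₁ * P := mul_le_mul_of_nonneg_left hP (by positivity)
    linarith
  have hinj : ∀ u : ℤ × ℤ × ℤ × ℤ, Set.InjOn Prod.fst ((W.filter (fun w => U w = u) : Finset _) : Set ((ℤ × ℤ) × (ℤ × ℤ))) := by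
    intro u x hx y hy hxy
    obtain ⟨hx1, hx2⟩ := Finset.mem_filter.1 (Finset.mem_coe.1 hx)
    obtain ⟨hy1, hy2⟩ := Finset.mem_filter.1 (Finset.mem_coe.1 hy)
    obtain ⟨-, h1, h2, -, -⟩ := hU x hx1
    obtain ⟨-, h3, h4, -, -⟩ := hU y hy1
    rw [hx2] at h1 h2
    rw [hy2] at h3 h4
    refine Prod.ext hxy ?_
    rw [← hxy] at h3 h4
    exact Prod.ext (h1.symm.trans h3) (h2.symm.trans h4)
  have hcard : ∀ u : ℤ × ℤ × ℤ × ℤ, ((W.filter (fun w => U w = u)).image Prod.fst).card =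
      (W.filter (fun w => U w = u)).card := fun u => Finset.card_image_of_injOn (hinj u)
  have hf1 : ∀ u ∈ W.image U, ((W.filter (fun w => U w = u)).card : ℝ) ≤ 3 * P ^ 2 := by
    intro u _
    rw [← hcard u]
    refine good_card hP _ (fun n hn => ?_)
    obtain ⟨w, hwV, rfl⟩ := Finset.mem_image.1 hn
    exact (hW w (Finset.mem_filter.1 hwV).1).1
  have hf2 : ∀ u ∈ W.image U, 264 * B ≤ c₁ * |(u.2.1 : ℝ)| →
      ((W.filter (fun w => U w = u)).card : ℝ) ≤ 1 + E * P / |(u.2.1 : ℝ)| := by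
    intro u hu hbu
    rw [← hcard u]
    have h1 := window hc hB hK0 hφ hP (hdn u hu).1 hbu ((W.filter (fun w => U w = u)).image Prod.fst)
      (fun n hn => by
        obtain ⟨w, hwV, rfl⟩ := Finset.mem_image.1 hn
        obtain ⟨hwW, hwu⟩ := Finset.mem_filter.1 hwV
        obtain ⟨-, h2, h3, -, -⟩ := hU w hwW
        rw [hwu] at h2 h3
        obtain ⟨g1, g2, g3, -⟩ := hW w hwW
        rw [h2, h3]
        refine ⟨g1, g2, ?_⟩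
        rw [abs_sub_comm]
        exact g3.trans (div_le_div_of_nonneg_right hK1 (by positivity)))
    refine h1.trans (le_of_eq ?_)
    have hbp : 0 < |(u.2.1 : ℝ)| := by
      rcases (abs_nonneg (u.2.1 : ℝ)).eq_or_lt with h4 | h4
      · rw [← h4, mul_zero] at hbu
        linarith
      · exact h4
    rw [hE]
    field_simp
  have hsum : (W.card : ℝ) = ∑ u ∈ W.image U, ((W.filter (fun w => U w = u)).card : ℝ) := by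
    exact_mod_cast Finset.card_eq_sum_card_image U W
  rw [hsum, ← Finset.sum_filter_add_sum_filter_not (W.image U) (fun u => 264 * B ≤ c₁ * |(u.2.1 : ℝ)|)]
  have hA : ∑ u ∈ (W.image U).filter (fun u => 264 * B ≤ c₁ * |(u.2.1 : ℝ)|),
      ((W.filter (fun w => U w = u)).card : ℝ) ≤ 288 * Cs * (M ^ 2 + E * M) * P ^ 2 := by
    calc _ ≤ ∑ u ∈ (W.image U).filter (fun u => 264 * B ≤ c₁ * |(u.2.1 : ℝ)|), (1 + E * P / |(u.2.1 : ℝ)|) := by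
          refine Finset.sum_le_sum fun u hu => ?_
          obtain ⟨h1, h2⟩ := Finset.mem_filter.1 hu
          exact hf2 u h1 h2
      _ ≤ _ := by
          refine dy56 hCs hP hM1 hE0 hsl _ (fun u hu => ?_)
          obtain ⟨h1, h2⟩ := Finset.mem_filter.1 hu
          obtain ⟨h3, h4, h5⟩ := hdn u h1
          refine ⟨h3, h4, ?_, h5⟩
          intro h0
          rw [h0, Int.cast_zero, abs_zero, mul_zero] at h2
          linarith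
  have hBd : ∑ u ∈ (W.image U).filter (fun u => ¬ 264 * B ≤ c₁ * |(u.2.1 : ℝ)|),
      ((W.filter (fun w => U w = u)).card : ℝ) ≤ (Cs * (2 * (4 + b₀)) ^ 2) * (3 * P ^ 2) := by
    calc _ ≤ ∑ u ∈ (W.image U).filter (fun u => ¬ 264 * B ≤ c₁ * |(u.2.1 : ℝ)|), (3 * P ^ 2) := by
          refine Finset.sum_le_sum fun u hu => ?_
          exact hf1 u (Finset.mem_filter.1 hu).1
      _ = (((W.image U).filter (fun u => ¬ 264 * B ≤ c₁ * |(u.2.1 : ℝ)|)).card : ℝ) * (3 * P ^ 2) := by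
          rw [Finset.sum_const, nsmul_eq_mul]
      _ ≤ _ := by
          refine mul_le_mul_of_nonneg_right (shell56 hsl b₀ hb0 _ (fun u hu => ?_)) (by positivity)
          obtain ⟨h1, h2⟩ := Finset.mem_filter.1 hu
          obtain ⟨h3, h4, -⟩ := hdn u h1
          refine ⟨h3, h4, ?_⟩
          rw [hb₀, le_div_iff₀ hc, mul_comm]
          exact (not_le.1 h2).le
  calc _ ≤ 288 * Cs * (M ^ 2 + E * M) * P ^ 2 + (Cs * (2 * (4 + b₀)) ^ 2) * (3 * P ^ 2) := add_le_add hA hBd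
    _ = (Cs * (2 * (4 + b₀)) ^ 2 * 3 + 288 * Cs * (M ^ 2 + E * M)) * P ^ 2 := by ring

end Pool.Agent.Helper76.OV
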