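import Pool.Agent.Helper76.OV.Defs

/-!
# OV-T1: the remainder of the Taylor formula

PROOF. `φ` is of class C⁴, so `deriv φ`, `f2 φ`, `f3 φ` are differentiable everywhere with derivatives `f2 φ`, `f3 φ`, `f4 φ` (`ContDiff.differentiable_deriv...`;
`contDiff_succ_iff_deriv`). Let `g₃ x = f3 φ (s + x) - f3 φ s`: `|g₃ x| ≤ B |x|` for `|x| ≤ 1` (mean value theorem, `|s + x| ≤ 2`, `|f4| ≤ B`).
`g₂ x = f2 φ (s + x) - f2 φ s - f3 φ s · x` has `g₂ 0 = 0`, `g₂' = g₃`, so `|g₂ x| ≤ B X |x| ≤ B X²` for `|x| ≤ X ≤ 1`. `g₁ x = φ'(s + x) - φ'(s) - f2 φ s · x - f3 φ s · x²/2` has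
`g₁ 0 = 0`, `g₁' = g₂`, `|g₁ x| ≤ B X² |x| ≤ B X³`; and `rem φ s` has the derivative `g₁`, so `|rem x - rem y| ≤ B X³ |x - y|`
(`Convex.norm_image_sub_le_of_norm_hasDerivWithin_le` or the mean value theorem on the segment `[-X, X]`).
-/

open MeasureTheory Real Set Filter Topology

set_option autoImplicit false

namespace Pool.Agent.Helper76.OV

open Pool.Agent.Helper22.AE
open Pool.Agent.Helper92.GC

/-- the remainder -/
noncomputable def rem (φ : ℝ → ℝ) (s x : ℝ) : ℝ :=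
  φ (s + x) - φ s - deriv φ s * x - f2 φ s * x ^ 2 / 2 - f3 φ s * x ^ 3 / 6

theorem rem_zero (φ : ℝ → ℝ) (s : ℝ) : rem φ s 0 = 0 := by
  simp [rem]

private theorem mv75 {g g' : ℝ → ℝ} (h : ∀ x, HasDerivAt g (g' x) x) {C X : ℝ} (hC : ∀ z, |z| ≤ X → |g' z| ≤ C)
    {x y : ℝ} (hx : |x| ≤ X) (hy : |y| ≤ X) : |g x - g y| ≤ C * |x - y| := by
  have h1 := Convex.norm_image_sub_le_of_norm_hasDerivWithin_le (f := g) (f' := g') (s := Icc (-X) X) (x := y) (y := x)
    (C := C) (fun z _ => (h z).hasDerivWithinAt) (fun z hz => by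
      rw [Real.norm_eq_abs]
      exact hC z (abs_le.2 ⟨hz.1, hz.2⟩)) (convex_Icc _ _) (abs_le.1 hy) (abs_le.1 hx)
  rwa [Real.norm_eq_abs, Real.norm_eq_abs] at h1

theorem rem_lip {c₁ B : ℝ} {φ : ℝ → ℝ} (hφ : Cn c₁ B φ) {s X x y : ℝ} (hs : 0 ≤ s) (hs1 : s ≤ 1) (hX : X ≤ 1)
    (hx : |x| ≤ X) (hy : |y| ≤ X) : |rem φ s x - rem φ s y| ≤ B * X ^ 3 * |x - y| := by
  have hX0 : 0 ≤ X := (abs_nonneg x).trans hx
  have c4 : ContDiff ℝ (3 + 1) φ := by
    have := hφ.smooth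
    norm_num
    exact this
  obtain ⟨d0, -, c3⟩ := contDiff_succ_iff_deriv.1 c4
  have c3' : ContDiff ℝ (2 + 1) (deriv φ) := by
    norm_num
    exact c3
  obtain ⟨d1, -, c2⟩ := contDiff_succ_iff_deriv.1 c3'
  have c2' : ContDiff ℝ (1 + 1) (f2 φ) := by
    norm_num
    exact c2
  obtain ⟨d2, -, c1⟩ := contDiff_succ_iff_deriv.1 c2'
  have d3 : Differentiable ℝ (f3 φ) := ContDiff.differentiable c1 (by norm_num)
  have sh : ∀ z : ℝ, HasDerivAt (fun z : ℝ => s + z) 1 z := fun z => (hasDerivAt_id z).const_add s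
  have e0 : ∀ z, HasDerivAt (fun z => φ (s + z)) (deriv φ (s + z)) z := by
    intro z
    have := (d0 (s + z)).hasDerivAt.comp z (sh z)
    rwa [mul_one] at this
  have e1 : ∀ z, HasDerivAt (fun z => deriv φ (s + z)) (f2 φ (s + z)) z := by
    intro z
    have := (d1 (s + z)).hasDerivAt.comp z (sh z)
    rwa [mul_one] at this
  have e2 : ∀ z, HasDerivAt (fun z => f2 φ (s + z)) (f3 φ (s + z)) z := by
    intro z
    have := (d2 (s + z)).hasDerivAt.comp z (sh z)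
    rwa [mul_one] at this
  have e3 : ∀ z, HasDerivAt (fun z => f3 φ (s + z)) (f4 φ (s + z)) z := by
    intro z
    have := (d3 (s + z)).hasDerivAt.comp z (sh z)
    rwa [mul_one] at this
  have hz0 : |(0 : ℝ)| ≤ X := by rw [abs_zero]; exact hX0
  have hB0 : 0 ≤ B := (abs_nonneg _).trans (hφ.h4 0 (by norm_num))
  -- third
  have g3 : ∀ z, |z| ≤ X → |f3 φ (s + z) - f3 φ s| ≤ B * X := by
    intro z hz
    have h1 := mv75 e3 (C := B) (X := X) (fun w hw => hφ.h4 _ (by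
      have := abs_le.1 (hw.trans hX)
      rw [abs_le]
      constructor <;> linarith [this.1, this.2])) hz hz0
    rw [add_zero, sub_zero] at h1
    exact h1.trans (mul_le_mul_of_nonneg_left hz hB0)
  -- second
  have k2 : ∀ z, HasDerivAt (fun z => f2 φ (s + z) - f2 φ s - f3 φ s * z) (f3 φ (s + z) - f3 φ s) z := by
    intro z
    have h1 := ((e2 z).sub_const (f2 φ s)).sub ((hasDerivAt_id z).const_mul (f3 φ s))
    rwa [mul_one] at h1
  have g2 : ∀ z, |z| ≤ X → |f2 φ (s + z) - f2 φ s - f3 φ s * z| ≤ B * X ^ 2 := by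
    intro z hz
    have h1 := mv75 k2 (C := B * X) (X := X) g3 hz hz0
    simp only [add_zero, sub_self, mul_zero, sub_zero] at h1
    have h2 := mul_le_mul_of_nonneg_left hz (mul_nonneg hB0 hX0)
    calc _ ≤ _ := h1
      _ ≤ _ := h2
      _ = _ := by ring
  -- first
  have k1 : ∀ z, HasDerivAt (fun z => deriv φ (s + z) - deriv φ s - f2 φ s * z - f3 φ s * z ^ 2 / 2)
      (f2 φ (s + z) - f2 φ s - f3 φ s * z) z := by
    intro z
    have h1 := (((e1 z).sub_const (deriv φ s)).sub ((hasDerivAt_id z).const_mul (f2 φ s))).sub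
      ((((hasDerivAt_id z).pow 2).const_mul (f3 φ s)).div_const 2)
    refine h1.congr_deriv ?_
    simp only [id]
    ring
  have g1 : ∀ z, |z| ≤ X → |deriv φ (s + z) - deriv φ s - f2 φ s * z - f3 φ s * z ^ 2 / 2| ≤ B * X ^ 3 := by
    intro z hz
    have h1 := mv75 k1 (C := B * X ^ 2) (X := X) g2 hz hz0
    have h3 : deriv φ (s + 0) - deriv φ s - f2 φ s * 0 - f3 φ s * 0 ^ 2 / 2 = 0 := by
      rw [add_zero]
      ring
    rw [h3, sub_zero, sub_zero] at h1
    have h2 := mul_le_mul_of_nonneg_left hz (mul_nonneg hB0 (pow_nonneg hX0 2))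
    calc _ ≤ _ := h1
      _ ≤ _ := h2
      _ = _ := by ring
  have k0 : ∀ z, HasDerivAt (rem φ s) (deriv φ (s + z) - deriv φ s - f2 φ s * z - f3 φ s * z ^ 2 / 2) z := by
    intro z
    have h1 := ((((e0 z).sub_const (φ s)).sub ((hasDerivAt_id z).const_mul (deriv φ s))).sub
      ((((hasDerivAt_id z).pow 2).const_mul (f2 φ s)).div_const 2)).sub
      ((((hasDerivAt_id z).pow 3).const_mul (f3 φ s)).div_const 6)
    refine h1.congr_deriv ?_
    simp only [id]
    ring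
  exact mv75 k0 (C := B * X ^ 3) (X := X) g1 hx hy

end Pool.Agent.Helper76.OV
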