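import Pool.Agent.Helper92.GC.G3

/-!
# Project OV (MP_fb29e9_nt), the octant sums for a general phase. Definitions

Notation: `ee x = exp (2 π i x)`, `dt k c = k · c`, `dd a b = a.1 b.2 - a.2 b.1`, `uu β p = p.1 + β p.2`, `tt β p = p.2 / uu β p`, `ph β p = p.2² / uu β p` (GC.Defs),
`Good P n` (GC.S1), `oct K`, `sec K Q n` (GC.G3). The phase of `k` is `R k.1 φ(k.2/k.1)`. For a vector `n = (q, a)` let `s = a/q`, `n' = cq φ n` a vector with `dd n n' = 1`,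
`b0 = n'.1/q`. For `k = h n + j n'`: `k.1 = q u`, `u = h + b0 j`, and `k.2/k.1 = s + t/q²`, `t = j/u`. Hence the phase is
`R q u φ(s + t/q²) = R q u φ(s) + R φ'(s) j/q + Rq (j²/u) (1 + kap t) + ...`, `Rq = R φ''(s)/(2 q³)`, `kap = φ'''(s)/(3 φ''(s) q²)`; the best approximation by
a phase `R' j²/(h + b j)` has `R' = Rq` and `b = bq := b0 - kap`; `n'` is chosen with `|bq| ≤ 1/2`.
-/

open MeasureTheory Real Set Filter Topology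

set_option autoImplicit false

namespace Pool.Agent.Helper76.OV

open Pool.Agent.Helper22.AE
open Pool.Agent.Helper92.GC

/-- the second derivative -/
noncomputable def f2 (φ : ℝ → ℝ) : ℝ → ℝ := deriv (deriv φ)

/-- the third derivative -/
noncomputable def f3 (φ : ℝ → ℝ) : ℝ → ℝ := deriv (f2 φ)

/-- the fourth derivative -/
noncomputable def f4 (φ : ℝ → ℝ) : ℝ → ℝ := deriv (f3 φ)

/-- the conditions on the phase -/
structure Cn (c₁ B : ℝ) (φ : ℝ → ℝ) : Prop where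
  smooth : ContDiff ℝ 4 φ
  lo : ∀ x, |x| ≤ 2 → c₁ ≤ f2 φ x
  h2 : ∀ x, |x| ≤ 2 → |f2 φ x| ≤ B
  h3 : ∀ x, |x| ≤ 2 → |f3 φ x| ≤ B
  h4 : ∀ x, |x| ≤ 2 → |f4 φ x| ≤ B

/-- the conditions on the weight -/
structure Cw (B : ℝ) (W : ℝ → ℂ) : Prop where
  wb : ∀ x, ‖W x‖ ≤ B
  wl : ∀ x y, ‖W x - W y‖ ≤ B * |x - y|

/-- the slope -/
noncomputable def sl (n : ℤ × ℤ) : ℝ := (n.2 : ℝ) / (n.1 : ℝ)

/-- the curvature parameter -/
noncomputable def Rq (φ : ℝ → ℝ) (R : ℝ) (n : ℤ × ℤ) : ℝ := R * f2 φ (sl n) / (2 * (n.1 : ℝ) ^ 3)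

/-- the cubic parameter -/
noncomputable def kap (φ : ℝ → ℝ) (n : ℤ × ℤ) : ℝ := f3 φ (sl n) / (3 * f2 φ (sl n) * (n.1 : ℝ) ^ 2)

open Classical in
/-- the complement -/
noncomputable def cq (φ : ℝ → ℝ) (n : ℤ × ℤ) : ℤ × ℤ :=
  if h : ∃ n' : ℤ × ℤ, dd n n' = 1 ∧ |(n'.1 : ℝ) / (n.1 : ℝ) - kap φ n| ≤ 1 / 2 then h.choose else 0

/-- the slope of the complement -/
noncomputable def b0 (φ : ℝ → ℝ) (n : ℤ × ℤ) : ℝ := ((cq φ n).1 : ℝ) / (n.1 : ℝ)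

/-- the second parameter -/
noncomputable def bq (φ : ℝ → ℝ) (n : ℤ × ℤ) : ℝ := b0 φ n - kap φ n

/-- the vector `h n + j n'`, `p = (h, j)` -/
noncomputable def lq (φ : ℝ → ℝ) (n p : ℤ × ℤ) : ℤ × ℤ := (p.1 * n.1 + p.2 * (cq φ n).1, p.1 * n.2 + p.2 * (cq φ n).2)

/-- the sum over `S` -/
noncomputable def os (S : Finset (ℤ × ℤ)) (K i : ℕ) (W : ℝ → ℂ) (φ : ℝ → ℝ) (R : ℝ) (c : ℝ × ℝ) : ℂ :=
  ∑ k ∈ S, (((K : ℝ) / (k.1 : ℝ) : ℝ) : ℂ) ^ i * W (sl k) * ee (R * ((k.1 : ℝ) * φ (sl k)) + dt k c)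

end Pool.Agent.Helper76.OV
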