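import Pool.Agent.Helper76.OV.C1
import Pool.Agent.Helper92.GC.E1

/-!
# OV-G1: coordinates in a sector

PROOF. `k = lq φ n p`, `q = n.1`, `P = Q/A`, `Q/(2A) < q ≤ Q/A`, `u = uu (b0 φ n) p`, `k.1 = q u` (`lq_fst`). So `u = k.1/q ≥ K/(Q/A) = K A/Q` and
`u ≤ 2K · 2A/Q`. `|p.2| = |dd n k| ≤ k.1/Q` (`IsNd`, `lq_dd`), `< 2K/Q`, and `|t| = |p.2|/u ≤ (k.1/Q)(q/k.1) = q/Q ≤ 1/A`.
-/

open MeasureTheory Real Set Filter Topology

set_option autoImplicit false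

namespace Pool.Agent.Helper76.OV

open Pool.Agent.Helper22.AE
open Pool.Agent.Helper92.GC

theorem sec_coord' (φ : ℝ → ℝ) {K Q : ℕ} {A : ℝ} {n p : ℤ × ℤ} (hA : 1 ≤ A) (hQ : 3 ≤ Q) (hn : Good (Q / A) n)
    (h1 : (K : ℤ) ≤ (lq φ n p).1) (h2 : (lq φ n p).1 < 2 * K) (hK : 1 ≤ K) (hnd : IsNd Q (lq φ n p) n) :
    K * A / Q ≤ uu (b0 φ n) p ∧ uu (b0 φ n) p ≤ 4 * (K * A / Q) ∧ |tt (b0 φ n) p| ≤ 1 / A ∧ |(p.2 : ℝ)| ≤ 2 * K / Q := by
  have hA0 : 0 < A := by linarith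
  have hQ0 : (0 : ℝ) < Q := by
    have : (3 : ℝ) ≤ Q := by exact_mod_cast hQ
    linarith
  have hn1 : 1 ≤ n.1 := hnd.1
  have hq1 : (1 : ℝ) ≤ n.1 := by exact_mod_cast hnd.1
  have hq0 : (0 : ℝ) < n.1 := by linarith
  have hK0 : (1 : ℝ) ≤ K := by exact_mod_cast hK
  have e1 : (K : ℝ) ≤ (lq φ n p).1 := by exact_mod_cast h1
  have e2 : ((lq φ n p).1 : ℝ) < 2 * K := by exact_mod_cast h2
  have hfst : ((lq φ n p).1 : ℝ) = n.1 * uu (b0 φ n) p := lq_fst φ hn1 p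
  have hd : |(p.2 : ℝ)| * Q ≤ (lq φ n p).1 := by
    have h5 := hnd.2.1
    rw [lq_dd φ hn.cop hn1] at h5
    exact_mod_cast h5
  have hq2 : (n.1 : ℝ) * A ≤ Q := by
    have := hn.hi
    rwa [le_div_iff₀ hA0] at this
  have hq3 : (Q : ℝ) < 2 * (n.1 * A) := by
    have h5 := hn.lo
    rw [div_div, div_lt_iff₀ (by positivity)] at h5
    linarith
  rw [hfst] at e1 e2 hd
  set u := uu (b0 φ n) p with hu
  set q : ℝ := (n.1 : ℝ) with hq
  have hqu : 0 < q * u := by linarith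
  have hu0 : 0 < u := by
    by_contra hc
    push Not at hc
    have : q * u ≤ 0 := mul_nonpos_of_nonneg_of_nonpos hq0.le hc
    linarith
  refine ⟨?_, ?_, ?_, ?_⟩
  · rw [div_le_iff₀ hQ0]
    calc (K : ℝ) * A ≤ (q * u) * A := mul_le_mul_of_nonneg_right e1 hA0.le
      _ = u * (q * A) := by ring
      _ ≤ u * Q := mul_le_mul_of_nonneg_left hq2 hu0.le
  · rw [mul_div_assoc', le_div_iff₀ hQ0]
    calc u * Q ≤ u * (2 * (q * A)) := mul_le_mul_of_nonneg_left hq3.le hu0.le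
      _ = 2 * A * (q * u) := by ring
      _ ≤ 2 * A * (2 * K) := mul_le_mul_of_nonneg_left e2.le (by positivity)
      _ = 4 * (K * A) := by ring
  · unfold tt
    rw [← hu, abs_div, abs_of_pos hu0, div_le_div_iff₀ hu0 hA0]
    have h6 : |(p.2 : ℝ)| * A * Q ≤ 1 * u * Q := by
      calc |(p.2 : ℝ)| * A * Q = A * (|(p.2 : ℝ)| * Q) := by ring
        _ ≤ A * (q * u) := mul_le_mul_of_nonneg_left hd hA0.le
        _ = u * (q * A) := by ring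
        _ ≤ u * Q := mul_le_mul_of_nonneg_left hq2 hu0.le
        _ = 1 * u * Q := by ring
    exact le_of_mul_le_mul_right h6 hQ0
  · rw [le_div_iff₀ hQ0]
    linarith

end Pool.Agent.Helper76.OV
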