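import Pool.Agent.Helper76.OV.C1
import Pool.Agent.Helper76.OV.T1
import Pool.Agent.Helper92.GC.R4

/-!
# OV-G2: local constancy

PROOF of `local_const'` (compare GC.G2 `local_const`). `q = n.1`, `P = Q/A`, `P/2 < q ≤ P`, `s = sl n ∈ [0, 1]`, `β = b0 φ n`, `κ = kap φ n`, `r = Rq φ R n`, `γ = b - β`, so
`κ + γ = b - bq φ n`, `|κ + γ| ≤ 1/(QA)`. For `p ∈ S`: `u = uu β p > 0`, `t = tt β p`, `j = p.2 = t u`, `T = 1/A`, `|t| ≤ T`, `U = 4 K A/Q`. `A ≤ Q` (as `A⁴ ≤ Q³ ≤ Q⁴`).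
`|κ| ≤ B/(3 c₁ q²) ≤ (4B/(3c₁)) A²/Q²` (`kap_le`), so `|κ| T ≤ (4B/(3c₁)) A/Q² ≤ 4B/(3 c₁ Q) ≤ 1/9` and `|κ + γ| T ≤ 1/(Q A²) ≤ 1/8`, `|γ| T ≤ 1/4`.
`k = lq φ n p`: `k.1 = q u` (`lq_fst`), `sl k = s + t/q²` (`lq_sl`), so with `rem` of T1:
`k.1 φ(sl k) = q u (φ s + φ' s t/q² + f2 t²/(2q⁴) + f3 t³/(6q⁶) + rem φ s (t/q²))`. `uu b p = u (1 + γ t)`, `ph b p = u t²/(1 + γ t)`, `t²/(1+γt) = t² - γ t³ + γ² t⁴/(1 + γ t)`,
`R f2/(2q³) = r`, `R f3/(6 q⁵) = r κ`. Hence `R k.1 φ(sl k) = dt p c₀ + R' ph b p + u χ(t)` with `c₀ = (R q φ s, R q φ s β + R φ' s/q)` and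
`χ(t) = R q rem φ s (t/q²) + (r - R') (t² + κ t³) + R' (κ + γ) t³ - R' γ² t⁴/(1 + γ t)`.
Take `b' p = ee (u χ(t))`; `mul_exp` with `[t₁, t₂] = [-T, T]`. As `χ 0 = 0` it is enough that `|χ x - χ y| ≤ L |x - y|` on `[-T, T]` with `L · 2T · U = 8 L K/Q ≤ M`, a constant of `C₀, c₁, B`.
`R/Q⁴ ≤ C₀ Q/K`, `A Q/K ≤ C₀ R A/Q⁴ ≤ C₀ R A³/Q³`, `0 < r ≤ B R/(2q³) ≤ 4 B R A³/Q³`, so `|R'| ≤ (4B + C₀) R A³/Q³`.
(1) `rem_lip` with `X = T/q²` (`≤ 1`): `R q B T³ q⁻⁶ q⁻² = R B A⁻³ q⁻⁷ ≤ 128 B R A⁴/Q⁷ ≤ 128 B R/Q⁴ ≤ 128 B C₀ Q/K`.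
(2) `|r - R'| (2T + 3 |κ| T²) ≤ (A Q/K)(3T) = 3 Q/K`.
(3) `|R'| |κ + γ| 3 T² ≤ 3 (4B + C₀)(R A³/Q³)(1/(QA)) A⁻² = 3 (4B + C₀) R/Q⁴ ≤ 3 (4B + C₀) C₀ Q/K`.
(4) `t⁴/(1 + γ t)` has Lipschitz constant at most `10 T³` on `[-T, T]` (as `|γ| T ≤ 1/4`; algebraically as `cub57` in GC.G2:
`x⁴/(1+γx) - y⁴/(1+γy) = (x - y) (x³ + x²y + x y² + y³ + γ x y (x² + x y + y²))/((1+γx)(1+γy))`, at most `(4 + 3/4) T³ (16/9)`), and
`γ² ≤ 2 κ² + 2 (κ+γ)² ≤ (4 (B/c₁)² + 2)/Q` (`κ² ≤ 2 (B/c₁)² A⁴/Q⁴ ≤ 2 (B/c₁)²/Q`; `(κ+γ)² ≤ 1/Q²`), so the constant is at most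
`10 (4B + C₀)(R A³/Q³)(4 (B/c₁)² + 2)(1/Q) A⁻³ = 10 (4B + C₀)(4 (B/c₁)² + 2) R/Q⁴`.
PROOF of `weight_mul'` (compare `weight_mul`). `K/k.1 = K/(q u)` is the product with `m(x) = K/(q x)` on `[KA/Q, 4KA/Q]`: at the left end `Q/(qA) ≤ 2`, Lipschitz constant `2 Q/(K A)`:
`mul_lip` with `cut_u` gives `2 + 14 (2 Q/(KA)) 3KA/Q = 86`. `W(sl k) = W(s + t/q²)`: `m(t) = W(s + t/q²)` on `[-1/A, 1/A]`, value at most `B`, Lipschitz constant `B/q² ≤ B`: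
`mul_lip` with `cut_t` gives `B + 14 B 2 = 29 B`. Then `mul_comp`.
-/

open MeasureTheory Real Set Filter Topology

set_option autoImplicit false

namespace Pool.Agent.Helper76.OV

open Pool.Agent.Helper22.AE
open Pool.Agent.Helper92.GC

/-- the quadratic part -/
private lemma sq32 {x y T : ℝ} (hx : |x| ≤ T) (hy : |y| ≤ T) : |x ^ 2 - y ^ 2| ≤ 2 * T * |x - y| := by
  have h1 : x ^ 2 - y ^ 2 = (x + y) * (x - y) := by ring
  rw [h1, abs_mul]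
  have h2 := abs_add_le x y
  exact mul_le_mul_of_nonneg_right (by linarith) (abs_nonneg _)

/-- the cubic part -/
private lemma cu32 {x y T : ℝ} (hx : |x| ≤ T) (hy : |y| ≤ T) : |x ^ 3 - y ^ 3| ≤ 3 * T ^ 2 * |x - y| := by
  have hT : 0 ≤ T := (abs_nonneg x).trans hx
  have h1 : x ^ 3 - y ^ 3 = (x ^ 2 + x * y + y ^ 2) * (x - y) := by ring
  rw [h1, abs_mul]
  refine mul_le_mul_of_nonneg_right ?_ (abs_nonneg _)
  have hxx : x ^ 2 ≤ T ^ 2 := sq_le_sq' (by linarith [(abs_le.1 hx).1]) (abs_le.1 hx).2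
  have hyy : y ^ 2 ≤ T ^ 2 := sq_le_sq' (by linarith [(abs_le.1 hy).1]) (abs_le.1 hy).2
  rw [abs_le]
  constructor
  · linarith [sq_nonneg (x + y), sq_nonneg x, sq_nonneg y, sq_nonneg T]
  · linarith [sq_nonneg (x - y)]

/-- the quartic part -/
private lemma qu32 {x y T γ : ℝ} (hx : |x| ≤ T) (hy : |y| ≤ T) (hgx : |γ * x| ≤ 1 / 4)
    (hgy : |γ * y| ≤ 1 / 4) :
    |x ^ 4 / (1 + γ * x) - y ^ 4 / (1 + γ * y)| ≤ 10 * T ^ 3 * |x - y| := by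
  have hT : 0 ≤ T := (abs_nonneg x).trans hx
  have h1 : 3 / 4 ≤ 1 + γ * x := by linarith [(abs_le.1 hgx).1]
  have h2 : 3 / 4 ≤ 1 + γ * y := by linarith [(abs_le.1 hgy).1]
  have e1 : x ^ 4 / (1 + γ * x) - y ^ 4 / (1 + γ * y) =
      (((x + y) * (x ^ 2 + y ^ 2) + (γ * x) * (y * (x ^ 2 + x * y + y ^ 2))) /
        ((1 + γ * x) * (1 + γ * y))) * (x - y) := by
    have h3 : 1 + γ * x ≠ 0 := by linarith
    have h4 : 1 + γ * y ≠ 0 := by linarith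
    rw [div_sub_div _ _ h3 h4, div_mul_eq_mul_div]
    congr 1
    ring
  rw [e1, abs_mul]
  refine mul_le_mul_of_nonneg_right ?_ (abs_nonneg _)
  have hD : (9 : ℝ) / 16 ≤ (1 + γ * x) * (1 + γ * y) := by
    have h := mul_le_mul h1 h2 (by norm_num) (by linarith)
    linarith
  rw [abs_div, abs_of_pos (by linarith : 0 < (1 + γ * x) * (1 + γ * y)),
    div_le_iff₀ (by linarith : 0 < (1 + γ * x) * (1 + γ * y))]
  have hxx : x ^ 2 ≤ T ^ 2 := sq_le_sq' (by linarith [(abs_le.1 hx).1]) (abs_le.1 hx).2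
  have hyy : y ^ 2 ≤ T ^ 2 := sq_le_sq' (by linarith [(abs_le.1 hy).1]) (abs_le.1 hy).2
  have h5 : |x + y| ≤ 2 * T := (abs_add_le x y).trans (by linarith)
  have h6 : |(x + y) * (x ^ 2 + y ^ 2)| ≤ 2 * T * (2 * T ^ 2) := by
    rw [abs_mul, abs_of_nonneg (by positivity : 0 ≤ x ^ 2 + y ^ 2)]
    exact mul_le_mul h5 (by linarith) (by positivity) (by positivity)
  have h7 : |x ^ 2 + x * y + y ^ 2| ≤ 3 * T ^ 2 := by
    rw [abs_le]
    constructor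
    · linarith [sq_nonneg (x + y), sq_nonneg x, sq_nonneg y, sq_nonneg T]
    · linarith [sq_nonneg (x - y)]
  have h8 : |(γ * x) * (y * (x ^ 2 + x * y + y ^ 2))| ≤ 1 / 4 * (T * (3 * T ^ 2)) := by
    rw [abs_mul, abs_mul y]
    exact mul_le_mul hgx (mul_le_mul hy h7 (abs_nonneg _) hT) (by positivity) (by norm_num)
  have h9 := abs_add_le ((x + y) * (x ^ 2 + y ^ 2)) ((γ * x) * (y * (x ^ 2 + x * y + y ^ 2)))
  have h10 : 10 * T ^ 3 * (9 / 16) ≤ 10 * T ^ 3 * ((1 + γ * x) * (1 + γ * y)) :=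
    mul_le_mul_of_nonneg_left hD (by positivity)
  have h11 : 0 ≤ T ^ 3 := by positivity
  linarith

theorem local_const' {c₁ B : ℝ} (hc : 0 < c₁) (hB : 1 ≤ B) (C₀ : ℝ) : ∃ C : ℝ, 0 < C ∧ ∀ φ : ℝ → ℝ, Cn c₁ B φ →
    ∀ (K Q : ℕ) (A R R' b : ℝ) (n : ℤ × ℤ), 1 ≤ K → 8 ≤ Q → 1 ≤ A → 12 * B ≤ c₁ * Q →
    A ^ 4 ≤ (Q : ℝ) ^ 3 → 0 < R → R * K ≤ C₀ * (Q : ℝ) ^ 5 → (Q : ℝ) ^ 5 ≤ C₀ * (R * K) → Good (Q / A) n → 1 ≤ n.1 →
    |Rq φ R n - R'| ≤ A * Q / K → |bq φ n - b| ≤ 1 / (Q * A) → ∀ S : Finset (ℤ × ℤ),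
      (∀ p ∈ S, 0 < uu (b0 φ n) p ∧ uu (b0 φ n) p ≤ 4 * (K * A / Q) ∧ |tt (b0 φ n) p| ≤ 1 / A) →
        ∃ c₀ : ℝ × ℝ, ∃ b' : ℤ × ℤ → ℂ, IsMul S b' C ∧
          ∀ p ∈ S, ee (R * (((lq φ n p).1 : ℝ) * φ (sl (lq φ n p)))) = ee (dt p c₀) * ee (R' * ph b p) * b' p := by
  have hB0 : 0 < B := by linarith
  obtain ⟨D, hD⟩ : ∃ D : ℝ, D = 4 * (B / c₁) ^ 2 + 2 := ⟨_, rfl⟩
  have hD0 : 0 < D := by
    rw [hD]
    positivity
  refine ⟨exp (1320 * (8 * (128 * B * C₀ + 3 + 3 * (4 * B + C₀) * C₀ + 10 * (4 * B + C₀) * D * C₀))), exp_pos _, ?_⟩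
  intro φ hφ K Q A R R' b n hK hQ hA h12 hAQ hR h1 h2 hn hq1 hRR hbb S hS
  have hKr : (1 : ℝ) ≤ K := by exact_mod_cast hK
  have hQr : (8 : ℝ) ≤ Q := by exact_mod_cast hQ
  have hK0 : (0 : ℝ) < K := by linarith
  have hQ0 : (0 : ℝ) < Q := by linarith
  have hA0 : 0 < A := by linarith
  have hC₀ : 0 < C₀ := by
    by_contra hcon
    push Not at hcon
    have h3 : C₀ * (Q : ℝ) ^ 5 ≤ 0 := mul_nonpos_of_nonpos_of_nonneg hcon (by positivity)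
    have h4 : 0 < R * K := by positivity
    linarith
  have hAQ' : A ≤ Q := by
    by_contra hcon
    push Not at hcon
    have h3 : (Q : ℝ) ^ 4 < A ^ 4 := pow_lt_pow_left₀ hcon hQ0.le (by norm_num)
    have h4 : (Q : ℝ) ^ 3 ≤ (Q : ℝ) ^ 4 := pow_le_pow_right₀ (by linarith) (by norm_num)
    linarith
  have hP : 0 < (Q : ℝ) / A := by positivity
  obtain ⟨q, hq⟩ : ∃ q : ℝ, q = (n.1 : ℝ) := ⟨_, rfl⟩
  have hq1' : 1 ≤ q := by
    rw [hq]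
    exact_mod_cast hq1
  have hq0 : 0 < q := by linarith
  have hqP : (Q : ℝ) / A / 2 ≤ q := by
    rw [hq]
    exact hn.lo.le
  obtain ⟨s, hs⟩ : ∃ s : ℝ, s = sl n := ⟨_, rfl⟩
  obtain ⟨β, hβ⟩ : ∃ β : ℝ, β = b0 φ n := ⟨_, rfl⟩
  obtain ⟨κ, hκ⟩ : ∃ κ : ℝ, κ = kap φ n := ⟨_, rfl⟩
  obtain ⟨r, hr⟩ : ∃ r : ℝ, r = Rq φ R n := ⟨_, rfl⟩
  obtain ⟨γ, hγ⟩ : ∃ γ : ℝ, γ = b - β := ⟨_, rfl⟩
  obtain ⟨δ, hδ⟩ : ∃ δ : ℝ, δ = κ + γ := ⟨_, rfl⟩
  have hs01 : 0 ≤ s ∧ s ≤ 1 := by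
    rw [hs]
    exact sl_range hn.nonneg hn.le
  have hs2 : |s| ≤ 2 := by
    rw [abs_le]
    constructor <;> linarith [hs01.1, hs01.2]
  obtain ⟨F2, hF2⟩ : ∃ F2 : ℝ, F2 = f2 φ s := ⟨_, rfl⟩
  obtain ⟨F3, hF3⟩ : ∃ F3 : ℝ, F3 = f3 φ s := ⟨_, rfl⟩
  have hF2c : c₁ ≤ F2 := by
    rw [hF2]
    exact hφ.lo s hs2
  have hF2B : F2 ≤ B := by
    rw [hF2]
    exact (le_abs_self _).trans (hφ.h2 s hs2)
  have hF20 : 0 < F2 := by linarith
  have hrv : r = R * F2 / (2 * q ^ 3) := by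
    rw [hr, hF2, hs, hq]
    rfl
  have hκv : κ = F3 / (3 * F2 * q ^ 2) := by
    rw [hκ, hF2, hF3, hs, hq]
    rfl
  have hκ1 : |κ| ≤ B / (3 * c₁ * q ^ 2) := by
    rw [hκ, hq]
    exact kap_le hc hφ hq1 hn.nonneg hn.le
  have hκ2 : |κ| ≤ 4 / 3 * (B / c₁) * (A ^ 2 / (Q : ℝ) ^ 2) := by
    refine hκ1.trans ?_
    have h3 : ((Q : ℝ) / A / 2) ^ 2 ≤ q ^ 2 := pow_le_pow_left₀ (by positivity) hqP 2
    calc B / (3 * c₁ * q ^ 2) ≤ B / (3 * c₁ * ((Q : ℝ) / A / 2) ^ 2) :=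
          div_le_div_of_nonneg_left hB0.le (by positivity) (mul_le_mul_of_nonneg_left h3 (by positivity))
      _ = 4 / 3 * (B / c₁) * (A ^ 2 / (Q : ℝ) ^ 2) := by
          field_simp
          ring
  have hδ1 : |δ| ≤ 1 / (Q * A) := by
    have e1 : δ = b - bq φ n := by
      rw [hδ, hγ, hκ, hβ]
      unfold bq
      ring
    rw [e1, abs_sub_comm]
    exact hbb
  have hT0 : 0 < 1 / A := by positivity
  have hT1 : 1 / A ≤ 1 := by
    rw [div_le_one hA0]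
    exact hA
  have hκT : |κ| * (1 / A) ≤ 1 / 9 := by
    calc |κ| * (1 / A) ≤ 4 / 3 * (B / c₁) * (A ^ 2 / (Q : ℝ) ^ 2) * (1 / A) :=
          mul_le_mul_of_nonneg_right hκ2 hT0.le
      _ = 4 / 3 * (B / (c₁ * Q)) * (A / Q) := by
          field_simp
      _ ≤ 4 / 3 * (1 / 12) * 1 := by
          refine mul_le_mul (mul_le_mul_of_nonneg_left ?_ (by norm_num)) ?_ (by positivity) (by norm_num)
          · rw [div_le_div_iff₀ (by positivity) (by norm_num)]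
            linarith
          · rw [div_le_one hQ0]
            exact hAQ'
      _ = 1 / 9 := by norm_num
  have hδT : |δ| * (1 / A) ≤ 1 / 8 := by
    calc |δ| * (1 / A) ≤ 1 / (Q * A) * (1 / A) := mul_le_mul_of_nonneg_right hδ1 hT0.le
      _ = 1 / (Q * A ^ 2) := by
          field_simp
      _ ≤ 1 / 8 := by
          rw [div_le_div_iff₀ (by positivity) (by norm_num)]
          have : (8 : ℝ) * 1 ≤ Q * A ^ 2 := mul_le_mul hQr (one_le_pow₀ hA) (by norm_num) (by positivity)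
          linarith
  have hγδ : γ = δ - κ := by
    rw [hδ]
    ring
  have hγT : ∀ t : ℝ, |t| ≤ 1 / A → |γ * t| ≤ 1 / 4 := by
    intro t ht
    have h3 : |γ| ≤ |δ| + |κ| := by
      rw [hγδ]
      exact abs_sub _ _
    rw [abs_mul]
    have h4 : |γ| * |t| ≤ (|δ| + |κ|) * (1 / A) := mul_le_mul h3 ht (abs_nonneg _) (by positivity)
    have h5 : (|δ| + |κ|) * (1 / A) = |δ| * (1 / A) + |κ| * (1 / A) := by ring
    linarith
  have hγ2 : γ ^ 2 ≤ D / Q := by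
    have h3 : κ ^ 2 ≤ 2 * (B / c₁) ^ 2 / Q := by
      have h4 : κ ^ 2 ≤ (4 / 3 * (B / c₁) * (A ^ 2 / (Q : ℝ) ^ 2)) ^ 2 := by
        rw [← sq_abs κ]
        exact pow_le_pow_left₀ (abs_nonneg _) hκ2 2
      refine h4.trans ?_
      calc (4 / 3 * (B / c₁) * (A ^ 2 / (Q : ℝ) ^ 2)) ^ 2 = 16 / 9 * (B / c₁) ^ 2 * (A ^ 4 / (Q : ℝ) ^ 3) * (1 / Q) := by
            field_simp
            ring
        _ ≤ 16 / 9 * (B / c₁) ^ 2 * 1 * (1 / Q) := by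
            refine mul_le_mul_of_nonneg_right (mul_le_mul_of_nonneg_left ?_ (by positivity)) (by positivity)
            rw [div_le_one (by positivity)]
            exact hAQ
        _ ≤ 2 * (B / c₁) ^ 2 * 1 * (1 / Q) := by
            refine mul_le_mul_of_nonneg_right ?_ (by positivity)
            linarith [sq_nonneg (B / c₁)]
        _ = 2 * (B / c₁) ^ 2 / Q := by ring
    have h5 : δ ^ 2 ≤ 1 / Q := by
      have h6 : δ ^ 2 ≤ (1 / (Q * A)) ^ 2 := by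
        rw [← sq_abs δ]
        exact pow_le_pow_left₀ (abs_nonneg _) hδ1 2
      refine h6.trans ?_
      have h7 : 1 / (Q * A) ≤ 1 / (Q : ℝ) := by
        exact div_le_div_of_nonneg_left (by norm_num) hQ0 (le_mul_of_one_le_right hQ0.le hA)
      have h8 : 1 / (Q : ℝ) ≤ 1 := by
        rw [div_le_one hQ0]
        linarith
      calc (1 / (Q * A)) ^ 2 = 1 / (Q * A) * (1 / (Q * A)) := by ring
        _ ≤ 1 / (Q : ℝ) * 1 := mul_le_mul h7 (h7.trans h8) (by positivity) (by positivity)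
        _ = 1 / Q := by ring
    have h9 : γ ^ 2 ≤ 2 * κ ^ 2 + 2 * δ ^ 2 := by
      rw [hγδ]
      linarith [sq_nonneg (δ + κ)]
    have h10 : D / Q = 2 * (2 * (B / c₁) ^ 2 / Q) + 2 * (1 / Q) := by
      rw [hD]
      ring
    rw [h10]
    linarith
  obtain ⟨χ, hχ⟩ : ∃ χ : ℝ → ℝ, ∀ t, χ t = R * q * rem φ s (t / q ^ 2) + (r - R') * (t ^ 2 + κ * t ^ 3) +
      R' * δ * t ^ 3 - R' * γ ^ 2 * (t ^ 4 / (1 + γ * t)) := ⟨_, fun _ => rfl⟩
  -- the size of the parameter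
  have hQK : (Q : ℝ) / K ≤ C₀ * R / (Q : ℝ) ^ 4 := by
    rw [div_le_div_iff₀ hK0 (by positivity)]
    calc (Q : ℝ) * (Q : ℝ) ^ 4 = (Q : ℝ) ^ 5 := by ring
      _ ≤ C₀ * (R * K) := h2
      _ = C₀ * R * K := by ring
  have hRQ : R / (Q : ℝ) ^ 4 ≤ C₀ * Q / K := by
    rw [div_le_div_iff₀ (by positivity) hK0]
    calc R * K ≤ C₀ * (Q : ℝ) ^ 5 := h1
      _ = C₀ * Q * (Q : ℝ) ^ 4 := by ring
  have hR' : |R'| ≤ (4 * B + C₀) * (R * A ^ 3 / (Q : ℝ) ^ 3) := by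
    have h3 : r ≤ 4 * B * (R * A ^ 3 / (Q : ℝ) ^ 3) := by
      rw [hrv]
      have h4 : ((Q : ℝ) / A / 2) ^ 3 ≤ q ^ 3 := pow_le_pow_left₀ (by positivity) hqP 3
      calc R * F2 / (2 * q ^ 3) ≤ R * B / (2 * ((Q : ℝ) / A / 2) ^ 3) :=
            div_le_div₀ (by positivity) (mul_le_mul_of_nonneg_left hF2B hR.le) (by positivity) (by linarith)
        _ = 4 * B * (R * A ^ 3 / (Q : ℝ) ^ 3) := by
            field_simp
            ring
    have h4 : 0 < r := by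
      rw [hrv]
      positivity
    have h5 : A * Q / K ≤ C₀ * (R * A ^ 3 / (Q : ℝ) ^ 3) := by
      calc A * Q / K = A * ((Q : ℝ) / K) := by ring
        _ ≤ A * (C₀ * R / (Q : ℝ) ^ 4) := mul_le_mul_of_nonneg_left hQK hA0.le
        _ = C₀ * R / (Q : ℝ) ^ 3 * (A * (1 / Q)) := by
            field_simp
        _ ≤ C₀ * R / (Q : ℝ) ^ 3 * (A ^ 3 * 1) := by
            refine mul_le_mul_of_nonneg_left (mul_le_mul ?_ ?_ (by positivity) (by positivity)) (by positivity)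
            · calc A = A ^ 1 := (pow_one A).symm
                _ ≤ A ^ 3 := pow_le_pow_right₀ hA (by norm_num)
            · rw [div_le_one hQ0]
              linarith
        _ = C₀ * (R * A ^ 3 / (Q : ℝ) ^ 3) := by ring
    have hRR' : |r - R'| ≤ A * Q / K := by
      rw [hr]
      exact hRR
    have h6 : |R'| ≤ |r| + |r - R'| := by
      have := abs_sub_abs_le_abs_sub R' r
      rw [abs_sub_comm R' r] at this
      linarith
    rw [abs_of_pos h4] at h6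
    have h7 : (4 * B + C₀) * (R * A ^ 3 / (Q : ℝ) ^ 3) =
        4 * B * (R * A ^ 3 / (Q : ℝ) ^ 3) + C₀ * (R * A ^ 3 / (Q : ℝ) ^ 3) := by ring
    linarith
  have hRR' : |r - R'| ≤ A * Q / K := by
    rw [hr]
    exact hRR
  obtain ⟨M, hM⟩ : ∃ M : ℝ, M = 128 * B * C₀ + 3 + 3 * (4 * B + C₀) * C₀ + 10 * (4 * B + C₀) * D * C₀ := ⟨_, rfl⟩
  have hM0 : 0 < M := by
    rw [hM]
    positivity
  have hX1 : 1 / A / q ^ 2 ≤ 1 := by
    rw [div_le_one (by positivity)]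
    have : 1 ≤ q ^ 2 := one_le_pow₀ hq1'
    linarith
  -- the Lipschitz bound
  have hLip : ∀ x y : ℝ, |x| ≤ 1 / A → |y| ≤ 1 / A → |χ x - χ y| ≤ M * (Q / K) * |x - y| := by
    intro x y hx' hy'
    have hd : 0 ≤ |x - y| := abs_nonneg _
    have hxq : |x / q ^ 2| ≤ 1 / A / q ^ 2 := by
      rw [abs_div, abs_of_pos (by positivity : 0 < q ^ 2)]
      exact div_le_div_of_nonneg_right hx' (by positivity)
    have hyq : |y / q ^ 2| ≤ 1 / A / q ^ 2 := by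
      rw [abs_div, abs_of_pos (by positivity : 0 < q ^ 2)]
      exact div_le_div_of_nonneg_right hy' (by positivity)
    have k1 := rem_lip hφ hs01.1 hs01.2 hX1 hxq hyq
    have k2 := sq32 hx' hy'
    have k3 := cu32 hx' hy'
    have k4 := qu32 hx' hy' (hγT x hx') (hγT y hy')
    have e1 : χ x - χ y = R * q * (rem φ s (x / q ^ 2) - rem φ s (y / q ^ 2)) +
        (r - R') * ((x ^ 2 - y ^ 2) + κ * (x ^ 3 - y ^ 3)) + R' * δ * (x ^ 3 - y ^ 3) -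
        R' * γ ^ 2 * (x ^ 4 / (1 + γ * x) - y ^ 4 / (1 + γ * y)) := by
      rw [hχ, hχ]
      ring
    have m1 : |R * q * (rem φ s (x / q ^ 2) - rem φ s (y / q ^ 2))| ≤ 128 * B * C₀ * (Q / K) * |x - y| := by
      have e2 : x / q ^ 2 - y / q ^ 2 = (x - y) / q ^ 2 := (sub_div _ _ _).symm
      rw [e2, abs_div, abs_of_pos (by positivity : 0 < q ^ 2)] at k1
      rw [abs_mul, abs_of_pos (by positivity : 0 < R * q)]
      have h7 : ((Q : ℝ) / A / 2) ^ 7 ≤ q ^ 7 := pow_le_pow_left₀ (by positivity) hqP 7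
      have h8 : R * B / (A ^ 3 * q ^ 7) ≤ 128 * B * C₀ * (Q / K) := by
        calc R * B / (A ^ 3 * q ^ 7) ≤ R * B / (A ^ 3 * ((Q : ℝ) / A / 2) ^ 7) :=
              div_le_div_of_nonneg_left (by positivity) (by positivity)
                (mul_le_mul_of_nonneg_left h7 (by positivity))
          _ = 128 * B * (R / (Q : ℝ) ^ 4) * (A ^ 4 / (Q : ℝ) ^ 3) := by
              field_simp
              ring
          _ ≤ 128 * B * (C₀ * Q / K) * 1 := by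
              refine mul_le_mul (mul_le_mul_of_nonneg_left hRQ (by positivity)) ?_ (by positivity) (by positivity)
              rw [div_le_one (by positivity)]
              exact hAQ
          _ = 128 * B * C₀ * (Q / K) := by ring
      calc R * q * |rem φ s (x / q ^ 2) - rem φ s (y / q ^ 2)| ≤
            R * q * (B * (1 / A / q ^ 2) ^ 3 * (|x - y| / q ^ 2)) := mul_le_mul_of_nonneg_left k1 (by positivity)
        _ = R * B / (A ^ 3 * q ^ 7) * |x - y| := by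
            field_simp
        _ ≤ _ := mul_le_mul_of_nonneg_right h8 hd
    have m2 : |(r - R') * ((x ^ 2 - y ^ 2) + κ * (x ^ 3 - y ^ 3))| ≤ 3 * (Q / K) * |x - y| := by
      rw [abs_mul]
      have h7 : |(x ^ 2 - y ^ 2) + κ * (x ^ 3 - y ^ 3)| ≤ 3 * (1 / A) * |x - y| := by
        have h8 := abs_add_le (x ^ 2 - y ^ 2) (κ * (x ^ 3 - y ^ 3))
        rw [abs_mul κ] at h8
        have h9 : |κ| * |x ^ 3 - y ^ 3| ≤ |κ| * (3 * (1 / A) ^ 2 * |x - y|) :=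
          mul_le_mul_of_nonneg_left k3 (abs_nonneg _)
        have h10 : |κ| * (3 * (1 / A) ^ 2 * |x - y|) = (|κ| * (1 / A)) * (3 * (1 / A) * |x - y|) := by ring
        have h11 : (|κ| * (1 / A)) * (3 * (1 / A) * |x - y|) ≤ 1 / 9 * (3 * (1 / A) * |x - y|) :=
          mul_le_mul_of_nonneg_right hκT (by positivity)
        have h12 : 0 ≤ 1 / A * |x - y| := by positivity
        linarith
      calc |r - R'| * |(x ^ 2 - y ^ 2) + κ * (x ^ 3 - y ^ 3)| ≤ A * Q / K * (3 * (1 / A) * |x - y|) :=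
            mul_le_mul hRR' h7 (abs_nonneg _) (by positivity)
        _ = 3 * (Q / K) * |x - y| := by
            field_simp
    have m3 : |R' * δ * (x ^ 3 - y ^ 3)| ≤ 3 * (4 * B + C₀) * C₀ * (Q / K) * |x - y| := by
      rw [abs_mul, abs_mul R' δ]
      calc |R'| * |δ| * |x ^ 3 - y ^ 3| ≤
            (4 * B + C₀) * (R * A ^ 3 / (Q : ℝ) ^ 3) * (1 / (Q * A)) * (3 * (1 / A) ^ 2 * |x - y|) :=
            mul_le_mul (mul_le_mul hR' hδ1 (abs_nonneg _) (by positivity)) k3 (abs_nonneg _) (by positivity)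
        _ = 3 * (4 * B + C₀) * (R / (Q : ℝ) ^ 4) * |x - y| := by
            field_simp
        _ ≤ 3 * (4 * B + C₀) * (C₀ * Q / K) * |x - y| :=
            mul_le_mul_of_nonneg_right (mul_le_mul_of_nonneg_left hRQ (by positivity)) hd
        _ = _ := by ring
    have m4 : |R' * γ ^ 2 * (x ^ 4 / (1 + γ * x) - y ^ 4 / (1 + γ * y))| ≤
        10 * (4 * B + C₀) * D * C₀ * (Q / K) * |x - y| := by
      rw [abs_mul, abs_mul R', abs_of_nonneg (sq_nonneg γ)]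
      calc |R'| * γ ^ 2 * |x ^ 4 / (1 + γ * x) - y ^ 4 / (1 + γ * y)| ≤
            (4 * B + C₀) * (R * A ^ 3 / (Q : ℝ) ^ 3) * (D / Q) * (10 * (1 / A) ^ 3 * |x - y|) :=
            mul_le_mul (mul_le_mul hR' hγ2 (sq_nonneg _) (by positivity)) k4 (abs_nonneg _) (by positivity)
        _ = 10 * (4 * B + C₀) * D * (R / (Q : ℝ) ^ 4) * |x - y| := by
            field_simp
        _ ≤ 10 * (4 * B + C₀) * D * (C₀ * Q / K) * |x - y| :=
            mul_le_mul_of_nonneg_right (mul_le_mul_of_nonneg_left hRQ (by positivity)) hd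
        _ = _ := by ring
    rw [e1]
    have a1 := abs_sub (R * q * (rem φ s (x / q ^ 2) - rem φ s (y / q ^ 2)) +
        (r - R') * ((x ^ 2 - y ^ 2) + κ * (x ^ 3 - y ^ 3)) + R' * δ * (x ^ 3 - y ^ 3))
        (R' * γ ^ 2 * (x ^ 4 / (1 + γ * x) - y ^ 4 / (1 + γ * y)))
    have a2 := abs_add_le (R * q * (rem φ s (x / q ^ 2) - rem φ s (y / q ^ 2)) +
        (r - R') * ((x ^ 2 - y ^ 2) + κ * (x ^ 3 - y ^ 3))) (R' * δ * (x ^ 3 - y ^ 3))
    have a3 := abs_add_le (R * q * (rem φ s (x / q ^ 2) - rem φ s (y / q ^ 2)))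
        ((r - R') * ((x ^ 2 - y ^ 2) + κ * (x ^ 3 - y ^ 3)))
    have e3 : M * (Q / K) * |x - y| = 128 * B * C₀ * (Q / K) * |x - y| + 3 * (Q / K) * |x - y| +
        3 * (4 * B + C₀) * C₀ * (Q / K) * |x - y| + 10 * (4 * B + C₀) * D * C₀ * (Q / K) * |x - y| := by
      rw [hM]
      ring
    rw [e3]
    linarith
  have hχ0 : χ 0 = 0 := by
    rw [hχ, zero_div, rem_zero]
    ring
  have hU : (0 : ℝ) < 4 * (K * A / Q) := by positivity
  have hUM : 8 * M / (4 * (K * A / Q)) = M * (Q / K) * (2 * (1 / A)) := by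
    field_simp
    ring
  have hmul := mul_exp (S := S) (β := β) (U := 4 * (K * A / Q)) hU (t₁ := -(1 / A)) (t₂ := 1 / A)
    (B := 8 * M) (by linarith)
    (fun k hk => by
      obtain ⟨a1, a2, a3⟩ := hS k hk
      rw [abs_le] at a3
      rw [hβ]
      exact ⟨a1, a2, a3.1, a3.2⟩) (χ := χ)
    (fun t ht => by
      have h3 := hLip t 0 (abs_le.2 ht) (by rw [abs_zero]; exact hT0.le)
      rw [hχ0, sub_zero, sub_zero] at h3
      have h4 : |t| ≤ 1 / A := abs_le.2 ht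
      rw [hUM]
      have h5 : M * (Q / K) * |t| ≤ M * (Q / K) * (2 * (1 / A)) :=
        mul_le_mul_of_nonneg_left (by linarith) (by positivity)
      linarith)
    (fun x hx y hy => by
      have h3 := hLip x y (abs_le.2 hx) (abs_le.2 hy)
      rw [hUM]
      have e2 : 1 / A - -(1 / A) = 2 * (1 / A) := by ring
      rw [e2]
      calc |χ x - χ y| * (2 * (1 / A)) ≤ (M * (Q / K) * |x - y|) * (2 * (1 / A)) :=
            mul_le_mul_of_nonneg_right h3 (by positivity)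
        _ = _ := by ring)
  rw [← hM]
  refine ⟨(R * q * φ s, R * q * φ s * β + R * deriv φ s / q), fun p => ee (uu β p * χ (tt β p)), hmul, ?_⟩
  intro p hp
  obtain ⟨a1, a2, a3⟩ := hS p hp
  have hk1 : ((lq φ n p).1 : ℝ) = q * uu β p := by
    rw [hq, hβ]
    exact lq_fst φ hq1 p
  have hk2 : sl (lq φ n p) = s + tt β p / q ^ 2 := by
    rw [hs, hq, hβ]
    exact lq_sl φ hn.cop hq1 a1
  rw [← hβ] at a1 a3
  rw [hk1, hk2, ← ee_add, ← ee_add]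
  obtain ⟨u, hu⟩ : ∃ u : ℝ, u = uu β p := ⟨_, rfl⟩
  obtain ⟨t, ht⟩ : ∃ t : ℝ, t = tt β p := ⟨_, rfl⟩
  rw [← hu] at a1
  rw [← ht] at a3
  have hj : (p.2 : ℝ) = t * u := by
    rw [ht, hu]
    unfold tt
    rw [div_mul_cancel₀ _ (by rw [← hu]; exact a1.ne')]
  have hg := hγT t a3
  have hg1 : 0 < 1 + γ * t := by linarith [(abs_le.1 hg).1]
  have hub : uu b p = u * (1 + γ * t) := by
    have e1 : uu b p = u + γ * (p.2 : ℝ) := by
      rw [hu, hγ]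
      unfold uu
      ring
    rw [e1, hj]
    ring
  have e1 : dt p (R * q * φ s, R * q * φ s * β + R * deriv φ s / q) = R * q * φ s * u + R * deriv φ s / q * (t * u) := by
    rw [← hj, hu]
    unfold dt uu
    ring
  have e2 : ph b p = u * t ^ 2 / (1 + γ * t) := by
    unfold ph
    rw [hub, hj]
    field_simp
  have hDD : t ^ 2 / (1 + γ * t) = t ^ 2 - γ * t ^ 3 + γ ^ 2 * (t ^ 4 / (1 + γ * t)) := by
    have h3 : 1 + γ * t ≠ 0 := hg1.ne'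
    have h4 : (1 + γ * t) * (1 + γ * t)⁻¹ = 1 := mul_inv_cancel₀ h3
    rw [div_eq_mul_inv, div_eq_mul_inv]
    linear_combination (t ^ 2 * (1 - γ * t)) * h4
  have e3 : φ (s + t / q ^ 2) = φ s + deriv φ s * (t / q ^ 2) + F2 * (t / q ^ 2) ^ 2 / 2 + F3 * (t / q ^ 2) ^ 3 / 6 +
      rem φ s (t / q ^ 2) := by
    unfold rem
    rw [hF2, hF3]
    ring
  rw [← hu, ← ht, e1, e2, hχ, mul_div_assoc u, hDD, e3]
  congr 1
  have e4 : R * F3 / (6 * q ^ 5) = r * κ := by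
    rw [hrv, hκv]
    have h3 : F2 ≠ 0 := hF20.ne'
    field_simp
    ring
  have e5 : R * F2 / (2 * q ^ 3) = r := hrv.symm
  generalize rem φ s (t / q ^ 2) = z
  generalize t ^ 4 / (1 + γ * t) = w
  have e6 : R * (q * u * (φ s + deriv φ s * (t / q ^ 2) + F2 * (t / q ^ 2) ^ 2 / 2 + F3 * (t / q ^ 2) ^ 3 / 6 + z)) =
      R * q * φ s * u + R * deriv φ s / q * (t * u) + u * (R * F2 / (2 * q ^ 3) * t ^ 2 + R * F3 / (6 * q ^ 5) * t ^ 3) +
        u * (R * q * z) := by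
    field_simp
    ring
  rw [e6, e4, e5, hδ]
  ring

end Pool.Agent.Helper76.OV
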