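import Pool.Agent.Helper76.OV.C1
import Pool.Agent.Helper92.GC.R4

/-!
# OV-G2B: the weight is a multiplier

PROOF of `weight_mul'` (compare `weight_mul` of GC.G2). `K/k.1 = K/(q u)` is the product with `m(x) = K/(q x)` on `[KA/Q, 4KA/Q]`: at the left end `Q/(qA) ≤ 2`,
Lipschitz constant `2 Q/(K A)`: `mul_lip` with `cut_u` gives `2 + 14 (2 Q/(KA)) 3KA/Q = 86`. `W(sl k) = W(s + t/q²)`: `m(t) = W(s + t/q²)` on `[-1/A, 1/A]`, value at most `B`,
Lipschitz constant `B/q² ≤ B`: `mul_lip` with `cut_t` gives `B + 14 B 2 = 29 B`. Then `mul_comp`.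
-/

open MeasureTheory Real Set Filter Topology

set_option autoImplicit false

namespace Pool.Agent.Helper76.OV

open Pool.Agent.Helper22.AE
open Pool.Agent.Helper92.GC

theorem weight_mul' {B : ℝ} (hB : 1 ≤ B) : ∃ C : ℝ, 0 < C ∧ ∀ (φ : ℝ → ℝ) (W : ℝ → ℂ), Cw B W →
    ∀ (K Q : ℕ) (A : ℝ) (n : ℤ × ℤ), 1 ≤ K → 8 ≤ Q → 1 ≤ A → Good (Q / A) n → 1 ≤ n.1 → ∀ S : Finset (ℤ × ℤ),
      (∀ p ∈ S, K * A / Q ≤ uu (b0 φ n) p ∧ uu (b0 φ n) p ≤ 4 * (K * A / Q) ∧ |tt (b0 φ n) p| ≤ 1 / A) →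
        ∀ i : ℕ, (i = 1 ∨ i = 2) →
          IsMul S (fun p => (((K : ℝ) / ((lq φ n p).1 : ℝ) : ℝ) : ℂ) ^ i * W (sl (lq φ n p))) C := by
  refine ⟨86 * (86 * (29 * B)), by positivity, ?_⟩
  intro φ W hW K Q A n hK hQ hA hn hq S hS i hi
  have hKr : (1 : ℝ) ≤ K := by exact_mod_cast hK
  have hQr : (8 : ℝ) ≤ Q := by exact_mod_cast hQ
  have hqr : (1 : ℝ) ≤ (n.1 : ℝ) := by exact_mod_cast hq
  have hK0 : (0 : ℝ) < K := by linarith
  have hQ0 : (0 : ℝ) < Q := by linarith
  have hA0 : 0 < A := by linarith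
  have hB0 : 0 < B := by linarith
  have hn1 := hn.lo
  set q : ℝ := (n.1 : ℝ) with hqdef
  have hq0 : 0 < q := by linarith
  have hx1 : 0 < (K : ℝ) * A / Q := by positivity
  have hpos : ∀ p ∈ S, 0 < uu (b0 φ n) p := fun p hp => lt_of_lt_of_le hx1 (hS p hp).1
  -- the factor of the first coordinate
  have b1 : IsMul S (fun p => (((K : ℝ) / (q * uu (b0 φ n) p) : ℝ) : ℂ)) 86 := by
    have hB2 : (K : ℝ) / (q * (K * A / Q)) ≤ 2 := by
      calc (K : ℝ) / (q * (K * A / Q)) ≤ K / ((Q / A / 2) * (K * A / Q)) :=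
            div_le_div_of_nonneg_left hK0.le (by positivity)
              (mul_le_mul_of_nonneg_right hn1.le hx1.le)
        _ = 2 := by
            field_simp
    have h1 := mul_lip (S := S) (φ := uu (b0 φ n)) (A := 14) (fun z => cut_u S (b0 φ n) z)
      (m := fun x => (((K : ℝ) / (q * x) : ℝ) : ℂ)) (x₁ := K * A / Q) (x₂ := 4 * (K * A / Q))
      (L := 2 / (K * A / Q)) (B := 2)
      (by linarith)
      (fun p hp => ⟨(hS p hp).1, (hS p hp).2.1⟩)
      (by
        rw [Complex.norm_real, norm_eq_abs, abs_of_pos (by positivity)]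
        exact hB2)
      (by
        intro x hx y hy
        have hx0 : 0 < x := lt_of_lt_of_le hx1 hx.1
        have hy0 : 0 < y := lt_of_lt_of_le hx1 hy.1
        rw [← Complex.ofReal_sub, Complex.norm_real, norm_eq_abs]
        have e1 : (K : ℝ) / (q * x) - K / (q * y) = K / (q * x) * (1 / y) * (y - x) := by
          field_simp
        rw [e1, abs_mul, abs_of_pos (by positivity), abs_sub_comm y x]
        refine mul_le_mul_of_nonneg_right ?_ (abs_nonneg _)
        have h3 : (K : ℝ) / (q * x) ≤ 2 :=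
          (div_le_div_of_nonneg_left hK0.le (by positivity)
            (mul_le_mul_of_nonneg_left hx.1 hq0.le)).trans hB2
        have h4 : 1 / y ≤ 1 / (K * A / Q) := one_div_le_one_div_of_le hx1 hy.1
        calc (K : ℝ) / (q * x) * (1 / y) ≤ 2 * (1 / (K * A / Q)) :=
              mul_le_mul h3 h4 (by positivity) (by norm_num)
          _ = 2 / (K * A / Q) := by ring)
    refine mul_weaken h1 ?_
    have h3 : 2 / ((K : ℝ) * A / Q) * (4 * (K * A / Q) - K * A / Q) = 6 := by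
      field_simp
      norm_num
    rw [h3]
    norm_num
  -- the factor of the slope
  have b2 : IsMul S (fun p => W (sl n + tt (b0 φ n) p / q ^ 2)) (29 * B) := by
    have h1 := mul_lip (S := S) (φ := tt (b0 φ n)) (A := 14) (fun z => cut_t hpos z)
      (m := fun x => W (sl n + x / q ^ 2)) (x₁ := -(1 / A)) (x₂ := 1 / A) (L := B) (B := B)
      (by
        have : 0 < 1 / A := by positivity
        linarith)
      (fun p hp => abs_le.1 (hS p hp).2.2)
      (hW.wb _)
      (by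
        intro x hx y hy
        refine (hW.wl _ _).trans ?_
        refine mul_le_mul_of_nonneg_left ?_ hB0.le
        have e1 : sl n + x / q ^ 2 - (sl n + y / q ^ 2) = (x - y) / q ^ 2 := by ring
        rw [e1, abs_div, abs_of_pos (by positivity : (0 : ℝ) < q ^ 2)]
        exact div_le_self (abs_nonneg _) (one_le_pow₀ hqr))
    refine mul_weaken h1 ?_
    have h3 : 1 / A ≤ 1 := (div_le_one hA0).2 hA
    have h4 : B * (1 / A) ≤ B * 1 := mul_le_mul_of_nonneg_left h3 hB0.le
    linarith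
  have e1 : ∀ p ∈ S, (K : ℝ) / (q * uu (b0 φ n) p) = (K : ℝ) / ((lq φ n p).1 : ℝ) := by
    intro p hp
    rw [lq_fst φ hq p]
  have e2 : ∀ p ∈ S, sl n + tt (b0 φ n) p / q ^ 2 = sl (lq φ n p) := by
    intro p hp
    rw [lq_sl φ hn.cop hq (hpos p hp)]
  have b3 := mul_comp b1 b2
  rcases hi with hi | hi
  · subst hi
    refine mul_weaken (mul_congr (fun p hp => ?_) b3) (by linarith)
    rw [e1 p hp, e2 p hp, pow_one]
  · subst hi
    refine mul_congr (fun p hp => ?_) (mul_comp b1 b3)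
    rw [e1 p hp, e2 p hp, pow_two, mul_assoc]

end Pool.Agent.Helper76.OV
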