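import Pool.Agent.Helper76.OV.S4
import Pool.Agent.Helper92.GC.G4

/-!
# OV-G4: the sum over the vectors of a class

PROOF. As GC.G4 `class_sum` (copy it with its private lemmas `grid57`, `holder57`, `group57`, `cell57`, `cellint57`, `cellsum57`), with `(Rn R n, bt n)` replaced by
`(Rq φ R n, bq φ n)`, `bt_le` by `bq_le` (`Good P n`, `P ≥ 1` gives `n.1 > 1/2`, so `1 ≤ n.1`), and
(range) `Rq φ R n = R f2 φ (sl n)/(2 n.1³) ∈ [c₁ R/(2 P³), 4 B R/P³]` (`c₁ ≤ f2 ≤ B` at `sl n ∈ [0, 1]`, `P/2 < n.1 ≤ P`),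
(pairs) `Rq φ R n = R · Rq φ 1 n`, so `|Rq φ R n - Rq φ R m| ≤ δ₁` gives `|Rq φ 1 n - Rq φ 1 m| ≤ δ₁/R ≤ C₀/P⁴`, and `|bq φ n - bq φ m| ≤ 2 δ₂ ≤ 1/P`: `spacing hc hB C₀`.
-/

open MeasureTheory Real Set Filter Topology

set_option autoImplicit false

namespace Pool.Agent.Helper76.OV

open Pool.Agent.Helper22.AE
open Pool.Agent.Helper92.GC

/-- the grid point below `x` in absolute value -/
private lemma grid57 {δ x : ℝ} (hδ : 0 < δ) (hx : |x| ≤ 1 / 2) : ∃ b ∈ bgrid δ, |x - b| ≤ δ := by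
  have hfl : ⌊|x| / δ⌋ ≤ ⌊1 / (2 * δ)⌋ := by
    refine Int.floor_le_floor ?_
    rw [div_le_div_iff₀ hδ (by positivity)]
    nlinarith
  have hf0 : 0 ≤ ⌊|x| / δ⌋ := Int.floor_nonneg.2 (by positivity)
  have h1 : (⌊|x| / δ⌋ : ℝ) * δ ≤ |x| := by
    have := mul_le_mul_of_nonneg_right (Int.floor_le (|x| / δ)) hδ.le
    rwa [div_mul_cancel₀ _ hδ.ne'] at this
  have h2 : |x| < ((⌊|x| / δ⌋ : ℝ) + 1) * δ := by
    have := mul_lt_mul_of_pos_right (Int.lt_floor_add_one (|x| / δ)) hδ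
    rwa [div_mul_cancel₀ _ hδ.ne'] at this
  rcases le_total 0 x with h | h
  · refine ⟨(⌊|x| / δ⌋ : ℝ) * δ, ?_, ?_⟩
    · unfold bgrid
      rw [Finset.mem_image]
      exact ⟨⌊|x| / δ⌋, Finset.mem_Icc.2 ⟨by omega, hfl⟩, rfl⟩
    · rw [abs_of_nonneg h] at h1 h2 ⊢
      rw [abs_le]
      constructor
      · linarith
      · linarith
  · refine ⟨((-⌊|x| / δ⌋ : ℤ) : ℝ) * δ, ?_, ?_⟩
    · unfold bgrid
      rw [Finset.mem_image]
      exact ⟨-⌊|x| / δ⌋, Finset.mem_Icc.2 ⟨by omega, by omega⟩, rfl⟩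
    · rw [abs_of_nonpos h] at h1 h2 ⊢
      push_cast
      rw [abs_le]
      constructor
      · linarith
      · linarith

/-- the range of the curvature parameter -/
private lemma range57 {c₁ B : ℝ} (hc : 0 < c₁) {φ : ℝ → ℝ} (hφ : Cn c₁ B φ) {P R : ℝ} (hP : 1 ≤ P) (hR : 0 < R)
    {n : ℤ × ℤ} (hn : Good P n) :
    c₁ * R / (2 * P ^ 3) ≤ Rq φ R n ∧ Rq φ R n ≤ 4 * B * R / P ^ 3 := by
  obtain ⟨s0, s1⟩ := sl_range hn.nonneg hn.le
  have hs : |sl n| ≤ 2 := by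
    rw [abs_le]
    constructor
    · linarith
    · linarith
  have l1 := hφ.lo _ hs
  have l2 := (abs_le.1 (hφ.h2 _ hs)).2
  have h2 := hn.lo
  have h3 := hn.hi
  have hn0 : (0 : ℝ) < n.1 := by linarith
  have hn3 : (n.1 : ℝ) ^ 3 ≤ P ^ 3 := pow_le_pow_left₀ hn0.le h3 3
  have hn4 : (P / 2) ^ 3 ≤ (n.1 : ℝ) ^ 3 := pow_le_pow_left₀ (by linarith) h2.le 3
  have hB : 0 < B := by linarith
  unfold Rq
  constructor
  · calc c₁ * R / (2 * P ^ 3) ≤ c₁ * R / (2 * (n.1 : ℝ) ^ 3) :=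
          div_le_div_of_nonneg_left (by positivity) (by positivity) (by linarith)
      _ ≤ R * f2 φ (sl n) / (2 * (n.1 : ℝ) ^ 3) := by
          refine div_le_div_of_nonneg_right ?_ (by positivity)
          rw [mul_comm c₁ R]
          exact mul_le_mul_of_nonneg_left l1 hR.le
  · calc R * f2 φ (sl n) / (2 * (n.1 : ℝ) ^ 3) ≤ R * B / (2 * (n.1 : ℝ) ^ 3) := by
          refine div_le_div_of_nonneg_right ?_ (by positivity)
          exact mul_le_mul_of_nonneg_left l2 hR.le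
      _ ≤ R * B / (2 * (P / 2) ^ 3) :=
          div_le_div_of_nonneg_left (by positivity) (by positivity) (by linarith)
      _ = 4 * B * R / P ^ 3 := by
          field_simp
          norm_num

/-- close curvature parameters -/
private lemma close57 {φ : ℝ → ℝ} {P R δ C₀ : ℝ} (hP : 1 ≤ P) (hR : 0 < R) (hδ : δ * P ^ 4 ≤ C₀ * R)
    {n m : ℤ × ℤ} (h : |Rq φ R n - Rq φ R m| ≤ δ) : |Rq φ 1 n - Rq φ 1 m| ≤ C₀ / P ^ 4 := by
  have e : ∀ k : ℤ × ℤ, Rq φ R k = R * Rq φ 1 k := by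
    intro k
    unfold Rq
    ring
  rw [e n, e m, ← mul_sub, abs_mul, abs_of_pos hR] at h
  rw [le_div_iff₀ (by positivity)]
  have h1 : R * |Rq φ 1 n - Rq φ 1 m| * P ^ 4 ≤ C₀ * R :=
    le_trans (mul_le_mul_of_nonneg_right h (by positivity)) hδ
  have h2 : |Rq φ 1 n - Rq φ 1 m| * P ^ 4 * R ≤ C₀ * R := by
    calc |Rq φ 1 n - Rq φ 1 m| * P ^ 4 * R = R * |Rq φ 1 n - Rq φ 1 m| * P ^ 4 := by ring
      _ ≤ _ := h1
  exact le_of_mul_le_mul_right h2 hR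

private lemma one_le57 {P : ℝ} (hP : 1 ≤ P) {n : ℤ × ℤ} (h : Good P n) : 1 ≤ n.1 := by
  have h1 := h.lo
  have h2 : (0 : ℝ) < n.1 := by linarith
  have h3 : 0 < n.1 := by exact_mod_cast h2
  omega

private lemma holder57 {W : Finset (ℤ × ℤ)} {s : ℤ × ℤ → ℝ} (hs : ∀ n ∈ W, 0 ≤ s n) :
    (∑ n ∈ W, s n) ^ 6 ≤ (W.card : ℝ) ^ 4 * (∑ n ∈ W, s n ^ 3) ^ 2 := by
  rcases W.eq_empty_or_nonempty with h | h
  · subst h
    simp
  · have hc : (0 : ℝ) < W.card := by exact_mod_cast h.card_pos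
    have h1 := pow_sum_div_card_le_sum_pow hs 2
    rw [div_le_iff₀ (by positivity)] at h1
    have h2 : 0 ≤ ∑ n ∈ W, s n := Finset.sum_nonneg hs
    calc (∑ n ∈ W, s n) ^ 6 = ((∑ n ∈ W, s n) ^ (2 + 1)) ^ 2 := by ring
      _ ≤ ((∑ n ∈ W, s n ^ (2 + 1)) * (W.card : ℝ) ^ 2) ^ 2 :=
          pow_le_pow_left₀ (by positivity) h1 2
      _ = _ := by ring

/-- grouping by a key: if `s³ ≤ √H` of the key -/
private lemma group57 {K : Type*} [DecidableEq K] (W : Finset (ℤ × ℤ)) (key : ℤ × ℤ → K) {s : ℤ × ℤ → ℝ}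
    (hs : ∀ n ∈ W, 0 ≤ s n) {H : K → ℝ} (hH : ∀ n ∈ W, s n ^ 6 ≤ H (key n)) :
    (∑ n ∈ W, s n ^ 3) ^ 2 ≤ (((W ×ˢ W).filter (fun w => key w.1 = key w.2)).card : ℝ) *
      ∑ g ∈ W.image key, H g := by
  have hH0 : ∀ g ∈ W.image key, 0 ≤ H g := by
    intro g hg
    rw [Finset.mem_image] at hg
    obtain ⟨n, hn, rfl⟩ := hg
    have := hs n hn
    exact le_trans (by positivity) (hH n hn)
  have h1 : ∑ n ∈ W, s n ^ 3 ≤ ∑ g ∈ W.image key, ((W.filter (fun n => key n = g)).card : ℝ) * √(H g) := by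
    rw [← Finset.sum_fiberwise_of_maps_to (s := W) (t := W.image key) (g := key)
      (fun n hn => Finset.mem_image_of_mem key hn)]
    refine Finset.sum_le_sum fun g hg => ?_
    rw [← nsmul_eq_mul]
    refine Finset.sum_le_card_nsmul _ _ _ fun n hn => ?_
    rw [Finset.mem_filter] at hn
    have a1 := hH n hn.1
    rw [hn.2] at a1
    refine Real.le_sqrt_of_sq_le ?_
    calc (s n ^ 3) ^ 2 = s n ^ 6 := by ring
      _ ≤ _ := a1
  have h2 : 0 ≤ ∑ n ∈ W, s n ^ 3 := Finset.sum_nonneg fun n hn => by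
    have := hs n hn
    positivity
  have h3 := Finset.sum_mul_sq_le_sq_mul_sq (W.image key)
    (fun g => ((W.filter (fun n => key n = g)).card : ℝ)) (fun g => √(H g))
  have h4 : ∑ g ∈ W.image key, √(H g) ^ 2 = ∑ g ∈ W.image key, H g :=
    Finset.sum_congr rfl fun g hg => Real.sq_sqrt (hH0 g hg)
  have h5 : ∑ g ∈ W.image key, ((W.filter (fun n => key n = g)).card : ℝ) ^ 2 =
      (((W ×ˢ W).filter (fun w => key w.1 = key w.2)).card : ℝ) := by
    rw [Finset.card_eq_sum_card_fiberwise (f := fun w : (ℤ × ℤ) × (ℤ × ℤ) => key w.1) (t := W.image key)]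
    · push_cast
      refine Finset.sum_congr rfl fun g hg => ?_
      have e1 : (((W ×ˢ W).filter (fun w => key w.1 = key w.2)).filter (fun w => key w.1 = g)) =
          (W.filter (fun n => key n = g)) ×ˢ (W.filter (fun n => key n = g)) := by
        ext w
        simp only [Finset.mem_filter, Finset.mem_product]
        constructor
        · rintro ⟨⟨⟨b1, b2⟩, b3⟩, b4⟩
          exact ⟨⟨b1, b4⟩, ⟨b2, by rw [← b3, b4]⟩⟩
        · rintro ⟨⟨b1, b2⟩, ⟨b3, b4⟩⟩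
          exact ⟨⟨⟨b1, b3⟩, by rw [b2, b4]⟩, b2⟩
      rw [e1, Finset.card_product]
      push_cast
      ring
    · intro w hw
      rw [Finset.mem_coe, Finset.mem_filter, Finset.mem_product] at hw
      exact Finset.mem_image_of_mem key hw.1.1
  rw [h4, h5] at h3
  exact (pow_le_pow_left₀ h2 h1 2).trans h3

/-- the cells of the first coordinate -/
private def cell57 (δ : ℝ) (m : ℤ) : Set ℝ := Ico ((m : ℝ) * δ) (((m : ℝ) + 1) * δ)

private lemma cellint57 {δ : ℝ} (hδ : 0 < δ) {f : ℝ → ℝ} (hf : Continuous f) {c : ℝ} (m : ℤ)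
    (h : ∀ r ∈ cell57 δ m, c ≤ f r) : c ≤ 1 / δ * ∫ r in cell57 δ m, f r := by
  have hv : volume.real (cell57 δ m) = δ := by
    unfold cell57
    rw [Real.volume_real_Ico_of_le (by nlinarith)]
    ring
  have hint : IntegrableOn f (cell57 δ m) :=
    (hf.integrableOn_Icc (a := (m : ℝ) * δ) (b := ((m : ℝ) + 1) * δ)).mono_set Ico_subset_Icc_self
  have h1 := setIntegral_ge_of_const_le_real (μ := volume) (s := cell57 δ m) measurableSet_Ico
    (by unfold cell57; rw [Real.volume_Ico]; exact ENNReal.ofReal_ne_top) h hint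
  rw [hv] at h1
  rw [one_div, ← div_eq_inv_mul, le_div_iff₀ hδ]
  exact h1

private lemma cellsum57 {δ : ℝ} (hδ : 0 < δ) {f : ℝ → ℝ} (hf : Continuous f) (hf0 : ∀ r, 0 ≤ f r)
    {x y : ℝ} (T : Finset ℤ) (hT : ∀ m ∈ T, cell57 δ m ⊆ Icc x y) :
    ∑ m ∈ T, ∫ r in cell57 δ m, f r ≤ ∫ r in Icc x y, f r := by
  rw [← integral_biUnion_finset T (s := cell57 δ) (fun m _ => measurableSet_Ico)]
  · refine setIntegral_mono_set hf.integrableOn_Icc ?_ ?_
    · exact Eventually.of_forall hf0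
    · exact (iUnion₂_subset hT).eventuallyLE
  · intro m _ m' _ hmm
    change Disjoint (cell57 δ m) (cell57 δ m')
    rw [Set.disjoint_left]
    intro r hr hr'
    apply hmm
    unfold cell57 at hr hr'
    rw [mem_Ico] at hr hr'
    have h1 : (m : ℝ) < (m' : ℝ) + 1 := by
      have := lt_of_le_of_lt hr.1 hr'.2
      exact lt_of_mul_lt_mul_right this hδ.le
    have h2 : (m' : ℝ) < (m : ℝ) + 1 := by
      have := lt_of_le_of_lt hr'.1 hr.2
      exact lt_of_mul_lt_mul_right this hδ.le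
    have h3 : m < m' + 1 := by exact_mod_cast h1
    have h4 : m' < m + 1 := by exact_mod_cast h2
    omega
  · intro m _
    exact (hf.integrableOn_Icc (a := (m : ℝ) * δ) (b := ((m : ℝ) + 1) * δ)).mono_set Ico_subset_Icc_self

theorem class_sum' {c₁ B : ℝ} (hc : 0 < c₁) (hB : 1 ≤ B) (C₀ : ℝ) : ∃ C : ℝ, 0 < C ∧ ∀ φ : ℝ → ℝ, Cn c₁ B φ →
    ∀ P R δ₁ δ₂ : ℝ, 1 ≤ P → 0 < R → 0 < δ₁ → 0 < δ₂ → δ₁ * P ^ 4 ≤ C₀ * R →
    2 * δ₂ ≤ 1 / P → ∀ G : ℝ → ℝ → ℝ, (∀ b, Continuous (fun r => G r b)) → (∀ r b, 0 ≤ G r b) →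
      ∀ s : ℤ × ℤ → ℝ, (∀ n, Good P n → 0 ≤ s n) →
        (∀ n, Good P n → ∀ r b, |Rq φ R n - r| ≤ δ₁ → |bq φ n - b| ≤ δ₂ → |b| ≤ 1 / 2 → s n ^ 6 ≤ G r b) →
          ∀ W : Finset (ℤ × ℤ), (∀ n ∈ W, Good P n) →
            (∑ n ∈ W, s n) ^ 6 ≤ C * P ^ 10 *
              ∑ b ∈ bgrid δ₂, 1 / δ₁ * ∫ r in Icc (c₁ * R / (2 * P ^ 3) - δ₁) (4 * B * R / P ^ 3 + δ₁), G r b := by
  classical
  obtain ⟨C₂, hC₂, hsp⟩ := spacing hc hB C₀
  refine ⟨81 * C₂, by positivity, ?_⟩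
  intro φ hφ P R δ₁ δ₂ hP hR hδ₁ hδ₂ hδC hδP G hG hG0 s hs hsG W hW
  have hb : ∀ n : ℤ × ℤ, ∃ b : ℝ, Good P n → b ∈ bgrid δ₂ ∧ |bq φ n - b| ≤ δ₂ := by
    intro n
    by_cases h : Good P n
    · obtain ⟨b, h1, h2⟩ := grid57 hδ₂ (bq_le φ h.cop (one_le57 hP h))
      exact ⟨b, fun _ => ⟨h1, h2⟩⟩
    · exact ⟨0, fun h' => absurd h' h⟩
  choose bb hbb using hb
  set key : ℤ × ℤ → ℤ × ℝ := fun n => (⌊Rq φ R n / δ₁⌋, bb n) with hkey
  set H : ℤ × ℝ → ℝ := fun g => 1 / δ₁ * ∫ r in cell57 δ₁ g.1, G r g.2 with hHdef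
  have hcell : ∀ n, Rq φ R n ∈ cell57 δ₁ ⌊Rq φ R n / δ₁⌋ := by
    intro n
    unfold cell57
    rw [mem_Ico]
    constructor
    · have := mul_le_mul_of_nonneg_right (Int.floor_le (Rq φ R n / δ₁)) hδ₁.le
      rwa [div_mul_cancel₀ _ hδ₁.ne'] at this
    · have := mul_lt_mul_of_pos_right (Int.lt_floor_add_one (Rq φ R n / δ₁)) hδ₁
      rwa [div_mul_cancel₀ _ hδ₁.ne'] at this
  have hdist : ∀ (m : ℤ) (r r' : ℝ), r ∈ cell57 δ₁ m → r' ∈ cell57 δ₁ m → |r - r'| ≤ δ₁ := by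
    intro m r r' hr hr'
    unfold cell57 at hr hr'
    rw [mem_Ico] at hr hr'
    rw [abs_le]
    constructor
    · linarith
    · linarith
  have hH : ∀ n ∈ W, s n ^ 6 ≤ H (key n) := by
    intro n hn
    have hg := hW n hn
    obtain ⟨h1, h2⟩ := hbb n hg
    refine cellint57 hδ₁ (hG (bb n)) _ fun r hr => ?_
    exact hsG n hg r (bb n) (hdist _ _ _ (hcell n) hr) h2 (bgrid_le hδ₂ h1)
  have hs' : ∀ n ∈ W, 0 ≤ s n := fun n hn => hs n (hW n hn)
  -- the number of pairs in the same cell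
  have hV : (((W ×ˢ W).filter (fun w => key w.1 = key w.2)).card : ℝ) ≤ C₂ * P ^ 2 := by
    refine hsp φ hφ P hP _ fun w hw => ?_
    rw [Finset.mem_filter, Finset.mem_product] at hw
    obtain ⟨⟨h1, h2⟩, h3⟩ := hw
    have g1 := hW _ h1
    have g2 := hW _ h2
    have e1 : ⌊Rq φ R w.1 / δ₁⌋ = ⌊Rq φ R w.2 / δ₁⌋ := congrArg Prod.fst h3
    have e2 : bb w.1 = bb w.2 := congrArg Prod.snd h3
    refine ⟨g1, g2, ?_, ?_⟩
    · refine close57 hP hR hδC ?_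
      refine hdist _ _ _ (hcell w.1) ?_
      rw [e1]
      exact hcell w.2
    · have a1 := (hbb w.1 g1).2
      have a2 := (hbb w.2 g2).2
      rw [e2] at a1
      have a3 : bq φ w.1 - bq φ w.2 = (bq φ w.1 - bb w.2) - (bq φ w.2 - bb w.2) := by ring
      rw [a3]
      refine (abs_sub _ _).trans ?_
      linarith
  -- the sum over the occupied cells
  have hsumH : ∑ g ∈ W.image key, H g ≤
      ∑ b ∈ bgrid δ₂, 1 / δ₁ * ∫ r in Icc (c₁ * R / (2 * P ^ 3) - δ₁) (4 * B * R / P ^ 3 + δ₁), G r b := by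
    rw [← Finset.sum_fiberwise_of_maps_to (s := W.image key) (t := bgrid δ₂) (g := Prod.snd)
      (fun g hg => by
        rw [Finset.mem_image] at hg
        obtain ⟨n, hn, rfl⟩ := hg
        exact (hbb n (hW n hn)).1)]
    refine Finset.sum_le_sum fun b hb => ?_
    have e1 : ∑ g ∈ (W.image key).filter (fun g => g.2 = b), H g =
        1 / δ₁ * ∑ m ∈ ((W.image key).filter (fun g => g.2 = b)).image Prod.fst,
          ∫ r in cell57 δ₁ m, G r b := by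
      rw [Finset.mul_sum, Finset.sum_image]
      · refine Finset.sum_congr rfl fun g hg => ?_
        rw [Finset.mem_filter] at hg
        simp only [hHdef, hg.2]
      · intro g hg g' hg' hgg
        rw [Finset.mem_coe, Finset.mem_filter] at hg hg'
        exact Prod.ext hgg (by rw [hg.2, hg'.2])
    rw [e1]
    refine mul_le_mul_of_nonneg_left ?_ (by positivity)
    refine cellsum57 hδ₁ (hG b) (fun r => hG0 r b) _ fun m hm => ?_
    rw [Finset.mem_image] at hm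
    obtain ⟨g, hg, rfl⟩ := hm
    rw [Finset.mem_filter, Finset.mem_image] at hg
    obtain ⟨⟨n, hn, rfl⟩, -⟩ := hg
    intro r hr
    have a1 := hdist _ _ _ (hcell n) hr
    have a2 := range57 hc hφ hP hR (hW n hn)
    rw [abs_le] at a1
    exact ⟨by linarith, by linarith⟩
  have hcard := good_card hP W hW
  have h1 := holder57 hs'
  have h2 := group57 W key hs' hH
  have hH0 : 0 ≤ ∑ g ∈ W.image key, H g := by
    refine Finset.sum_nonneg fun g hg => ?_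
    rw [Finset.mem_image] at hg
    obtain ⟨n, hn, rfl⟩ := hg
    have := hs' n hn
    exact le_trans (by positivity) (hH n hn)
  calc (∑ n ∈ W, s n) ^ 6 ≤ (W.card : ℝ) ^ 4 * (∑ n ∈ W, s n ^ 3) ^ 2 := h1
    _ ≤ (3 * P ^ 2) ^ 4 * ((C₂ * P ^ 2) *
        ∑ b ∈ bgrid δ₂, 1 / δ₁ * ∫ r in Icc (c₁ * R / (2 * P ^ 3) - δ₁) (4 * B * R / P ^ 3 + δ₁), G r b) := by
        refine mul_le_mul (pow_le_pow_left₀ (by positivity) hcard 4) ?_ (by positivity) (by positivity)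
        refine h2.trans ?_
        exact mul_le_mul hV hsumH hH0 (by positivity)
    _ = _ := by ring

end Pool.Agent.Helper76.OV
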