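import Pool.Agent.Helper76.OV.G3
import Pool.Agent.Helper76.OV.G4
import Pool.Agent.Helper64.GS.Shell

/-!
# OV-G5: one class

PROOF. As Helper64.GS.Cls `class_bound0` (copy it with its private lemmas). `P = Q/A`, `δ₁ = A Q/K`, `δ₂ = 1/(2QA)`, `H = K A/Q`. Apply `class_sum'` with
`s n = ‖os (sec K Q n) K i W φ R c‖` and `G r b = C (K²A/Q²) m6 (reg b H) (fun p => ee (r ph b p))`; hypotheses by `sector_bound'`.
`δ₁ P⁴ = Q⁵/(K A³) ≤ C₀ R`, `2 δ₂ = 1/(QA) ≤ A/Q = 1/P`. With `ρ = c₁ R/(4 P³)`: `δ₁ P³ = Q⁴/(K A²) ≤ Q⁴/K ≤ C₀ R/Q ≤ c₁ R/4` by `4 C₀ ≤ c₁ Q`, so `δ₁ ≤ ρ`,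
`c₁ R/(2P³) - δ₁ ≥ ρ`, and `4 B R/P³ + δ₁ ≤ (16 B/c₁ + 1) ρ ≤ 2^J ρ` with `J` depending on `B/c₁` only (`∃ J, 16 B/c₁ + 1 ≤ 2^J`). The interval is covered by the shells
`[2^j ρ, 2^(j+1) ρ]`, `j < J` (generalise `split0` from 6 to `J`); `shell0` bounds each integral by `C H^ε 2^j ρ H⁶` (`|b| ≤ 1/2` by `bgrid_le`), the sum is at most
`C 2^J H^ε ρ H⁶`. `bgrid` has at most `2QA + 1 ≤ 3QA` elements. Total `C P¹⁰ (K²A/Q²)(K/(AQ))(3QA) H^ε 2^J ρ H⁶ = C' H^ε R K⁹/Q`, `H ≤ K`.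
-/

open MeasureTheory Real Set Filter Topology

set_option autoImplicit false

namespace Pool.Agent.Helper76.OV

open Pool.Agent.Helper22.AE
open Pool.Agent.Helper92.GC
open Pool.Agent.Helper64.GS (shell0)

private theorem m6_nonneg80 (S : Finset (ℤ × ℤ)) (a : ℤ × ℤ → ℂ) : 0 ≤ m6 S a := by
  unfold m6
  exact integral_nonneg fun c => by positivity

private theorem ee_cont80 : Continuous ee := by
  unfold ee
  fun_prop

private theorem m6_cont80 (S : Finset (ℤ × ℤ)) (f : ℤ × ℤ → ℝ) :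
    Continuous (fun r : ℝ => m6 S (fun p => ee (r * f p))) := by
  unfold m6 tp
  refine continuous_parametric_integral_of_continuous
    (f := fun (r : ℝ) (c : ℝ × ℝ) => ‖∑ k ∈ S, ee (r * f k) * ee (dt k c)‖ ^ 6) ?_ ?_
  · have h1 : ∀ k : ℤ × ℤ, Continuous fun q : ℝ × (ℝ × ℝ) => ee (q.1 * f k) := fun k =>
      ee_cont80.comp (by fun_prop)
    have h2 : ∀ k : ℤ × ℤ, Continuous fun q : ℝ × (ℝ × ℝ) => ee (dt k q.2) := fun k =>
      ee_cont80.comp (by unfold dt; fun_prop)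
    have h3 : Continuous fun q : ℝ × (ℝ × ℝ) => ∑ k ∈ S, ee (q.1 * f k) * ee (dt k q.2) :=
      continuous_finsetSum _ fun k _ => (h1 k).mul (h2 k)
    exact (h3.norm).pow 6
  · exact isCompact_Icc.prod isCompact_Icc

private theorem split80 {g : ℝ → ℝ} (hg : Continuous g) (h0 : ∀ r, 0 ≤ g r) {ρ lo hi : ℝ} (hρ : 0 < ρ) (J : ℕ)
    (hlo : ρ ≤ lo) (hhi : hi ≤ 2 ^ J * ρ) :
    ∫ r in Icc lo hi, g r ≤ ∑ i ∈ Finset.range J, ∫ r in Icc (2 ^ i * ρ) (2 * (2 ^ i * ρ)), g r := by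
  have h1 : ∫ r in Icc lo hi, g r ≤ ∫ r in Icc ρ (2 ^ J * ρ), g r := by
    refine setIntegral_mono_set ?_ ?_ ?_
    · exact hg.integrableOn_Icc
    · exact Eventually.of_forall h0
    · exact (Icc_subset_Icc hlo hhi).eventuallyLE
  refine h1.trans (le_of_eq ?_)
  have h2 := intervalIntegral.sum_integral_adjacent_intervals (μ := volume) (f := g)
    (a := fun i : ℕ => 2 ^ i * ρ) (n := J) (fun k _ => hg.intervalIntegrable _ _)
  have hJ : ρ ≤ 2 ^ J * ρ := by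
    have : (1 : ℝ) ≤ 2 ^ J := one_le_pow₀ (by norm_num)
    nlinarith
  rw [integral_Icc_eq_integral_Ioc, ← intervalIntegral.integral_of_le hJ]
  refine (Eq.trans ?_ h2.symm).trans ?_
  · simp
  · refine Finset.sum_congr rfl fun i _ => ?_
    have h3 : (0 : ℝ) < 2 ^ i * ρ := by positivity
    rw [integral_Icc_eq_integral_Ioc, ← intervalIntegral.integral_of_le (by linarith)]
    congr 1
    rw [pow_succ]
    ring

private theorem geom80 (J : ℕ) : ∑ j ∈ Finset.range J, (2 : ℝ) ^ j ≤ 2 ^ J := by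
  induction J with
  | zero => simp
  | succ J ih =>
    rw [Finset.sum_range_succ, pow_succ]
    linarith

theorem class_bound' {ε c₁ B : ℝ} (hε : 0 < ε) (hc : 0 < c₁) (hB : 1 ≤ B) (C₀ : ℝ) : ∃ C : ℝ, 0 < C ∧
    ∀ (φ : ℝ → ℝ) (W : ℝ → ℂ), Cn c₁ B φ → Cw B W → ∀ (K Q : ℕ) (A R : ℝ), 8 ≤ Q → Q ≤ K → 1 ≤ A →
    4 * C₀ ≤ c₁ * Q → 12 * B ≤ c₁ * Q → A ≤ Q → A ^ 4 ≤ (Q : ℝ) ^ 3 → 0 < R → R * K ≤ C₀ * (Q : ℝ) ^ 5 →
    (Q : ℝ) ^ 5 ≤ C₀ * (R * K) → (K * A / Q) ^ (3 / 2 : ℝ) ≤ c₁ * R / (4 * (Q / A) ^ 3) →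
    ∀ i : ℕ, (i = 1 ∨ i = 2) → ∀ c : ℝ × ℝ, ∀ V : Finset (ℤ × ℤ), (∀ n ∈ V, Good (Q / A) n) →
        (∑ n ∈ V, ‖os (sec K Q n) K i W φ R c‖) ^ 6 ≤ C * (K : ℝ) ^ ε * (R * (K : ℝ) ^ 9 / Q) := by
  obtain ⟨C1, hC1, hcs⟩ := class_sum' hc hB C₀
  obtain ⟨C2, hC2, hsb⟩ := sector_bound' hc hB C₀
  obtain ⟨C3, hC3, hsh⟩ := shell0 hε
  obtain ⟨J, hJ⟩ : ∃ J : ℕ, 16 * B / c₁ + 1 ≤ 2 ^ J :=
    (pow_unbounded_of_one_lt (16 * B / c₁ + 1) (by norm_num : (1 : ℝ) < 2)).imp fun _ h => h.le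
  refine ⟨C1 * C2 * C3 * (3 * 2 ^ J * (c₁ / 4)), by positivity, ?_⟩
  intro φ W hφ hWt K Q A R hQ8 hQK hA hCQ hBQ hAQ hA4 hR h1 h2 hH i hi c V hV
  have hQ0 : (0 : ℝ) < Q := by
    have : (8 : ℝ) ≤ Q := by exact_mod_cast hQ8
    linarith
  have hQ1 : (1 : ℝ) ≤ Q := by
    have : (8 : ℝ) ≤ Q := by exact_mod_cast hQ8
    linarith
  have hQKr : (Q : ℝ) ≤ K := by exact_mod_cast hQK
  have hK0 : (0 : ℝ) < K := lt_of_lt_of_le hQ0 hQKr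
  have hA0 : (0 : ℝ) < A := by linarith
  have hRK : 0 < R * K := by positivity
  have hC0 : 0 < C₀ := by
    by_contra hcon
    rw [not_lt] at hcon
    have h3 : C₀ * (R * K) ≤ 0 := mul_nonpos_of_nonpos_of_nonneg hcon hRK.le
    have h4 : (0 : ℝ) < (Q : ℝ) ^ 5 := by positivity
    linarith
  set P : ℝ := Q / A with hP
  have hP1 : 1 ≤ P := by
    rw [hP, le_div_iff₀ hA0]
    linarith
  have hP0 : 0 < P := by linarith
  set δ₁ : ℝ := A * Q / K with hδ₁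
  have hδ₁0 : 0 < δ₁ := by positivity
  set δ₂ : ℝ := 1 / (2 * (Q * A)) with hδ₂
  have hδ₂0 : 0 < δ₂ := by positivity
  set H : ℝ := K * A / Q with hHdef
  have hH1 : 1 ≤ H := by
    rw [hHdef, le_div_iff₀ hQ0, one_mul]
    nlinarith
  have hHK : H ≤ K := by
    rw [hHdef, div_le_iff₀ hQ0]
    exact mul_le_mul_of_nonneg_left hAQ hK0.le
  have hH0 : 0 < H := by linarith
  set ρ : ℝ := c₁ * R / (4 * P ^ 3) with hρdef
  have hρ0 : 0 < ρ := by positivity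
  have hA3 : (1 : ℝ) ≤ A ^ 3 := one_le_pow₀ hA
  have hA2 : (1 : ℝ) ≤ A ^ 2 := one_le_pow₀ hA
  have c1 : δ₁ * P ^ 4 ≤ C₀ * R := by
    have e : δ₁ * P ^ 4 = (Q : ℝ) ^ 5 / (K * A ^ 3) := by
      rw [hδ₁, hP]
      field_simp
    rw [e, div_le_iff₀ (by positivity)]
    calc (Q : ℝ) ^ 5 ≤ C₀ * (R * K) := h2
      _ = C₀ * R * K * 1 := by ring
      _ ≤ C₀ * R * K * A ^ 3 := mul_le_mul_of_nonneg_left hA3 (by positivity)
      _ = C₀ * R * (K * A ^ 3) := by ring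
  have c2 : 2 * δ₂ ≤ 1 / P := by
    have e : 2 * δ₂ = 1 / (Q * A) := by
      rw [hδ₂]
      field_simp
    rw [e, hP, one_div_div, div_le_div_iff₀ (by positivity) hQ0]
    nlinarith
  have c3 : δ₁ ≤ ρ := by
    have e : δ₁ * P ^ 3 = (Q : ℝ) ^ 4 / (K * A ^ 2) := by
      rw [hδ₁, hP]
      field_simp
    have e2 : δ₁ * P ^ 3 ≤ c₁ * R / 4 := by
      rw [e, div_le_div_iff₀ (by positivity) (by norm_num)]
      have e3 : (Q : ℝ) ^ 4 * 4 * Q ≤ c₁ * (R * K) * Q := by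
        calc (Q : ℝ) ^ 4 * 4 * Q = 4 * (Q : ℝ) ^ 5 := by ring
          _ ≤ 4 * (C₀ * (R * K)) := by linarith
          _ = (4 * C₀) * (R * K) := by ring
          _ ≤ (c₁ * Q) * (R * K) := mul_le_mul_of_nonneg_right hCQ hRK.le
          _ = c₁ * (R * K) * Q := by ring
      have e4 : (Q : ℝ) ^ 4 * 4 ≤ c₁ * (R * K) := le_of_mul_le_mul_right e3 hQ0
      calc (Q : ℝ) ^ 4 * 4 ≤ c₁ * (R * K) := e4
        _ = c₁ * (R * K) * 1 := by ring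
        _ ≤ c₁ * (R * K) * A ^ 2 := mul_le_mul_of_nonneg_left hA2 (by positivity)
        _ = c₁ * R * (K * A ^ 2) := by ring
    rw [hρdef, le_div_iff₀ (by positivity)]
    linarith
  have hlo : ρ ≤ c₁ * R / (2 * P ^ 3) - δ₁ := by
    have e : c₁ * R / (2 * P ^ 3) = 2 * ρ := by
      rw [hρdef]
      field_simp
      norm_num
    rw [e]
    linarith
  have hhi : 4 * B * R / P ^ 3 + δ₁ ≤ 2 ^ J * ρ := by
    have e : 4 * B * R / P ^ 3 = 16 * B / c₁ * ρ := by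
      rw [hρdef]
      field_simp
      norm_num
    rw [e]
    calc 16 * B / c₁ * ρ + δ₁ ≤ (16 * B / c₁ + 1) * ρ := by linarith
      _ ≤ 2 ^ J * ρ := mul_le_mul_of_nonneg_right hJ hρ0.le
  set g : ℝ → ℝ → ℝ := fun b r => m6 (reg b H) (fun p => ee (r * ph b p)) with hg
  have hg0 : ∀ b r, 0 ≤ g b r := fun b r => m6_nonneg80 _ _
  have hgc : ∀ b, Continuous (g b) := fun b => m6_cont80 _ _
  have hD : 0 ≤ C2 * ((K : ℝ) ^ 2 * A / (Q : ℝ) ^ 2) := by positivity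
  have key := hcs φ hφ P R δ₁ δ₂ hP1 hR hδ₁0 hδ₂0 c1 c2
    (fun r b => C2 * ((K : ℝ) ^ 2 * A / (Q : ℝ) ^ 2) * g b r)
    (fun b => continuous_const.mul (hgc b)) (fun r b => mul_nonneg hD (hg0 b r))
    (fun n => ‖os (sec K Q n) K i W φ R c‖) (fun n _ => norm_nonneg _)
    (fun n hn r b hr hb _ => by
      refine hsb φ W hφ hWt K Q A R r b n hQ8 hQK hA hBQ hA4 hR h1 h2 hn hr (hb.trans ?_) i hi c
      rw [hδ₂]
      refine one_div_le_one_div_of_le (by positivity) ?_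
      have : 0 < (Q : ℝ) * A := by positivity
      linarith) V hV
  refine key.trans ?_
  have hone : ∀ b ∈ bgrid δ₂, ∫ r in Icc (c₁ * R / (2 * P ^ 3) - δ₁) (4 * B * R / P ^ 3 + δ₁),
      C2 * ((K : ℝ) ^ 2 * A / (Q : ℝ) ^ 2) * g b r ≤
      C2 * ((K : ℝ) ^ 2 * A / (Q : ℝ) ^ 2) * (2 ^ J * (C3 * (K : ℝ) ^ ε * ρ * H ^ 6)) := by
    intro b hb
    rw [integral_const_mul]
    refine mul_le_mul_of_nonneg_left ?_ hD
    refine (split80 (hgc b) (hg0 b) hρ0 J hlo hhi).trans ?_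
    have hb2 := bgrid_le hδ₂0 hb
    have hterm : ∀ j ∈ Finset.range J, ∫ r in Icc (2 ^ j * ρ) (2 * (2 ^ j * ρ)), g b r ≤
        2 ^ j * (C3 * (K : ℝ) ^ ε * ρ * H ^ 6) := by
      intro j _
      have hj : (1 : ℝ) ≤ 2 ^ j := one_le_pow₀ (by norm_num)
      have hρj : ρ ≤ 2 ^ j * ρ := by nlinarith
      have hρj0 : 0 < 2 ^ j * ρ := by positivity
      have h3 := hsh H (2 ^ j * ρ) b hH1 (hH.trans hρj) hb2
      refine h3.trans ?_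
      have h4 : H ^ ε ≤ (K : ℝ) ^ ε := Real.rpow_le_rpow hH0.le hHK hε.le
      calc C3 * H ^ ε * (2 ^ j * ρ) * H ^ 6
          ≤ C3 * (K : ℝ) ^ ε * (2 ^ j * ρ) * H ^ 6 := by
            gcongr
        _ = 2 ^ j * (C3 * (K : ℝ) ^ ε * ρ * H ^ 6) := by ring
    refine (Finset.sum_le_sum hterm).trans ?_
    rw [← Finset.sum_mul]
    exact mul_le_mul_of_nonneg_right (geom80 J) (by positivity)
  have hsum : ∑ b ∈ bgrid δ₂, 1 / δ₁ * ∫ r in Icc (c₁ * R / (2 * P ^ 3) - δ₁) (4 * B * R / P ^ 3 + δ₁),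
      C2 * ((K : ℝ) ^ 2 * A / (Q : ℝ) ^ 2) * g b r ≤
      (3 * (Q * A)) * (1 / δ₁ * (C2 * ((K : ℝ) ^ 2 * A / (Q : ℝ) ^ 2) *
        (2 ^ J * (C3 * (K : ℝ) ^ ε * ρ * H ^ 6)))) := by
    refine (Finset.sum_le_sum fun b hb => mul_le_mul_of_nonneg_left (hone b hb) (by positivity)).trans ?_
    rw [Finset.sum_const, nsmul_eq_mul]
    refine mul_le_mul_of_nonneg_right ?_ (by positivity)
    refine (bgrid_card hδ₂0).trans ?_
    have e : 1 / δ₂ = 2 * (Q * A) := by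
      rw [hδ₂, one_div_one_div]
    rw [e]
    nlinarith
  refine (mul_le_mul_of_nonneg_left hsum (by positivity)).trans (le_of_eq ?_)
  generalize (K : ℝ) ^ ε = E
  rw [hρdef, hHdef, hP, hδ₁]
  field_simp

end Pool.Agent.Helper76.OV
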