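import Pool.Agent.Helper76.OV.G5
import Pool.Agent.Helper92.GC.E2

/-!
# OV-G6: the octant sum

PROOF. As Helper64.GS.Oct `oct_bound0` (copy it with its private lemmas, `bs` replaced by `os`; each term has norm at most `B`: `|K/k.1| ≤ 1`, `‖W‖ ≤ B`). `C₀ = 128`. `Q = ⌈x⌉₊`,
`x = (R₀ K)^(1/5)`. There is `M = M(ε, c₁, B)` such that for `R₀^(2ε) ≥ M` (say `M = 400 + (100 B/c₁)^10`; any explicit or existential choice will do): `Q ≥ 1536`, `4 · 128 ≤ c₁ Q`,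
`12 B ≤ c₁ Q`, `Q ≤ K`, and `(K A/Q)^(3/2) ≤ c₁ R/(4 (Q/A)³)` for all `A ≥ 1`: as `A^(3/2) ≤ A³` this is `4 K^(3/2) Q^(3/2) ≤ c₁ R`, and `Q^(3/2) ≤ 3 (R₀K)^(3/10)`, so
enough `12 K^(9/5) ≤ c₁ R₀^(7/10)`; `K ≤ R₀^(376/1000)` gives `K^(9/5) ≤ R₀^(6768/10000)`, so enough `12/c₁ ≤ R₀^(232/10000)` (`2 ε ≤ 2/1000 ≤ 232/10000`, so
`R₀^(2ε) ≥ 12/c₁` is enough). For `R₀^(2ε) < M` the sum is at most `25 K² B ≤ 25 B R₀ ≤ 25 B M^(1/(2ε))`. The rest (classes `A = 2^j`, the small denominators by `small_q`) as in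
`oct_bound0`, where the hypothesis `K ≤ R₀^(7/18 - ε)` follows from `K ≤ R₀^(376/1000)` (`7/18 - 1/1000 > 376/1000`).
-/

open MeasureTheory Real Set Filter Topology

set_option autoImplicit false

namespace Pool.Agent.Helper76.OV

open Pool.Agent.Helper22.AE
open Pool.Agent.Helper92.GC

private theorem mem_oct50 {K : ℕ} {k : ℤ × ℤ} (hk : k ∈ oct K) :
    (K : ℤ) ≤ k.1 ∧ k.1 < 2 * K ∧ 0 ≤ k.2 ∧ k.2 ≤ k.1 := by
  classical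
  unfold oct at hk
  exact (Finset.mem_filter.1 hk).2

private theorem term50 {B : ℝ} {W : ℝ → ℂ} (hW : Cw B W) {K : ℕ} (hK : 1 ≤ K) {k : ℤ × ℤ}
    (hk : (K : ℤ) ≤ k.1) (i : ℕ) (x : ℝ) :
    ‖(((K : ℝ) / (k.1 : ℝ) : ℝ) : ℂ) ^ i * W (sl k) * ee x‖ ≤ B := by
  have h1 : (K : ℝ) ≤ (k.1 : ℝ) := by exact_mod_cast hk
  have hK0 : (0 : ℝ) < K := by exact_mod_cast hK
  have h0 : 0 < (k.1 : ℝ) := hK0.trans_le h1
  rw [norm_mul, ee_norm, mul_one, norm_mul, norm_pow, Complex.norm_real,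
    Real.norm_of_nonneg (by positivity)]
  have h2 : ((K : ℝ) / (k.1 : ℝ)) ^ i ≤ 1 := pow_le_one₀ (by positivity) ((div_le_one h0).2 h1)
  calc ((K : ℝ) / (k.1 : ℝ)) ^ i * ‖W (sl k)‖ ≤ 1 * ‖W (sl k)‖ :=
        mul_le_mul_of_nonneg_right h2 (norm_nonneg _)
    _ = ‖W (sl k)‖ := one_mul _
    _ ≤ B := hW.wb _

private theorem os_card50 {B : ℝ} {W : ℝ → ℂ} (hW : Cw B W) (φ : ℝ → ℝ) {K : ℕ} (hK : 1 ≤ K)
    {S : Finset (ℤ × ℤ)} (hS : S ⊆ oct K) (i : ℕ)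
    (R : ℝ) (c : ℝ × ℝ) : ‖os S K i W φ R c‖ ≤ B * S.card := by
  unfold os
  refine (norm_sum_le _ _).trans ?_
  refine (Finset.sum_le_card_nsmul _ _ B fun k hk => ?_).trans
    (le_of_eq (by rw [nsmul_eq_mul]; ring))
  exact term50 hW hK (mem_oct50 (hS hk)).1 i _

private theorem oct_card50 {K : ℕ} (hK : 1 ≤ K) : ((oct K).card : ℝ) ≤ 25 * (K : ℝ) ^ 2 := by
  classical
  have h1 : (oct K).card ≤ (box (2 * K)).card := by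
    unfold oct
    exact Finset.card_le_card (Finset.filter_subset _ _)
  have h2 : (box (2 * K)).card = (4 * K + 1) ^ 2 := by
    unfold box
    rw [Finset.card_product, Int.card_Icc]
    have h3 : ((2 * K : ℕ) : ℤ) + 1 - (-((2 * K : ℕ) : ℤ)) = ((4 * K + 1 : ℕ) : ℤ) := by
      push_cast
      ring
    rw [h3, Int.toNat_natCast]
    ring
  have h4 : (4 * K + 1) ^ 2 ≤ 25 * K ^ 2 := by nlinarith
  have h5 : (oct K).card ≤ 25 * K ^ 2 := by omega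
  exact_mod_cast h5

/-- the parameters -/
private theorem par50 {ε c₁ B : ℝ} (hε : 0 < ε) (hε1 : ε ≤ 1 / 1000) (hc : 0 < c₁) (hB : 1 ≤ B)
    {R₀ R : ℝ} {K : ℕ} (hR₀ : 1 ≤ R₀)
    (h1 : R₀ ≤ R) (h2 : R ≤ 2 * R₀) (h3 : R₀ ^ (1 / 4 + ε) ≤ K)
    (h4 : (K : ℝ) ≤ R₀ ^ (376 / 1000 : ℝ))
    (hM : 1536 + 512 / c₁ + 12 * B / c₁ ≤ R₀ ^ (2 * ε)) :
    ∃ (Q : ℕ) (x : ℝ), x = (R₀ * K) ^ (1 / 5 : ℝ) ∧ 1 ≤ x ∧
      x ^ 5 = R₀ * K ∧ x ≤ Q ∧ (Q : ℝ) ≤ 2 * x ∧ 1536 ≤ Q ∧ Q ≤ K ∧ (K : ℝ) ≤ (Q : ℝ) ^ 2 ∧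
      R * K ≤ 128 * (Q : ℝ) ^ 5 ∧ (Q : ℝ) ^ 5 ≤ 128 * (R * K) ∧ 512 ≤ c₁ * Q ∧ 12 * B ≤ c₁ * Q ∧
      ∀ A : ℝ, 1 ≤ A → (K * A / Q) ^ (3 / 2 : ℝ) ≤ c₁ * R / (4 * (Q / A) ^ 3) := by
  have hR0 : 0 < R₀ := by linarith
  have hK1 : (1 : ℝ) ≤ K := (Real.one_le_rpow hR₀ (by linarith)).trans h3
  have hK0 : (0 : ℝ) < K := by linarith
  have hRK : 1 ≤ R₀ * K := one_le_mul_of_one_le_of_one_le hR₀ hK1
  have hRK0 : 0 ≤ R₀ * K := by linarith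
  have hm1 : 0 ≤ 512 / c₁ := by positivity
  have hm2 : 0 ≤ 12 * B / c₁ := by positivity
  obtain ⟨x, hx⟩ : ∃ x : ℝ, x = (R₀ * K) ^ (1 / 5 : ℝ) := ⟨_, rfl⟩
  have hx1 : 1 ≤ x := by
    rw [hx]
    exact Real.one_le_rpow hRK (by norm_num)
  have hx0 : 0 < x := by linarith
  have hx5 : x ^ 5 = R₀ * K := by
    rw [hx, ← Real.rpow_natCast, ← Real.rpow_mul hRK0]
    norm_num
  have hQx : x ≤ (⌈x⌉₊ : ℝ) := Nat.le_ceil x
  have hQ2 : (⌈x⌉₊ : ℝ) ≤ 2 * x := by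
    have := Nat.ceil_lt_add_one hx0.le
    linarith
  generalize ⌈x⌉₊ = Q at hQx hQ2
  have hxM : 1536 + 512 / c₁ + 12 * B / c₁ ≤ x := by
    refine hM.trans ?_
    rw [hx]
    calc R₀ ^ (2 * ε) ≤ R₀ ^ (1 / 5 : ℝ) := Real.rpow_le_rpow_of_exponent_le hR₀ (by linarith)
      _ ≤ (R₀ * K) ^ (1 / 5 : ℝ) := Real.rpow_le_rpow hR0.le (le_mul_of_one_le_right hR0.le hK1)
        (by norm_num)
  have hK4 : 32 * R₀ ≤ (K : ℝ) ^ 4 := by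
    have e1 : (R₀ ^ (1 / 4 + ε)) ^ 4 = R₀ * (R₀ ^ (2 * ε)) ^ 2 := by
      nth_rw 2 [← Real.rpow_one R₀]
      rw [← Real.rpow_natCast, ← Real.rpow_mul hR0.le, ← Real.rpow_natCast (R₀ ^ (2 * ε)),
        ← Real.rpow_mul hR0.le, ← Real.rpow_add hR0]
      congr 1
      push_cast
      ring
    have e2 : (R₀ ^ (1 / 4 + ε)) ^ 4 ≤ (K : ℝ) ^ 4 := pow_le_pow_left₀ (by positivity) h3 4
    rw [e1] at e2
    have e3 : 32 ≤ (R₀ ^ (2 * ε)) ^ 2 := by nlinarith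
    nlinarith
  have hxK : 2 * x ≤ K := by
    have e1 : (2 * x) ^ 5 ≤ (K : ℝ) ^ 5 := by
      rw [mul_pow, hx5]
      have : (K : ℝ) ^ 5 = K ^ 4 * K := by ring
      rw [this]
      nlinarith
    exact (pow_le_pow_iff_left₀ (by positivity) hK0.le (by norm_num)).1 e1
  have hK2 : 12 * (K : ℝ) ^ (9 / 5 : ℝ) ≤ c₁ * R₀ ^ (7 / 10 : ℝ) := by
    have e1 : (K : ℝ) ^ (9 / 5 : ℝ) ≤ (R₀ ^ (376 / 1000 : ℝ)) ^ (9 / 5 : ℝ) :=
      Real.rpow_le_rpow hK0.le h4 (by norm_num)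
    have e2 : (R₀ ^ (376 / 1000 : ℝ)) ^ (9 / 5 : ℝ) * R₀ ^ (232 / 10000 : ℝ) =
        R₀ ^ (7 / 10 : ℝ) := by
      rw [← Real.rpow_mul hR0.le, ← Real.rpow_add hR0]
      norm_num
    have e3 : 12 / c₁ ≤ R₀ ^ (232 / 10000 : ℝ) := by
      calc 12 / c₁ ≤ 512 / c₁ := by gcongr; norm_num
        _ ≤ 1536 + 512 / c₁ + 12 * B / c₁ := by linarith
        _ ≤ R₀ ^ (2 * ε) := hM
        _ ≤ R₀ ^ (232 / 10000 : ℝ) := Real.rpow_le_rpow_of_exponent_le hR₀ (by linarith)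
    have e4 : 12 ≤ R₀ ^ (232 / 10000 : ℝ) * c₁ := (div_le_iff₀ hc).1 e3
    have e5 : 0 ≤ (R₀ ^ (376 / 1000 : ℝ)) ^ (9 / 5 : ℝ) := by positivity
    rw [← e2]
    calc 12 * (K : ℝ) ^ (9 / 5 : ℝ) ≤ 12 * (R₀ ^ (376 / 1000 : ℝ)) ^ (9 / 5 : ℝ) := by linarith
      _ ≤ (R₀ ^ (232 / 10000 : ℝ) * c₁) * (R₀ ^ (376 / 1000 : ℝ)) ^ (9 / 5 : ℝ) :=
        mul_le_mul_of_nonneg_right e4 e5
      _ = c₁ * ((R₀ ^ (376 / 1000 : ℝ)) ^ (9 / 5 : ℝ) * R₀ ^ (232 / 10000 : ℝ)) := by ring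
  have hKR : (K : ℝ) ^ 2 ≤ R₀ := by
    have e1 : (K : ℝ) ^ 2 ≤ (R₀ ^ (376 / 1000 : ℝ)) ^ 2 := pow_le_pow_left₀ hK0.le h4 2
    refine e1.trans ?_
    calc (R₀ ^ (376 / 1000 : ℝ)) ^ 2 = R₀ ^ ((376 / 1000 : ℝ) * 2) := by
          rw [← Real.rpow_natCast, ← Real.rpow_mul hR0.le]
          norm_num
      _ ≤ R₀ ^ (1 : ℝ) := Real.rpow_le_rpow_of_exponent_le hR₀ (by norm_num)
      _ = R₀ := Real.rpow_one _
  have hQ0 : (0 : ℝ) < Q := by linarith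
  have hQ5 : R₀ * K ≤ (Q : ℝ) ^ 5 := by
    rw [← hx5]
    exact pow_le_pow_left₀ hx0.le hQx 5
  have hQ5' : (Q : ℝ) ^ 5 ≤ 32 * (R₀ * K) := by
    rw [← hx5]
    calc (Q : ℝ) ^ 5 ≤ (2 * x) ^ 5 := pow_le_pow_left₀ hQ0.le hQ2 5
      _ = 32 * x ^ 5 := by ring
  have hK32 : (K : ℝ) ^ 3 ≤ R₀ ^ 2 := by
    calc (K : ℝ) ^ 3 ≤ (K : ℝ) ^ 4 := pow_le_pow_right₀ hK1 (by norm_num)
      _ = ((K : ℝ) ^ 2) ^ 2 := by ring
      _ ≤ R₀ ^ 2 := pow_le_pow_left₀ (by positivity) hKR 2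
  have hcQ : 512 + 12 * B ≤ c₁ * Q := by
    have e1 : 512 / c₁ + 12 * B / c₁ ≤ Q := by linarith
    have e2 : 512 / c₁ + 12 * B / c₁ = (512 + 12 * B) / c₁ := by ring
    rw [e2, div_le_iff₀ hc] at e1
    linarith
  refine ⟨Q, x, hx, hx1, hx5, hQx, hQ2, ?_, ?_, ?_, ?_, ?_, by linarith, by linarith, ?_⟩
  · have : (1536 : ℝ) ≤ Q := by linarith
    exact_mod_cast this
  · have : (Q : ℝ) ≤ K := hQ2.trans hxK
    exact_mod_cast this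
  · have e1 : (K : ℝ) ^ 5 ≤ ((Q : ℝ) ^ 2) ^ 5 := by
      calc (K : ℝ) ^ 5 = (K : ℝ) ^ 3 * (K : ℝ) ^ 2 := by ring
        _ ≤ R₀ ^ 2 * (K : ℝ) ^ 2 := mul_le_mul_of_nonneg_right hK32 (by positivity)
        _ = (R₀ * K) ^ 2 := by ring
        _ ≤ ((Q : ℝ) ^ 5) ^ 2 := pow_le_pow_left₀ hRK0 hQ5 2
        _ = ((Q : ℝ) ^ 2) ^ 5 := by ring
    exact (pow_le_pow_iff_left₀ hK0.le (by positivity) (by norm_num)).1 e1
  · nlinarith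
  · nlinarith
  · intro A hA
    have hA0 : 0 < A := by linarith
    have e1 : 4 * ((K : ℝ) ^ (3 / 2 : ℝ) * (Q : ℝ) ^ (3 / 2 : ℝ)) ≤ c₁ * R₀ := by
      have e2 : (Q : ℝ) ^ (3 / 2 : ℝ) ≤ 3 * (R₀ ^ (3 / 10 : ℝ) * (K : ℝ) ^ (3 / 10 : ℝ)) := by
        have e3 : (Q : ℝ) ^ (3 / 2 : ℝ) = ((Q : ℝ) ^ 5) ^ (3 / 10 : ℝ) := by
          rw [← Real.rpow_natCast, ← Real.rpow_mul hQ0.le]
          norm_num
        have e4 : (32 : ℝ) ^ (3 / 10 : ℝ) ≤ 3 := by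
          calc (32 : ℝ) ^ (3 / 10 : ℝ) = ((32 : ℝ) ^ 3) ^ (1 / 10 : ℝ) := by
                rw [← Real.rpow_natCast, ← Real.rpow_mul (by norm_num)]
                norm_num
            _ ≤ ((3 : ℝ) ^ 10) ^ (1 / 10 : ℝ) := Real.rpow_le_rpow (by norm_num) (by norm_num) (by norm_num)
            _ = 3 := by
                rw [← Real.rpow_natCast, ← Real.rpow_mul (by norm_num)]
                norm_num
        calc (Q : ℝ) ^ (3 / 2 : ℝ) = ((Q : ℝ) ^ 5) ^ (3 / 10 : ℝ) := e3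
          _ ≤ (32 * (R₀ * K)) ^ (3 / 10 : ℝ) := Real.rpow_le_rpow (by positivity) hQ5' (by norm_num)
          _ = 32 ^ (3 / 10 : ℝ) * (R₀ ^ (3 / 10 : ℝ) * (K : ℝ) ^ (3 / 10 : ℝ)) := by
            rw [Real.mul_rpow (by norm_num) hRK0, Real.mul_rpow hR0.le hK0.le]
          _ ≤ 3 * (R₀ ^ (3 / 10 : ℝ) * (K : ℝ) ^ (3 / 10 : ℝ)) :=
            mul_le_mul_of_nonneg_right e4 (by positivity)
      calc 4 * ((K : ℝ) ^ (3 / 2 : ℝ) * (Q : ℝ) ^ (3 / 2 : ℝ))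
          ≤ 4 * ((K : ℝ) ^ (3 / 2 : ℝ) * (3 * (R₀ ^ (3 / 10 : ℝ) * (K : ℝ) ^ (3 / 10 : ℝ)))) :=
            mul_le_mul_of_nonneg_left (mul_le_mul_of_nonneg_left e2 (by positivity)) (by norm_num)
        _ = 12 * ((K : ℝ) ^ (3 / 2 : ℝ) * (K : ℝ) ^ (3 / 10 : ℝ)) * R₀ ^ (3 / 10 : ℝ) := by ring
        _ = 12 * (K : ℝ) ^ (9 / 5 : ℝ) * R₀ ^ (3 / 10 : ℝ) := by
            rw [← Real.rpow_add hK0]
            norm_num
        _ ≤ (c₁ * R₀ ^ (7 / 10 : ℝ)) * R₀ ^ (3 / 10 : ℝ) :=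
            mul_le_mul_of_nonneg_right hK2 (by positivity)
        _ = c₁ * (R₀ ^ (7 / 10 : ℝ) * R₀ ^ (3 / 10 : ℝ)) := by ring
        _ = c₁ * R₀ := by
            rw [← Real.rpow_add hR0]
            norm_num
    have e2 : (K * A / Q : ℝ) ^ (3 / 2 : ℝ) =
        (K : ℝ) ^ (3 / 2 : ℝ) * A ^ (3 / 2 : ℝ) / (Q : ℝ) ^ (3 / 2 : ℝ) := by
      rw [Real.div_rpow (by positivity) hQ0.le, Real.mul_rpow hK0.le hA0.le]
    have e3 : A ^ (3 / 2 : ℝ) ≤ A ^ 3 := by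
      rw [← Real.rpow_natCast]
      exact Real.rpow_le_rpow_of_exponent_le hA (by norm_num)
    have e4 : (Q : ℝ) ^ 3 = (Q : ℝ) ^ (3 / 2 : ℝ) * (Q : ℝ) ^ (3 / 2 : ℝ) := by
      rw [← Real.rpow_add hQ0]
      norm_num
    have e5 : c₁ * R / (4 * (Q / A) ^ 3) = c₁ * R * A ^ 3 / (4 * (Q : ℝ) ^ 3) := by
      field_simp
    have hQ7 : 0 < (Q : ℝ) ^ (3 / 2 : ℝ) := Real.rpow_pos_of_pos hQ0 _
    rw [e2, e5, e4, div_le_div_iff₀ hQ7 (by positivity)]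
    have hA3 : 0 < A ^ 3 := by positivity
    have e6 : 4 * ((K : ℝ) ^ (3 / 2 : ℝ) * (Q : ℝ) ^ (3 / 2 : ℝ)) ≤ c₁ * R :=
      e1.trans (mul_le_mul_of_nonneg_left h1 hc.le)
    calc (K : ℝ) ^ (3 / 2 : ℝ) * A ^ (3 / 2 : ℝ) * (4 * ((Q : ℝ) ^ (3 / 2 : ℝ) * (Q : ℝ) ^ (3 / 2 : ℝ)))
        ≤ (K : ℝ) ^ (3 / 2 : ℝ) * A ^ 3 * (4 * ((Q : ℝ) ^ (3 / 2 : ℝ) * (Q : ℝ) ^ (3 / 2 : ℝ))) := by
          refine mul_le_mul_of_nonneg_right ?_ (by positivity)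
          exact mul_le_mul_of_nonneg_left e3 (by positivity)
      _ = (4 * ((K : ℝ) ^ (3 / 2 : ℝ) * (Q : ℝ) ^ (3 / 2 : ℝ))) * (A ^ 3 * (Q : ℝ) ^ (3 / 2 : ℝ)) := by
          ring
      _ ≤ c₁ * R * (A ^ 3 * (Q : ℝ) ^ (3 / 2 : ℝ)) := mul_le_mul_of_nonneg_right e6 (by positivity)
      _ = c₁ * R * A ^ 3 * (Q : ℝ) ^ (3 / 2 : ℝ) := by ring

open Classical in
/-- the classes -/
private noncomputable def En50 (K Q : ℕ) (f : ℤ × ℤ → ℤ × ℤ) (m : ℕ) : Finset (ℤ × ℤ) :=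
  (oct K).filter fun k => ((f k).1 : ℝ) ≤ Q / 2 ^ m

open Classical in
private noncomputable def On50 (K Q : ℕ) (f : ℤ × ℤ → ℤ × ℤ) (m : ℕ) : Finset (ℤ × ℤ) :=
  (oct K).filter fun k => (Q : ℝ) / 2 ^ (m + 1) < ((f k).1 : ℝ) ∧ ((f k).1 : ℝ) ≤ Q / 2 ^ m

private theorem split50 (K Q : ℕ) (f : ℤ × ℤ → ℤ × ℤ) (i : ℕ) (W : ℝ → ℂ) (φ : ℝ → ℝ) (R : ℝ)
    (c : ℝ × ℝ) (m : ℕ) :
    os (En50 K Q f m) K i W φ R c =
      os (En50 K Q f (m + 1)) K i W φ R c + os (On50 K Q f m) K i W φ R c := by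
  classical
  unfold os
  rw [← Finset.sum_filter_add_sum_filter_not (En50 K Q f m)
    (fun k => ((f k).1 : ℝ) ≤ Q / 2 ^ (m + 1))]
  have hle : (Q : ℝ) / 2 ^ (m + 1) ≤ Q / 2 ^ m :=
    div_le_div_of_nonneg_left (Nat.cast_nonneg Q) (by positivity)
      (pow_le_pow_right₀ one_le_two (Nat.le_succ m))
  congr 1
  · refine Finset.sum_congr ?_ fun _ _ => rfl
    ext k
    unfold En50
    rw [Finset.mem_filter, Finset.mem_filter, Finset.mem_filter]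
    exact ⟨fun h => ⟨h.1.1, h.2⟩, fun h => ⟨⟨h.1, h.2.trans hle⟩, h.2⟩⟩
  · refine Finset.sum_congr ?_ fun _ _ => rfl
    ext k
    unfold En50 On50
    rw [Finset.mem_filter, Finset.mem_filter, Finset.mem_filter, not_le]
    exact ⟨fun h => ⟨h.1.1, h.2, h.1.2⟩, fun h => ⟨⟨h.1, h.2.2⟩, h.2.1⟩⟩

private theorem splits50 {K Q : ℕ} {f : ℤ × ℤ → ℤ × ℤ} (hf : ∀ k ∈ oct K, ((f k).1 : ℝ) ≤ Q)
    (i : ℕ) (W : ℝ → ℂ) (φ : ℝ → ℝ) (R : ℝ) (c : ℝ × ℝ) (m : ℕ) :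
    os (oct K) K i W φ R c = os (En50 K Q f m) K i W φ R c +
      ∑ j ∈ Finset.range m, os (On50 K Q f j) K i W φ R c := by
  classical
  induction m with
  | zero =>
    rw [Finset.sum_range_zero, add_zero]
    congr 1
    unfold En50
    rw [pow_zero, div_one]
    exact (Finset.filter_true_of_mem hf).symm
  | succ m ih =>
    rw [ih, split50, Finset.sum_range_succ]
    ring

private theorem fib50 {K Q : ℕ} (hQ : 3 ≤ Q) (hK : 1 ≤ K) {f : ℤ × ℤ → ℤ × ℤ}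
    (hf : ∀ k ∈ oct K, IsNd Q k (f k)) (i : ℕ) (W : ℝ → ℂ) (φ : ℝ → ℝ) (R : ℝ) (c : ℝ × ℝ) (j : ℕ) :
    ∃ V : Finset (ℤ × ℤ), (∀ n ∈ V, Good (Q / 2 ^ j) n) ∧
      ‖os (On50 K Q f j) K i W φ R c‖ ≤ ∑ n ∈ V, ‖os (sec K Q n) K i W φ R c‖ := by
  classical
  refine ⟨(On50 K Q f j).image f, ?_, ?_⟩
  · intro n hn
    obtain ⟨k, hk, rfl⟩ := Finset.mem_image.1 hn
    unfold On50 at hk
    obtain ⟨hk1, hk2, hk3⟩ := Finset.mem_filter.1 hk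
    obtain ⟨h1, -, h3, h4⟩ := mem_oct50 hk1
    have h5 := nd_range hQ (by omega) h3 h4 (hf k hk1)
    refine ⟨nd_coprime (hf k hk1), ?_, hk3, h5.1, h5.2.1⟩
    rw [pow_succ, ← div_div] at hk2
    exact hk2
  · have h1 : os (On50 K Q f j) K i W φ R c =
        ∑ n ∈ (On50 K Q f j).image f, os (sec K Q n) K i W φ R c := by
      unfold os
      rw [← Finset.sum_fiberwise_of_maps_to (s := On50 K Q f j) (t := (On50 K Q f j).image f)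
        (g := f) (fun k hk => Finset.mem_image_of_mem f hk)]
      refine Finset.sum_congr rfl fun n hn => ?_
      refine Finset.sum_congr ?_ fun _ _ => rfl
      obtain ⟨k₀, hk₀, rfl⟩ := Finset.mem_image.1 hn
      unfold On50 at hk₀
      obtain ⟨-, h2⟩ := Finset.mem_filter.1 hk₀
      ext k
      unfold On50 sec
      rw [Finset.mem_filter, Finset.mem_filter, Finset.mem_filter]
      constructor
      · rintro ⟨⟨h3, -⟩, h4⟩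
        refine ⟨h3, ?_⟩
        rw [← h4]
        exact hf k h3
      · rintro ⟨h3, h4⟩
        have h5 := (mem_oct50 h3).1
        have h6 : f k = f k₀ := nd_unique hQ (by omega) (hf k h3) h4
        refine ⟨⟨h3, ?_⟩, h6⟩
        rw [h6]
        exact h2
    rw [h1]
    exact norm_sum_le _ _

/-- one class -/
private theorem cls50 {ε C₁ : ℝ} (hε : 0 < ε) (hC₁ : 0 < C₁) {R₀ R x S : ℝ} {K Q : ℕ}
    (hR₀ : 1 ≤ R₀) (h1 : R₀ ≤ R) (h2 : R ≤ 2 * R₀) (hK : (1 : ℝ) ≤ K) (hKR : (K : ℝ) ≤ R₀)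
    (hx : x = (R₀ * K) ^ (1 / 5 : ℝ)) (hx1 : 1 ≤ x) (hx5 : x ^ 5 = R₀ * K) (hQx : x ≤ Q)
    (hS : S ^ 6 ≤ C₁ * (K : ℝ) ^ ε * (R * (K : ℝ) ^ 9 / Q)) :
    S ≤ (1 + 16 * C₁) * R₀ ^ (ε / 6) * ((K : ℝ) ^ (4 / 3 : ℝ) * (R₀ * K) ^ (2 / 15 : ℝ)) := by
  have hR0 : 0 < R₀ := by linarith
  have hRp : 0 < R := by linarith
  have hK0 : (0 : ℝ) < K := by linarith
  have hx0 : 0 < x := by linarith
  have hRK0 : 0 ≤ R₀ * K := by positivity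
  have hpos : 0 ≤ (1 + 16 * C₁) * R₀ ^ (ε / 6) *
      ((K : ℝ) ^ (4 / 3 : ℝ) * (R₀ * K) ^ (2 / 15 : ℝ)) := by positivity
  have e6 : ((1 + 16 * C₁) * R₀ ^ (ε / 6) *
      ((K : ℝ) ^ (4 / 3 : ℝ) * (R₀ * K) ^ (2 / 15 : ℝ))) ^ 6 =
      (1 + 16 * C₁) ^ 6 * R₀ ^ ε * ((K : ℝ) ^ 8 * x ^ 4) := by
    have a1 : (R₀ ^ (ε / 6)) ^ 6 = R₀ ^ ε := by
      rw [← Real.rpow_natCast, ← Real.rpow_mul hR0.le]
      congr 1
      push_cast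
      ring
    have a2 : ((K : ℝ) ^ (4 / 3 : ℝ)) ^ 6 = (K : ℝ) ^ 8 := by
      rw [← Real.rpow_natCast, ← Real.rpow_mul hK0.le, ← Real.rpow_natCast]
      norm_num
    have a3 : ((R₀ * K) ^ (2 / 15 : ℝ)) ^ 6 = x ^ 4 := by
      rw [hx, ← Real.rpow_natCast, ← Real.rpow_mul hRK0, ← Real.rpow_natCast,
        ← Real.rpow_mul hRK0]
      norm_num
    rw [mul_pow, mul_pow, mul_pow, a1, a2, a3]
  by_contra hcon
  push Not at hcon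
  have h6 := pow_lt_pow_left₀ hcon hpos (n := 6) (by norm_num)
  rw [e6] at h6
  have h7 := h6.trans_le hS
  refine absurd h7 (not_lt.2 ?_)
  have b1 : (K : ℝ) ^ ε ≤ R₀ ^ ε := Real.rpow_le_rpow hK0.le hKR hε.le
  have b2 : R * (K : ℝ) ^ 9 / Q ≤ 2 * ((K : ℝ) ^ 8 * x ^ 4) := by
    rw [div_le_iff₀ (by linarith)]
    calc R * (K : ℝ) ^ 9 ≤ 2 * R₀ * (K : ℝ) ^ 9 := mul_le_mul_of_nonneg_right h2 (by positivity)
      _ = 2 * ((K : ℝ) ^ 8 * (R₀ * K)) := by ring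
      _ = 2 * ((K : ℝ) ^ 8 * x ^ 4) * x := by rw [← hx5]; ring
      _ ≤ 2 * ((K : ℝ) ^ 8 * x ^ 4) * Q := mul_le_mul_of_nonneg_left hQx (by positivity)
  have b4 : 2 * C₁ ≤ (1 + 16 * C₁) ^ 6 := by
    have c1 : 1 ≤ 1 + 16 * C₁ := by linarith
    calc 2 * C₁ ≤ 1 + 16 * C₁ := by linarith
      _ = (1 + 16 * C₁) ^ 1 := (pow_one _).symm
      _ ≤ (1 + 16 * C₁) ^ 6 := pow_le_pow_right₀ c1 (by norm_num)
  calc C₁ * (K : ℝ) ^ ε * (R * (K : ℝ) ^ 9 / Q)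
      ≤ C₁ * R₀ ^ ε * (2 * ((K : ℝ) ^ 8 * x ^ 4)) := by
        gcongr
    _ = 2 * C₁ * R₀ ^ ε * ((K : ℝ) ^ 8 * x ^ 4) := by ring
    _ ≤ (1 + 16 * C₁) ^ 6 * R₀ ^ ε * ((K : ℝ) ^ 8 * x ^ 4) := by
        gcongr

/-- the rest -/
private theorem rest50 {C₂ : ℝ} (hC₂ : 0 < C₂) {R₀ x V : ℝ} {K Q : ℕ} {b : ℝ} (hR₀ : 1 ≤ R₀)
    (hK : (1 : ℝ) ≤ K) (hx : x = (R₀ * K) ^ (1 / 5 : ℝ)) (hx1 : 1 ≤ x) (hQx : x ≤ Q)
    (hQ2 : (Q : ℝ) ≤ 2 * x) (hV : V = ((K : ℝ) / Q) ^ (2 / 3 : ℝ)) (hb : V ≤ b) :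
    C₂ * (K : ℝ) ^ 2 * (Q / b) / Q ≤ 2 * C₂ *
      ((K : ℝ) ^ (4 / 3 : ℝ) * (R₀ * K) ^ (2 / 15 : ℝ)) := by
  have hR0 : 0 < R₀ := by linarith
  have hK0 : (0 : ℝ) < K := by linarith
  have hx0 : 0 < x := by linarith
  have hQ0 : (0 : ℝ) < Q := by linarith
  have hRK0 : 0 ≤ R₀ * K := by positivity
  have hV0 : 0 < V := by
    rw [hV]
    positivity
  have hb0 : 0 < b := by linarith
  have e1 : C₂ * (K : ℝ) ^ 2 * (Q / b) / Q = C₂ * ((K : ℝ) ^ 2 / b) := by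
    field_simp
  have e2 : (K : ℝ) ^ 2 / b ≤ (K : ℝ) ^ 2 / V := div_le_div_of_nonneg_left (by positivity) hV0 hb
  have e3 : (K : ℝ) ^ 2 / V = (K : ℝ) ^ (4 / 3 : ℝ) * (Q : ℝ) ^ (2 / 3 : ℝ) := by
    rw [div_eq_iff hV0.ne', hV, Real.div_rpow hK0.le hQ0.le]
    have hQ3 : (Q : ℝ) ^ (2 / 3 : ℝ) ≠ 0 := (Real.rpow_pos_of_pos hQ0 _).ne'
    have e4 : (K : ℝ) ^ 2 = (K : ℝ) ^ (4 / 3 : ℝ) * (K : ℝ) ^ (2 / 3 : ℝ) := by
      rw [← Real.rpow_add hK0]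
      norm_num
    rw [e4]
    field_simp
  have e5 : (Q : ℝ) ^ (2 / 3 : ℝ) ≤ 2 * (R₀ * K) ^ (2 / 15 : ℝ) := by
    have c1 : x ^ (2 / 3 : ℝ) = (R₀ * K) ^ (2 / 15 : ℝ) := by
      rw [hx, ← Real.rpow_mul hRK0]
      norm_num
    have c2 : (2 : ℝ) ^ (2 / 3 : ℝ) ≤ 2 := by
      calc (2 : ℝ) ^ (2 / 3 : ℝ) ≤ (2 : ℝ) ^ (1 : ℝ) :=
            Real.rpow_le_rpow_of_exponent_le (by norm_num) (by norm_num)
        _ = 2 := Real.rpow_one 2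
    calc (Q : ℝ) ^ (2 / 3 : ℝ) ≤ (2 * x) ^ (2 / 3 : ℝ) := Real.rpow_le_rpow hQ0.le hQ2 (by norm_num)
      _ = 2 ^ (2 / 3 : ℝ) * x ^ (2 / 3 : ℝ) := Real.mul_rpow (by norm_num) hx0.le
      _ ≤ 2 * (R₀ * K) ^ (2 / 15 : ℝ) := by
        rw [c1]
        exact mul_le_mul_of_nonneg_right c2 (by positivity)
  rw [e1]
  calc C₂ * ((K : ℝ) ^ 2 / b) ≤ C₂ * ((K : ℝ) ^ (4 / 3 : ℝ) * (Q : ℝ) ^ (2 / 3 : ℝ)) := by
        rw [← e3]
        exact mul_le_mul_of_nonneg_left e2 hC₂.le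
    _ ≤ C₂ * ((K : ℝ) ^ (4 / 3 : ℝ) * (2 * (R₀ * K) ^ (2 / 15 : ℝ))) := by
        gcongr
    _ = 2 * C₂ * ((K : ℝ) ^ (4 / 3 : ℝ) * (R₀ * K) ^ (2 / 15 : ℝ)) := by ring

theorem oct_gen {ε c₁ B : ℝ} (hε : 0 < ε) (hε1 : ε ≤ 1 / 1000) (hc : 0 < c₁) (hB : 1 ≤ B) : ∃ C : ℝ, 0 < C ∧
    ∀ (φ : ℝ → ℝ) (W : ℝ → ℂ), Cn c₁ B φ → Cw B W → ∀ (R₀ R : ℝ) (K : ℕ), 1 ≤ R₀ → R₀ ≤ R → R ≤ 2 * R₀ →
    R₀ ^ (1 / 4 + ε) ≤ K → (K : ℝ) ≤ R₀ ^ (376 / 1000 : ℝ) → ∀ i : ℕ, (i = 1 ∨ i = 2) → ∀ c : ℝ × ℝ,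
      ‖os (oct K) K i W φ R c‖ ≤ C * R₀ ^ ε * (K : ℝ) ^ (4 / 3 : ℝ) * (R₀ * K) ^ (2 / 15 : ℝ) := by
  classical
  obtain ⟨C₁, hC₁, hcls⟩ := class_bound' hε hc hB 128
  obtain ⟨C₂, hC₂, hsm⟩ := small_q
  have hB0 : 0 < B := by linarith
  obtain ⟨m, hm⟩ : ∃ m : ℝ, m = 1536 + 512 / c₁ + 12 * B / c₁ := ⟨_, rfl⟩
  have hm0 : 0 < m := by
    rw [hm]
    positivity
  refine ⟨(4 / ε + 1) * (1 + 16 * C₁) + 2 * B * C₂ + 25 * B * m ^ (1 / (2 * ε)), by positivity, ?_⟩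
  intro φ W hφ hW R₀ R K hR₀ h1 h2 h3 h4 i hi c
  have hR0 : 0 < R₀ := by linarith
  have hK1 : (1 : ℝ) ≤ K := (Real.one_le_rpow hR₀ (by linarith)).trans h3
  have hKn : 1 ≤ K := by exact_mod_cast hK1
  have hK0 : (0 : ℝ) < K := by linarith
  obtain ⟨M, hM⟩ : ∃ M : ℝ, M = (K : ℝ) ^ (4 / 3 : ℝ) * (R₀ * K) ^ (2 / 15 : ℝ) := ⟨_, rfl⟩
  have hM1 : 1 ≤ M := by
    rw [hM]
    have a1 : 1 ≤ (K : ℝ) ^ (4 / 3 : ℝ) := Real.one_le_rpow hK1 (by norm_num)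
    have a2 : 1 ≤ (R₀ * K) ^ (2 / 15 : ℝ) :=
      Real.one_le_rpow (one_le_mul_of_one_le_of_one_le hR₀ hK1) (by norm_num)
    exact one_le_mul_of_one_le_of_one_le a1 a2
  have hRe : 1 ≤ R₀ ^ ε := Real.one_le_rpow hR₀ hε.le
  have hgoal : ‖os (oct K) K i W φ R c‖ ≤ ((4 / ε + 1) * (1 + 16 * C₁) + 2 * B * C₂ +
      25 * B * m ^ (1 / (2 * ε))) * R₀ ^ ε * M := by
    by_cases hBm : m ≤ R₀ ^ (2 * ε)
    · obtain ⟨Q, x, hx, hx1, hx5, hQx, hQ2, hQ, hQK, hKQ, hq1, hq2, hq3, hq4, hA⟩ :=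
        par50 hε hε1 hc hB hR₀ h1 h2 h3 h4 (by rw [← hm]; exact hBm)
      have hQ0 : (0 : ℝ) < Q := by linarith
      have hT1 : 1 ≤ (K : ℝ) / Q := by
        rw [one_le_div hQ0]
        exact_mod_cast hQK
      have hTQ : (K : ℝ) / Q ≤ Q := by
        rw [div_le_iff₀ hQ0, ← sq]
        exact hKQ
      obtain ⟨V, hV⟩ : ∃ V : ℝ, V = ((K : ℝ) / Q) ^ (2 / 3 : ℝ) := ⟨_, rfl⟩
      have hV1 : 1 ≤ V := by
        rw [hV]
        exact Real.one_le_rpow hT1 (by norm_num)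
      have hVT : V ≤ (K : ℝ) / Q := by
        rw [hV]
        nth_rw 2 [← Real.rpow_one ((K : ℝ) / Q)]
        exact Real.rpow_le_rpow_of_exponent_le hT1 (by norm_num)
      have hV4 : V ^ 4 ≤ (Q : ℝ) ^ 3 := by
        calc V ^ 4 = ((K : ℝ) / Q) ^ (8 / 3 : ℝ) := by
              rw [hV, ← Real.rpow_natCast, ← Real.rpow_mul (by positivity)]
              norm_num
          _ ≤ ((K : ℝ) / Q) ^ (3 : ℝ) := Real.rpow_le_rpow_of_exponent_le hT1 (by norm_num)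
          _ = ((K : ℝ) / Q) ^ 3 := by
              rw [← Real.rpow_natCast]
              norm_num
          _ ≤ (Q : ℝ) ^ 3 := pow_le_pow_left₀ (by positivity) hTQ 3
      obtain ⟨I, hI1, hI2⟩ := exists_nat_pow_near hV1 (one_lt_two (α := ℝ))
      have hKR : (K : ℝ) ≤ R₀ := by
        refine h4.trans ?_
        nth_rw 2 [← Real.rpow_one R₀]
        exact Real.rpow_le_rpow_of_exponent_le hR₀ (by norm_num)
      have hex : ∀ k ∈ oct K, ∃ n, IsNd Q k n ∧ n.1 ≤ Q := by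
        intro k hk
        obtain ⟨a1, -, a3, a4⟩ := mem_oct50 hk
        exact nd_exists (by omega) (by omega) a3 a4
      choose! f hf using hex
      have hfQ : ∀ k ∈ oct K, ((f k).1 : ℝ) ≤ Q := by
        intro k hk
        exact_mod_cast (hf k hk).2
      rw [splits50 hfQ i W φ R c (I + 1)]
      have hcl : ∀ j ∈ Finset.range (I + 1), ‖os (On50 K Q f j) K i W φ R c‖ ≤
          (1 + 16 * C₁) * R₀ ^ (ε / 6) * M := by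
        intro j hj
        obtain ⟨V', hW1, hW2⟩ := fib50 (by omega) hKn (fun k hk => (hf k hk).1) i W φ R c j
        refine hW2.trans ?_
        have hAV : (2 : ℝ) ^ j ≤ V :=
          (pow_le_pow_right₀ one_le_two (Nat.lt_succ_iff.1 (Finset.mem_range.1 hj))).trans hI1
        have hA1 : (1 : ℝ) ≤ 2 ^ j := one_le_pow₀ one_le_two
        rw [hM]
        refine cls50 hε hC₁ hR₀ h1 h2 hK1 hKR hx hx1 hx5 hQx ?_
        exact hcls φ W hφ hW K Q (2 ^ j) R (by omega) hQK hA1 (by linarith) hq4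
          ((hAV.trans hVT).trans hTQ)
          ((pow_le_pow_left₀ (by positivity) hAV 4).trans hV4) (by linarith) hq1 hq2
          (hA _ hA1) i hi c V' hW1
      have hsum : ‖∑ j ∈ Finset.range (I + 1), os (On50 K Q f j) K i W φ R c‖ ≤
          ((I : ℝ) + 1) * ((1 + 16 * C₁) * R₀ ^ (ε / 6) * M) := by
        refine (norm_sum_le _ _).trans ((Finset.sum_le_card_nsmul _ _ _ hcl).trans (le_of_eq ?_))
        rw [Finset.card_range, nsmul_eq_mul]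
        push_cast
        ring
      have hsub : En50 K Q f (I + 1) ⊆ oct K := Finset.filter_subset _ _
      have hcard : ((En50 K Q f (I + 1)).card : ℝ) ≤ 2 * C₂ * M := by
        by_cases hP : 1 ≤ (Q : ℝ) / 2 ^ (I + 1)
        · refine (hsm K Q ((Q : ℝ) / 2 ^ (I + 1)) (by omega) hQK hP _ ?_).trans ?_
          · intro k hk
            have hk' := hk
            unfold En50 at hk'
            obtain ⟨a1, a2⟩ := Finset.mem_filter.1 hk'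
            obtain ⟨b1, b2, b3, b4⟩ := mem_oct50 a1
            exact ⟨b1, b2, b3, b4, f k, (hf k a1).1, a2⟩
          · rw [hM]
            exact rest50 hC₂ hR₀ hK1 hx hx1 hQx hQ2 hV hI2.le
        · have hem : En50 K Q f (I + 1) = ∅ := by
            rw [Finset.eq_empty_iff_forall_notMem]
            intro k hk
            unfold En50 at hk
            obtain ⟨a1, a2⟩ := Finset.mem_filter.1 hk
            apply hP
            refine le_trans ?_ a2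
            exact_mod_cast (hf k a1).1.1
          rw [hem, Finset.card_empty, Nat.cast_zero]
          positivity
      have hrest : ‖os (En50 K Q f (I + 1)) K i W φ R c‖ ≤ 2 * B * C₂ * M := by
        refine (os_card50 hW φ hKn hsub i R c).trans ?_
        calc B * ((En50 K Q f (I + 1)).card : ℝ) ≤ B * (2 * C₂ * M) :=
              mul_le_mul_of_nonneg_left hcard hB0.le
          _ = 2 * B * C₂ * M := by ring
      have hIR : (I : ℝ) + 1 ≤ (4 / ε + 1) * R₀ ^ (ε / 2) := by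
        have a1 : (2 : ℝ) ^ I ≤ R₀ := by
          refine hI1.trans (hVT.trans (le_trans ?_ hKR))
          exact div_le_self hK0.le (by linarith)
        have a2 : (I : ℝ) * Real.log 2 ≤ Real.log R₀ := by
          rw [← Real.log_pow]
          exact Real.log_le_log (by positivity) a1
        have a3 : Real.log R₀ ≤ R₀ ^ (ε / 2) / (ε / 2) := Real.log_le_rpow_div hR0.le (by positivity)
        have a4 : 1 / 2 ≤ Real.log 2 := by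
          have := Real.log_two_gt_d9
          linarith
        have a5 : 1 ≤ R₀ ^ (ε / 2) := Real.one_le_rpow hR₀ (by positivity)
        have a6 : (I : ℝ) * (1 / 2) ≤ R₀ ^ (ε / 2) / (ε / 2) :=
          (mul_le_mul_of_nonneg_left a4 (Nat.cast_nonneg I)).trans (a2.trans a3)
        have a7 : R₀ ^ (ε / 2) / (ε / 2) = 2 / ε * R₀ ^ (ε / 2) := by
          field_simp
        rw [a7] at a6
        have a8 : (4 / ε + 1) * R₀ ^ (ε / 2) = 2 * (2 / ε * R₀ ^ (ε / 2)) + R₀ ^ (ε / 2) := by ring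
        rw [a8]
        linarith
      have hexp : R₀ ^ (ε / 2) * R₀ ^ (ε / 6) ≤ R₀ ^ ε := by
        rw [← Real.rpow_add hR0]
        exact Real.rpow_le_rpow_of_exponent_le hR₀ (by linarith)
      have hM0 : 0 ≤ M := by linarith
      calc ‖os (En50 K Q f (I + 1)) K i W φ R c +
            ∑ j ∈ Finset.range (I + 1), os (On50 K Q f j) K i W φ R c‖
          ≤ 2 * B * C₂ * M + ((I : ℝ) + 1) * ((1 + 16 * C₁) * R₀ ^ (ε / 6) * M) :=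
            (norm_add_le _ _).trans (add_le_add hrest hsum)
        _ ≤ 2 * B * C₂ * M + (4 / ε + 1) * R₀ ^ (ε / 2) * ((1 + 16 * C₁) * R₀ ^ (ε / 6) * M) := by
            gcongr
        _ = 2 * B * C₂ * 1 * M + (4 / ε + 1) * (1 + 16 * C₁) * (R₀ ^ (ε / 2) * R₀ ^ (ε / 6)) * M := by
            ring
        _ ≤ 2 * B * C₂ * R₀ ^ ε * M + (4 / ε + 1) * (1 + 16 * C₁) * R₀ ^ ε * M := by
            gcongr
        _ = ((4 / ε + 1) * (1 + 16 * C₁) + 2 * B * C₂) * (R₀ ^ ε * M) := by ring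
        _ ≤ ((4 / ε + 1) * (1 + 16 * C₁) + 2 * B * C₂ + 25 * B * m ^ (1 / (2 * ε))) *
            (R₀ ^ ε * M) := by
            refine mul_le_mul_of_nonneg_right ?_ (by positivity)
            have : 0 ≤ 25 * B * m ^ (1 / (2 * ε)) := by positivity
            linarith
        _ = _ := by ring
    · push Not at hBm
      have a1 : R₀ ≤ m ^ (1 / (2 * ε)) := by
        have e1 : R₀ = (R₀ ^ (2 * ε)) ^ (1 / (2 * ε)) := by
          rw [← Real.rpow_mul hR0.le, mul_one_div_cancel (by positivity), Real.rpow_one]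
        rw [e1]
        exact Real.rpow_le_rpow (by positivity) hBm.le (by positivity)
      have a2 : (K : ℝ) ^ 2 ≤ R₀ := by
        calc (K : ℝ) ^ 2 ≤ (R₀ ^ (376 / 1000 : ℝ)) ^ 2 := pow_le_pow_left₀ hK0.le h4 2
          _ = R₀ ^ ((376 / 1000 : ℝ) * 2) := by
              rw [← Real.rpow_natCast, ← Real.rpow_mul hR0.le]
              norm_num
          _ ≤ R₀ ^ (1 : ℝ) := Real.rpow_le_rpow_of_exponent_le hR₀ (by norm_num)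
          _ = R₀ := Real.rpow_one _
      have a3 : ‖os (oct K) K i W φ R c‖ ≤ B * (25 * (K : ℝ) ^ 2) :=
        (os_card50 hW φ hKn (Finset.Subset.refl (oct K)) i R c).trans
          (mul_le_mul_of_nonneg_left (oct_card50 hKn) hB0.le)
      have a4 : (1 : ℝ) ≤ R₀ ^ ε * M := one_le_mul_of_one_le_of_one_le hRe hM1
      calc ‖os (oct K) K i W φ R c‖ ≤ B * (25 * (K : ℝ) ^ 2) := a3
        _ ≤ B * (25 * m ^ (1 / (2 * ε))) := by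
            refine mul_le_mul_of_nonneg_left ?_ hB0.le
            linarith
        _ ≤ (4 / ε + 1) * (1 + 16 * C₁) + 2 * B * C₂ + 25 * B * m ^ (1 / (2 * ε)) := by
            have : 0 ≤ (4 / ε + 1) * (1 + 16 * C₁) + 2 * B * C₂ := by positivity
            linarith
        _ ≤ ((4 / ε + 1) * (1 + 16 * C₁) + 2 * B * C₂ + 25 * B * m ^ (1 / (2 * ε))) *
            (R₀ ^ ε * M) :=
            le_mul_of_one_le_right (by positivity) a4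
        _ = _ := by ring
  rw [hM] at hgoal
  refine hgoal.trans (le_of_eq ?_)
  ring

end Pool.Agent.Helper76.OV
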