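import Pool.Agent.Helper76.OV.Defs

/-!
# OV-S3: the windows

For a fixed matrix `U = (a, b; c, d)` of `SL₂(ℤ)` with `|b| ≥ 264 B/c₁` few vectors `n` satisfy `|Rq(U n) - Rq(n)| ≤ C₁/P⁴`.

PROOF. (Compare GC.S3; copy the private lemmas `sep_card72`, `sep72` from there.) For `n = (q, y) ∈ W`, `s = sl n = y/q ∈ [0, 1]`, `m = U n`: `m.1 = q (a + b s)`, `m.2 = q (c + d s)`,
so `a + b s = m.1/q ∈ (1/2, 2)` (both vectors are `Good P`) and `s_m = sl m = (c + d s)/(a + b s) ∈ [0, 1]`. Put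
`Ψ(s) = f2 φ ((c + d s)/(a + b s))/(a + b s)³ - f2 φ s`. Then `Ψ(s) = 2 q³ (Rq φ 1 m - Rq φ 1 n)`, `|Ψ(s)| ≤ 2 P³ C₁/P⁴ = 2 C₁/P`.
Let `s < s'` be the slopes of two vectors of `W`. For `x ∈ [s, s']` the number `v = a + b x` lies between `a + b s` and `a + b s'`, so `v ∈ (1/2, 2)`, and `w = (c + d x)/(a + b x)` lies between
`s_m` and `s'_m`: `(c + d x)/(a + b x) - (c + d s)/(a + b s) = (x - s)/((a + b x)(a + b s)) ≥ 0` (use `a d - b c = 1`), similarly on the other side; so `w ∈ [0, 1]`.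
`Ψ` is differentiable at `x` with derivative `f3 φ w/v⁵ - 3 b f2 φ w/v⁴ - f3 φ x` (the derivative of `(c + d x)/(a + b x)` is `1/v²`). As `1/2 < v < 2`: `|f3 φ w|/v⁵ ≤ 32 B`,
`|f3 φ x| ≤ B`, `3 |b| f2 φ w/v⁴ ≥ 3 |b| c₁/16`, and `33 B ≤ |b| c₁/8`. So `|Ψ'(x)| ≥ |b| c₁/16`. By the mean value theorem (`exists_deriv_eq_slope` or
`exists_hasDerivAt_eq_slope`) `(|b| c₁/16) |s - s'| ≤ |Ψ(s) - Ψ(s')| ≤ 4 C₁/P`, so `|s - s'| ≤ 64 C₁/(c₁ |b| P)`. Different vectors of `W` have `|s - s'| ≥ 1/P²` (`sep72`), so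
`card W ≤ 1 + (64 C₁/(c₁ |b| P)) P²` by `sep_card72`.
-/

open MeasureTheory Real Set Filter Topology

set_option autoImplicit false

namespace Pool.Agent.Helper76.OV

open Pool.Agent.Helper22.AE
open Pool.Agent.Helper92.GC

private lemma sep_card67 {ι : Type*} (T : Finset ι) (s : ι → ℝ) {δ l : ℝ} (hδ : 0 < δ) (hl : 0 ≤ l)
    (h1 : ∀ x ∈ T, ∀ y ∈ T, x ≠ y → δ ≤ |s x - s y|) (h2 : ∀ x ∈ T, ∀ y ∈ T, |s x - s y| ≤ l) :
    (T.card : ℝ) ≤ 1 + l / δ := by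
  classical
  rcases T.eq_empty_or_nonempty with rfl | hT
  · simp only [Finset.card_empty, Nat.cast_zero]
    positivity
  obtain ⟨x0, hx0, hmin⟩ := T.exists_min_image s hT
  have hinj : Set.InjOn (fun x => ⌊(s x - s x0) / δ⌋₊) T := by
    intro x hx y hy hxy
    by_contra hne
    have h3 := h1 x hx y hy hne
    have hx1 : 0 ≤ (s x - s x0) / δ := div_nonneg (by linarith [hmin x hx]) hδ.le
    have hy1 : 0 ≤ (s y - s x0) / δ := div_nonneg (by linarith [hmin y hy]) hδ.le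
    have hfx := Nat.floor_le hx1
    have hfx' := Nat.lt_floor_add_one ((s x - s x0) / δ)
    have hfy := Nat.floor_le hy1
    have hfy' := Nat.lt_floor_add_one ((s y - s x0) / δ)
    have h5 : |(s x - s x0) / δ - (s y - s x0) / δ| < 1 := by
      simp only at hxy
      rw [hxy] at hfx hfx'
      rw [abs_lt]
      constructor <;> linarith
    have h4 : (s x - s x0) / δ - (s y - s x0) / δ = (s x - s y) / δ := by ring
    rw [h4, abs_div, abs_of_pos hδ, div_lt_one hδ] at h5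
    linarith
  have hmap : ∀ x ∈ T, (fun x => ⌊(s x - s x0) / δ⌋₊) x ∈ Finset.range (⌊l / δ⌋₊ + 1) := by
    intro x hx
    rw [Finset.mem_range, Nat.lt_succ_iff]
    apply Nat.floor_le_floor
    exact div_le_div_of_nonneg_right ((le_abs_self _).trans (h2 x hx x0 hx0)) hδ.le
  have hc := Finset.card_le_card_of_injOn _ hmap hinj
  rw [Finset.card_range] at hc
  calc (T.card : ℝ) ≤ ((⌊l / δ⌋₊ + 1 : ℕ) : ℝ) := by exact_mod_cast hc
    _ = ⌊l / δ⌋₊ + 1 := by push_cast; ring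
    _ ≤ 1 + l / δ := by linarith [Nat.floor_le (div_nonneg hl hδ.le)]

private lemma sep67 {P : ℝ} (hP : 1 ≤ P) {x y : ℤ × ℤ} (hx : Good P x) (hy : Good P y) (hne : x ≠ y) :
    1 / P ^ 2 ≤ |(x.2 : ℝ) / x.1 - (y.2 : ℝ) / y.1| := by
  have hx1 : (0 : ℝ) < x.1 := by linarith [hx.lo]
  have hy1 : (0 : ℝ) < y.1 := by linarith [hy.lo]
  have hx1' : 0 < x.1 := by exact_mod_cast hx1
  have hy1' : 0 < y.1 := by exact_mod_cast hy1
  have hnz : x.2 * y.1 - y.2 * x.1 ≠ 0 := by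
    intro h0
    have h1 : x.1 ∣ x.2 * y.1 := ⟨y.2, by linear_combination h0⟩
    have h2 : x.1 ∣ y.1 := hx.cop.dvd_of_dvd_mul_left h1
    have h3 : y.1 ∣ y.2 * x.1 := ⟨x.2, by linear_combination -h0⟩
    have h4 : y.1 ∣ x.1 := hy.cop.dvd_of_dvd_mul_left h3
    have h5 : x.1 = y.1 := le_antisymm (Int.le_of_dvd hy1' h2) (Int.le_of_dvd hx1' h4)
    apply hne
    refine Prod.ext h5 ?_
    rw [h5] at h0
    have h6 : (x.2 - y.2) * y.1 = 0 := by linear_combination h0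
    rcases mul_eq_zero.1 h6 with h7 | h7
    · linarith
    · omega
  have habs : (1 : ℝ) ≤ |((x.2 * y.1 - y.2 * x.1 : ℤ) : ℝ)| := by
    have := Int.one_le_abs hnz
    exact_mod_cast this
  have he : (x.2 : ℝ) / x.1 - (y.2 : ℝ) / y.1 = ((x.2 * y.1 - y.2 * x.1 : ℤ) : ℝ) / (x.1 * y.1) := by
    push_cast
    field_simp
  rw [he, abs_div, abs_of_pos (mul_pos hx1 hy1)]
  have hxy : (x.1 : ℝ) * y.1 ≤ P ^ 2 := by
    have := mul_le_mul hx.hi hy.hi hy1.le (by linarith : (0 : ℝ) ≤ P)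
    nlinarith
  exact div_le_div₀ (abs_nonneg _) habs (mul_pos hx1 hy1) hxy

private lemma diff_f2_67 {φ : ℝ → ℝ} (h : ContDiff ℝ 4 φ) : Differentiable ℝ (f2 φ) := by
  have h1 : Differentiable ℝ (iteratedDeriv 2 φ) :=
    h.differentiable_iteratedDeriv 2 (by norm_cast)
  have h2 : iteratedDeriv 2 φ = f2 φ := by
    rw [iteratedDeriv_succ, iteratedDeriv_one]
    rfl
  rwa [h2] at h1

private lemma deriv67 {φ : ℝ → ℝ} (h : ContDiff ℝ 4 φ) {a b c d x : ℝ} (had : a * d - b * c = 1)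
    (hv : 0 < a + b * x) :
    HasDerivAt (fun t => f2 φ ((c + d * t) / (a + b * t)) / (a + b * t) ^ 3 - f2 φ t)
      (f3 φ ((c + d * x) / (a + b * x)) / (a + b * x) ^ 5 -
        3 * b * f2 φ ((c + d * x) / (a + b * x)) / (a + b * x) ^ 4 - f3 φ x) x := by
  have hv0 : a + b * x ≠ 0 := hv.ne'
  have h2 : ∀ y, HasDerivAt (f2 φ) (f3 φ y) y := fun y => ((diff_f2_67 h) y).hasDerivAt
  have hV : HasDerivAt (fun t : ℝ => a + b * t) b x := by
    simpa using ((hasDerivAt_id x).const_mul b).const_add a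
  have hU : HasDerivAt (fun t : ℝ => c + d * t) d x := by
    simpa using ((hasDerivAt_id x).const_mul d).const_add c
  have hw : HasDerivAt (fun t : ℝ => (c + d * t) / (a + b * t))
      ((d * (a + b * x) - (c + d * x) * b) / (a + b * x) ^ 2) x := hU.div hV hv0
  have hw' : HasDerivAt (fun t : ℝ => (c + d * t) / (a + b * t)) (1 / (a + b * x) ^ 2) x := by
    convert hw using 2
    linear_combination -had
  have hf : HasDerivAt (fun t : ℝ => f2 φ ((c + d * t) / (a + b * t)))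
      (f3 φ ((c + d * x) / (a + b * x)) * (1 / (a + b * x) ^ 2)) x :=
    HasDerivAt.comp x (h2 ((c + d * x) / (a + b * x))) hw'
  have hV3 : HasDerivAt (fun t : ℝ => (a + b * t) ^ 3) (3 * (a + b * x) ^ 2 * b) x := by
    simpa using hV.fun_pow 3
  have hq := (hf.fun_div hV3 (pow_ne_zero 3 hv0)).fun_sub (h2 x)
  have e : f3 φ ((c + d * x) / (a + b * x)) / (a + b * x) ^ 5 -
        3 * b * f2 φ ((c + d * x) / (a + b * x)) / (a + b * x) ^ 4 - f3 φ x =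
      (f3 φ ((c + d * x) / (a + b * x)) * (1 / (a + b * x) ^ 2) * (a + b * x) ^ 3 -
        f2 φ ((c + d * x) / (a + b * x)) * (3 * (a + b * x) ^ 2 * b)) / ((a + b * x) ^ 3) ^ 2 - f3 φ x := by
    generalize f3 φ ((c + d * x) / (a + b * x)) = X
    generalize f2 φ ((c + d * x) / (a + b * x)) = Y
    generalize a + b * x = v at *
    field_simp
  rw [e]
  exact hq

private lemma lower67 {c₁ B b v y z u : ℝ} (hc : 0 < c₁) (hB : 1 ≤ B) (hb : 264 * B ≤ c₁ * |b|)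
    (hv1 : 1 / 2 < v) (hv2 : v < 2) (hy : |y| ≤ B) (hz : c₁ ≤ z) (hu : |u| ≤ B) :
    c₁ * |b| / 16 ≤ |y / v ^ 5 - 3 * b * z / v ^ 4 - u| := by
  have hv0 : 0 < v := by linarith
  have hv5 : (1 / 2 : ℝ) ^ 5 ≤ v ^ 5 := pow_le_pow_left₀ (by norm_num) hv1.le 5
  have hv4 : v ^ 4 ≤ 2 ^ 4 := pow_le_pow_left₀ hv0.le hv2.le 4
  have h1 : |y / v ^ 5| ≤ 32 * B := by
    rw [abs_div, abs_of_pos (pow_pos hv0 5), div_le_iff₀ (pow_pos hv0 5)]
    have : 32 * B * (1 / 2 : ℝ) ^ 5 ≤ 32 * B * v ^ 5 := mul_le_mul_of_nonneg_left hv5 (by linarith)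
    have e : 32 * B * (1 / 2 : ℝ) ^ 5 = B := by ring
    linarith
  have h2 : 3 * (c₁ * |b|) / 16 ≤ |3 * b * z / v ^ 4| := by
    rw [abs_div, abs_of_pos (pow_pos hv0 4), abs_mul, abs_mul, abs_of_pos (by norm_num : (0:ℝ) < 3),
      abs_of_pos (by linarith : 0 < z), le_div_iff₀ (pow_pos hv0 4)]
    have hbb : 0 ≤ |b| := abs_nonneg b
    calc 3 * (c₁ * |b|) / 16 * v ^ 4 ≤ 3 * (c₁ * |b|) / 16 * 2 ^ 4 :=
          mul_le_mul_of_nonneg_left hv4 (by positivity)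
      _ = 3 * |b| * c₁ := by ring
      _ ≤ 3 * |b| * z := mul_le_mul_of_nonneg_left hz (by positivity)
  have h3 : |3 * b * z / v ^ 4| ≤ |y / v ^ 5 - 3 * b * z / v ^ 4 - u| + |y / v ^ 5| + |u| := by
    have e : 3 * b * z / v ^ 4 = -(y / v ^ 5 - 3 * b * z / v ^ 4 - u) + y / v ^ 5 + (-u) := by ring
    calc |3 * b * z / v ^ 4| = |-(y / v ^ 5 - 3 * b * z / v ^ 4 - u) + y / v ^ 5 + (-u)| := by rw [← e]
      _ ≤ |-(y / v ^ 5 - 3 * b * z / v ^ 4 - u) + y / v ^ 5| + |-u| := abs_add_le _ _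
      _ ≤ |-(y / v ^ 5 - 3 * b * z / v ^ 4 - u)| + |y / v ^ 5| + |-u| := by
        linarith [abs_add_le (-(y / v ^ 5 - 3 * b * z / v ^ 4 - u)) (y / v ^ 5)]
      _ = _ := by rw [abs_neg, abs_neg]
  linarith

private lemma key67 {c₁ B : ℝ} (hc : 0 < c₁) (hB : 1 ≤ B) {φ : ℝ → ℝ} (hφ : Cn c₁ B φ)
    {a b c d s s' E : ℝ} (had : a * d - b * c = 1) (hb : 264 * B ≤ c₁ * |b|)
    (hs0 : 0 ≤ s) (hss : s < s') (hs1 : s' ≤ 1)
    (hv : 1 / 2 < a + b * s) (hv2 : a + b * s < 2) (hv' : 1 / 2 < a + b * s') (hv2' : a + b * s' < 2)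
    (hw : 0 ≤ (c + d * s) / (a + b * s)) (hw' : (c + d * s') / (a + b * s') ≤ 1)
    (hE : |f2 φ ((c + d * s) / (a + b * s)) / (a + b * s) ^ 3 - f2 φ s| ≤ E)
    (hE' : |f2 φ ((c + d * s') / (a + b * s')) / (a + b * s') ^ 3 - f2 φ s'| ≤ E) :
    c₁ * |b| / 16 * (s' - s) ≤ 2 * E := by
  have hvx : ∀ x, s ≤ x → x ≤ s' → 1 / 2 < a + b * x ∧ a + b * x < 2 := by
    intro x h1 h2
    have hd : 0 < s' - s := by linarith
    rcases le_total 0 b with hb0 | hb0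
    · have e1 : b * s ≤ b * x := mul_le_mul_of_nonneg_left h1 hb0
      have e2 : b * x ≤ b * s' := mul_le_mul_of_nonneg_left h2 hb0
      constructor <;> linarith
    · have e1 : b * x ≤ b * s := mul_le_mul_of_nonpos_left h1 hb0
      have e2 : b * s' ≤ b * x := mul_le_mul_of_nonpos_left h2 hb0
      constructor <;> linarith
  have hwx : ∀ x y, s ≤ x → x ≤ y → y ≤ s' → (c + d * x) / (a + b * x) ≤ (c + d * y) / (a + b * y) := by
    intro x y h1 h2 h3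
    have vx := (hvx x h1 (h2.trans h3)).1
    have vy := (hvx y (h1.trans h2) h3).1
    rw [div_le_div_iff₀ (by linarith) (by linarith)]
    have e : (c + d * y) * (a + b * x) - (c + d * x) * (a + b * y) = (y - x) * (a * d - b * c) := by ring
    rw [had] at e
    linarith
  have hder : ∀ x ∈ Set.Icc s s', HasDerivAt (fun t => f2 φ ((c + d * t) / (a + b * t)) / (a + b * t) ^ 3 - f2 φ t)
      (f3 φ ((c + d * x) / (a + b * x)) / (a + b * x) ^ 5 -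
        3 * b * f2 φ ((c + d * x) / (a + b * x)) / (a + b * x) ^ 4 - f3 φ x) x := by
    intro x hx
    exact deriv67 hφ.smooth had (by linarith [(hvx x hx.1 hx.2).1])
  obtain ⟨x, hx, hxe⟩ := exists_hasDerivAt_eq_slope
    (fun t => f2 φ ((c + d * t) / (a + b * t)) / (a + b * t) ^ 3 - f2 φ t)
    (fun x => f3 φ ((c + d * x) / (a + b * x)) / (a + b * x) ^ 5 -
        3 * b * f2 φ ((c + d * x) / (a + b * x)) / (a + b * x) ^ 4 - f3 φ x) hss
    (fun x hx => (hder x hx).continuousAt.continuousWithinAt)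
    (fun x hx => hder x ⟨hx.1.le, hx.2.le⟩)
  have hvv := hvx x hx.1.le hx.2.le
  have hw1 : 0 ≤ (c + d * x) / (a + b * x) := hw.trans (hwx s x le_rfl hx.1.le hx.2.le)
  have hw2 : (c + d * x) / (a + b * x) ≤ 1 := (hwx x s' hx.1.le hx.2.le le_rfl).trans hw'
  have hwa : |(c + d * x) / (a + b * x)| ≤ 2 := by
    rw [abs_of_nonneg hw1]
    linarith
  have hxa : |x| ≤ 2 := by
    rw [abs_of_nonneg (hs0.trans hx.1.le)]
    linarith [hx.2]
  have hlow := lower67 hc hB hb hvv.1 hvv.2 (hφ.h3 _ hwa) (hφ.lo _ hwa) (hφ.h3 _ hxa)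
  have hd : 0 < s' - s := by linarith
  have hxe' : (f3 φ ((c + d * x) / (a + b * x)) / (a + b * x) ^ 5 -
        3 * b * f2 φ ((c + d * x) / (a + b * x)) / (a + b * x) ^ 4 - f3 φ x) * (s' - s) =
      (f2 φ ((c + d * s') / (a + b * s')) / (a + b * s') ^ 3 - f2 φ s') -
      (f2 φ ((c + d * s) / (a + b * s)) / (a + b * s) ^ 3 - f2 φ s) := by
    rw [eq_div_iff hd.ne'] at hxe
    exact hxe
  calc c₁ * |b| / 16 * (s' - s) ≤ |f3 φ ((c + d * x) / (a + b * x)) / (a + b * x) ^ 5 -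
        3 * b * f2 φ ((c + d * x) / (a + b * x)) / (a + b * x) ^ 4 - f3 φ x| * (s' - s) :=
        mul_le_mul_of_nonneg_right hlow hd.le
    _ = |(f3 φ ((c + d * x) / (a + b * x)) / (a + b * x) ^ 5 -
        3 * b * f2 φ ((c + d * x) / (a + b * x)) / (a + b * x) ^ 4 - f3 φ x) * (s' - s)| := by
        rw [abs_mul, abs_of_pos hd]
    _ = |(f2 φ ((c + d * s') / (a + b * s')) / (a + b * s') ^ 3 - f2 φ s') -
      (f2 φ ((c + d * s) / (a + b * s)) / (a + b * s) ^ 3 - f2 φ s)| := by rw [hxe']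
    _ ≤ |f2 φ ((c + d * s') / (a + b * s')) / (a + b * s') ^ 3 - f2 φ s'| +
      |f2 φ ((c + d * s) / (a + b * s)) / (a + b * s) ^ 3 - f2 φ s| := abs_sub _ _
    _ ≤ 2 * E := by linarith

theorem window {c₁ B C₁ : ℝ} (hc : 0 < c₁) (hB : 1 ≤ B) (hC : 0 ≤ C₁) {φ : ℝ → ℝ} (hφ : Cn c₁ B φ) {P : ℝ} (hP : 1 ≤ P)
    {a b c d : ℤ} (had : a * d - b * c = 1) (hb : 264 * B ≤ c₁ * |(b : ℝ)|) (W : Finset (ℤ × ℤ))
    (hW : ∀ n ∈ W, Good P n ∧ Good P (a * n.1 + b * n.2, c * n.1 + d * n.2) ∧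
      |Rq φ 1 (a * n.1 + b * n.2, c * n.1 + d * n.2) - Rq φ 1 n| ≤ C₁ / P ^ 4) :
    (W.card : ℝ) ≤ 1 + 64 * C₁ * P / (c₁ * |(b : ℝ)|) := by
  have hP0 : 0 < P := by linarith
  have hadr : (a : ℝ) * d - b * c = 1 := by exact_mod_cast had
  have hb0 : 0 < c₁ * |(b : ℝ)| := by linarith
  have hprop : ∀ n ∈ W, (0 ≤ sl n ∧ sl n ≤ 1) ∧ (1 / 2 < (a : ℝ) + b * sl n ∧ (a : ℝ) + b * sl n < 2) ∧
      (0 ≤ ((c : ℝ) + d * sl n) / (a + b * sl n) ∧ ((c : ℝ) + d * sl n) / (a + b * sl n) ≤ 1) ∧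
      |f2 φ (((c : ℝ) + d * sl n) / (a + b * sl n)) / (a + b * sl n) ^ 3 - f2 φ (sl n)| ≤ 2 * C₁ / P := by
    intro n hn
    obtain ⟨g1, g2, g3⟩ := hW n hn
    have q1 := g1.lo
    have q2 := g1.hi
    have q0 : (0 : ℝ) < n.1 := by linarith
    have y0 : (0 : ℝ) ≤ n.2 := by exact_mod_cast g1.nonneg
    have y1 : (n.2 : ℝ) ≤ n.1 := by exact_mod_cast g1.le
    have m1 : P / 2 < ((a * n.1 + b * n.2 : ℤ) : ℝ) := g2.lo
    have m2 : ((a * n.1 + b * n.2 : ℤ) : ℝ) ≤ P := g2.hi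
    have m3 : (0 : ℝ) ≤ ((c * n.1 + d * n.2 : ℤ) : ℝ) := by exact_mod_cast g2.nonneg
    have m4 : ((c * n.1 + d * n.2 : ℤ) : ℝ) ≤ ((a * n.1 + b * n.2 : ℤ) : ℝ) := by exact_mod_cast g2.le
    have m0 : (0 : ℝ) < ((a * n.1 + b * n.2 : ℤ) : ℝ) := by linarith
    have ev : (a : ℝ) + b * sl n = ((a * n.1 + b * n.2 : ℤ) : ℝ) / n.1 := by
      unfold sl
      push_cast
      field_simp
    have eu : (c : ℝ) + d * sl n = ((c * n.1 + d * n.2 : ℤ) : ℝ) / n.1 := by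
      unfold sl
      push_cast
      field_simp
    have ew : ((c : ℝ) + d * sl n) / (a + b * sl n) =
        ((c * n.1 + d * n.2 : ℤ) : ℝ) / ((a * n.1 + b * n.2 : ℤ) : ℝ) := by
      rw [ev, eu, div_div_div_cancel_right₀ q0.ne']
    refine ⟨⟨div_nonneg y0 q0.le, ?_⟩, ⟨?_, ?_⟩, ⟨?_, ?_⟩, ?_⟩
    · unfold sl
      rw [div_le_one q0]
      exact y1
    · rw [ev, lt_div_iff₀ q0]
      linarith
    · rw [ev, div_lt_iff₀ q0]
      linarith
    · rw [ew]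
      exact div_nonneg m3 m0.le
    · rw [ew, div_le_one m0]
      exact m4
    · have e1 : f2 φ (((c : ℝ) + d * sl n) / (a + b * sl n)) / (a + b * sl n) ^ 3 - f2 φ (sl n) =
          2 * (n.1 : ℝ) ^ 3 * (Rq φ 1 (a * n.1 + b * n.2, c * n.1 + d * n.2) - Rq φ 1 n) := by
        rw [ew, ev]
        unfold Rq
        have e2 : sl (a * n.1 + b * n.2, c * n.1 + d * n.2) =
          ((c * n.1 + d * n.2 : ℤ) : ℝ) / ((a * n.1 + b * n.2 : ℤ) : ℝ) := rfl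
        rw [e2]
        generalize f2 φ (((c * n.1 + d * n.2 : ℤ) : ℝ) / ((a * n.1 + b * n.2 : ℤ) : ℝ)) = F
        show F / (((a * n.1 + b * n.2 : ℤ) : ℝ) / n.1) ^ 3 - f2 φ (sl n) =
          2 * (n.1 : ℝ) ^ 3 * (1 * F / (2 * ((a * n.1 + b * n.2 : ℤ) : ℝ) ^ 3) - 1 * f2 φ (sl n) / (2 * (n.1 : ℝ) ^ 3))
        generalize f2 φ (sl n) = F'
        generalize ((a * n.1 + b * n.2 : ℤ) : ℝ) = M at *
        have hM : M ≠ 0 := m0.ne'
        field_simp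
      rw [e1, abs_mul, abs_of_pos (by positivity : (0 : ℝ) < 2 * (n.1 : ℝ) ^ 3)]
      have q3 : (n.1 : ℝ) ^ 3 ≤ P ^ 3 := pow_le_pow_left₀ q0.le q2 3
      calc 2 * (n.1 : ℝ) ^ 3 * |Rq φ 1 (a * n.1 + b * n.2, c * n.1 + d * n.2) - Rq φ 1 n|
          ≤ 2 * P ^ 3 * (C₁ / P ^ 4) := mul_le_mul (by linarith) g3 (abs_nonneg _) (by positivity)
        _ = 2 * C₁ / P := by
          field_simp
  have hkey : ∀ x ∈ W, ∀ y ∈ W, sl x < sl y → c₁ * |(b : ℝ)| / 16 * (sl y - sl x) ≤ 2 * (2 * C₁ / P) := by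
    intro x hx y hy hxy
    obtain ⟨⟨x1, x2⟩, ⟨x3, x4⟩, ⟨x5, x6⟩, x7⟩ := hprop x hx
    obtain ⟨⟨y1, y2⟩, ⟨y3, y4⟩, ⟨y5, y6⟩, y7⟩ := hprop y hy
    exact key67 hc hB hφ hadr hb x1 hxy y2 x3 x4 y3 y4 x5 y6 x7 y7
  have hl0 : 0 ≤ 64 * C₁ / (c₁ * |(b : ℝ)| * P) := by positivity
  have hdist : ∀ x ∈ W, ∀ y ∈ W, |sl x - sl y| ≤ 64 * C₁ / (c₁ * |(b : ℝ)| * P) := by
    have h1 : ∀ t : ℝ, c₁ * |(b : ℝ)| / 16 * t ≤ 2 * (2 * C₁ / P) → t ≤ 64 * C₁ / (c₁ * |(b : ℝ)| * P) := by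
      intro t ht
      rw [le_div_iff₀ (by positivity)]
      have h2 : c₁ * |(b : ℝ)| / 16 * t * (16 * P) ≤ 2 * (2 * C₁ / P) * (16 * P) :=
        mul_le_mul_of_nonneg_right ht (by positivity)
      have h3 : 2 * (2 * C₁ / P) * (16 * P) = 64 * C₁ := by
        field_simp
        ring
      linarith
    intro x hx y hy
    rcases lt_trichotomy (sl x) (sl y) with h | h | h
    · rw [abs_sub_comm, abs_of_pos (by linarith)]
      exact h1 _ (hkey x hx y hy h)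
    · rw [h, sub_self, abs_zero]
      exact hl0
    · rw [abs_of_pos (by linarith)]
      exact h1 _ (hkey y hy x hx h)
  have hfin := sep_card67 W sl (by positivity : (0 : ℝ) < 1 / P ^ 2) hl0
    (fun x hx y hy hne => sep67 hP (hW x hx).1 (hW y hy).1 hne) hdist
  refine hfin.trans (le_of_eq ?_)
  have hbb : |(b : ℝ)| ≠ 0 := by
    intro h
    rw [h, mul_zero] at hb0
    exact lt_irrefl _ hb0
  field_simp

end Pool.Agent.Helper76.OV
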